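import Pool.Agent.Lib.MP_234ff2_co.IP.Defs

/-!
# Row A: angles at a vertex
-/

set_option autoImplicit false

namespace Pool.Agent.IP25.A_42

/-- the determinant -/
def dt (a b : Pt) : ℝ := a.1 * b.2 - a.2 * b.1

/-- the inner product -/
def ip (a b : Pt) : ℝ := a.1 * b.1 + a.2 * b.2

theorem ident (a b z : Pt) : dt a b * ip z z = ip a z * dt z b + dt a z * ip b z := by
  unfold dt ip; ring

theorem ip_pos {z : Pt} (hz : z ≠ 0) : 0 < ip z z := by
  unfold ip
  by_contra h
  have h1 : z.1 * z.1 = 0 := by nlinarith [mul_self_nonneg z.1, mul_self_nonneg z.2]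
  have h2 : z.2 * z.2 = 0 := by nlinarith [mul_self_nonneg z.1, mul_self_nonneg z.2]
  exact hz (Prod.ext (mul_self_eq_zero.mp h1) (mul_self_eq_zero.mp h2))

theorem dt_swap (a b : Pt) : dt a b = - dt b a := by unfold dt; ring

/-- (A) -/
theorem stA_42 : StA := by
  intro S z hne hz hdir hsucc
  have hzz := ip_pos hz
  -- no vector of `S` lies on the right-hand side of `z`
  have h0 : ∀ a ∈ S, dt a z ≤ 0 := by
    by_contra hcon
    push Not at hcon
    obtain ⟨a0, ha0, ha0'⟩ := hcon
    obtain ⟨a, ha, hmax⟩ := (S.filter (fun a => 0 < dt a z)).exists_max_image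
      (fun a => ip a z / dt a z) ⟨a0, Finset.mem_filter.mpr ⟨ha0, ha0'⟩⟩
    obtain ⟨haS, haz⟩ := Finset.mem_filter.mp ha
    obtain ⟨b, hb, hab, hnot⟩ := hsucc a haS
    change 0 < dt a b at hab
    have hzb : dt z b ≤ 0 := by
      by_contra h
      exact hnot ⟨haz, not_le.mp h⟩
    have hid := ident a b z
    have hpos : 0 < dt a b * ip z z := mul_pos hab hzz
    rcases hzb.lt_or_eq with hlt | heq
    · have hbz : 0 < dt b z := by rw [dt_swap]; linarith
      have h1 := hmax b (Finset.mem_filter.mpr ⟨hb, hbz⟩)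
      rw [div_le_div_iff₀ hbz haz] at h1
      have h2 : dt z b = - dt b z := dt_swap z b
      rw [h2] at hid
      nlinarith
    · rw [heq, mul_zero, zero_add] at hid
      have hbz : 0 < ip b z := by
        by_contra h
        nlinarith [mul_nonneg haz.le (neg_nonneg.mpr (not_lt.mp h))]
      exact hdir b hb ⟨by have := dt_swap b z; rw [heq, neg_zero] at this; exact this, hbz⟩
  -- every vector of `S` lies on the left-hand side of `z`
  have h1 : ∀ a ∈ S, 0 < dt z a := by
    intro a ha
    have h2 : 0 ≤ dt z a := by rw [dt_swap]; linarith [h0 a ha]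
    rcases h2.lt_or_eq with h | h
    · exact h
    exfalso
    obtain ⟨b, hb, hab, _⟩ := hsucc a ha
    change 0 < dt a b at hab
    have hid := ident a b z
    have haz : dt a z = 0 := by rw [dt_swap, ← h, neg_zero]
    rw [haz, zero_mul, add_zero] at hid
    have hpos : 0 < dt a b * ip z z := mul_pos hab hzz
    have hzb : 0 ≤ dt z b := by rw [dt_swap]; linarith [h0 b hb]
    have hip : ip a z ≤ 0 := by
      by_contra hc
      exact hdir a ha ⟨haz, not_le.mp hc⟩
    nlinarith [mul_nonneg (neg_nonneg.mpr hip) hzb]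
  obtain ⟨a, ha, hmin⟩ := S.exists_min_image (fun a => ip a z / dt z a) hne
  obtain ⟨b, hb, hab, _⟩ := hsucc a ha
  change 0 < dt a b at hab
  have h2 := hmin b hb
  rw [div_le_div_iff₀ (h1 a ha) (h1 b hb)] at h2
  have hid := ident a b z
  have hpos : 0 < dt a b * ip z z := mul_pos hab hzz
  rw [dt_swap a z] at hid
  nlinarith

end Pool.Agent.IP25.A_42
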