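import Mathlib

set_option autoImplicit false

/-! Straight-line plane graphs: definitions and statements of the rows (helper25). -/

namespace Pool.Agent.IP25

/-- Points of the plane. -/
abbrev Pt := ℝ × ℝ

/-- Orientation determinant of three points. -/
def cr (a b c : Pt) : ℝ := (b.1 - a.1) * (c.2 - a.2) - (b.2 - a.2) * (c.1 - a.1)

/-- The straight-line drawing of the graph H with vertex positions P is plane:
no edge passes through another vertex, edges without common endpoint are disjoint. -/
def Plane {V : Type} (P : V → Pt) (H : SimpleGraph V) : Prop :=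
  (∀ u v w : V, H.Adj u v → w ≠ u → w ≠ v → P w ∉ segment ℝ (P u) (P v)) ∧
  (∀ u v x y : V, H.Adj u v → H.Adj x y → u ≠ x → u ≠ y → v ≠ x → v ≠ y →
    ∀ z : Pt, z ∈ segment ℝ (P u) (P v) → z ∉ segment ℝ (P x) (P y))

/-- z lies in the closed triangle a b c (a b c counterclockwise). -/
def InTri (a b c z : Pt) : Prop := 0 ≤ cr a b z ∧ 0 ≤ cr b c z ∧ 0 ≤ cr c a z

/-- a, b, c is counterclockwise and the closed triangle contains no further vertex. -/
def Empty3 {V : Type} (P : V → Pt) (a b c : V) : Prop :=
  0 < cr (P a) (P b) (P c) ∧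
    ∀ w : V, w ≠ a → w ≠ b → w ≠ c → ¬ InTri (P a) (P b) (P c) (P w)

/-- An empty counterclockwise triangle with all three sides in H. -/
def Tri {V : Type} (P : V → Pt) (H : SimpleGraph V) (a b c : V) : Prop :=
  H.Adj a b ∧ H.Adj b c ∧ H.Adj c a ∧ Empty3 P a b c

/-- The dart from a to b is covered: an empty triangle of H lies on its left. -/
def Cov {V : Type} (P : V → Pt) (H : SimpleGraph V) (a b : V) : Prop := ∃ c : V, Tri P H a b c

/-- M is a maximal plane graph for the positions P. -/
def MaxPlane {V : Type} (P : V → Pt) (M : SimpleGraph V) : Prop :=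
  Plane P M ∧ ∀ M' : SimpleGraph V, M ≤ M' → Plane P M' → M' ≤ M

/-- Row C: consecutive neighbours a, b of v at an angle less than pi bound an empty triangle. -/
def StC : Prop :=
  ∀ (V : Type) [Finite V] (P : V → Pt) (M : SimpleGraph V), Function.Injective P →
    MaxPlane P M → ∀ v a b : V, M.Adj v a → M.Adj v b → 0 < cr (P v) (P a) (P b) →
    (∀ g : V, M.Adj v g → ¬ (0 < cr (P v) (P a) (P g) ∧ 0 < cr (P v) (P g) (P b))) →
    Tri P M v a b

/-- Row H: if some vertex lies strictly to the left of the line v w,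
then some M-neighbour of v does. -/
def StH : Prop :=
  ∀ (V : Type) [Finite V] (P : V → Pt) (M : SimpleGraph V), Function.Injective P →
    MaxPlane P M → ∀ v w p : V, 0 < cr (P v) (P w) (P p) →
    ∃ z : V, M.Adj v z ∧ 0 < cr (P v) (P w) (P z)

/-- Row N: every dart with a vertex strictly on its left is covered. -/
def StN : Prop :=
  ∀ (V : Type) [Finite V] (P : V → Pt) (M : SimpleGraph V), Function.Injective P →
    MaxPlane P M → ∀ v w p : V, M.Adj v w → 0 < cr (P v) (P w) (P p) → Cov P M v w

/-- Row S (slots): at most 2 (N - 2) empty triangles; ordered triples count each three times. -/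
def StS : Prop :=
  ∀ (V : Type) [Fintype V] (P : V → Pt) (M : SimpleGraph V), Function.Injective P →
    Plane P M → 2 ≤ Fintype.card V →
    Nat.card {T : V × V × V // Tri P M T.1 T.2.1 T.2.2} + 12 ≤ 6 * Fintype.card V

/-- The planar inequality: 3 (number of darts) + 6 ≤ 12 n + (number of covered darts). -/
def StStar : Prop :=
  ∀ (V : Type) [Fintype V] (P : V → Pt) (H : SimpleGraph V), Function.Injective P →
    Plane P H → 1 ≤ Fintype.card V →
    3 * Nat.card {d : V × V // H.Adj d.1 d.2} + 6 ≤
      12 * Fintype.card V + Nat.card {d : V × V // Cov P H d.1 d.2}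

/-- Row A (angles at a vertex): a finite nonempty set S of vectors of which each has a
successor in S counterclockwise at an angle less than pi cannot leave out the direction z. -/
def StA : Prop :=
  ∀ (S : Finset Pt) (z : Pt), S.Nonempty → z ≠ 0 →
    (∀ a ∈ S, ¬ (a.1 * z.2 - a.2 * z.1 = 0 ∧ 0 < a.1 * z.1 + a.2 * z.2)) →
    (∀ a ∈ S, ∃ b ∈ S, 0 < a.1 * b.2 - a.2 * b.1 ∧
      ¬ (0 < a.1 * z.2 - a.2 * z.1 ∧ 0 < z.1 * b.2 - z.2 * b.1)) → False

end Pool.Agent.IP25
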