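import Mathlib
import Pool.Agent.Lib.MP_234ff2_co.IP.Defs

set_option autoImplicit false

namespace Pool.Agent.IP25

theorem cr_cyc (a b c : Pt) : cr b c a = cr a b c := by unfold cr; ring

theorem cr_cyc' (a b c : Pt) : cr c a b = cr a b c := by unfold cr; ring

theorem cr_swap (a b c : Pt) : cr a c b = - cr a b c := by unfold cr; ring

theorem cr_add (a b c z : Pt) : cr a b z + cr b c z + cr c a z = cr a b c := by unfold cr; ring

/-- Membership in a segment, with the coordinates written out. -/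
theorem mem_seg_of (p q z : Pt) (m : ℝ) (h0 : 0 ≤ m) (h1 : m ≤ 1)
    (hx : z.1 = p.1 + m * (q.1 - p.1)) (hy : z.2 = p.2 + m * (q.2 - p.2)) :
    z ∈ segment ℝ p q := by
  rw [segment_eq_image]
  refine ⟨m, ⟨h0, h1⟩, ?_⟩
  apply Prod.ext
  · simp only [Prod.fst_add, Prod.smul_fst, smul_eq_mul]; rw [hx]; ring
  · simp only [Prod.snd_add, Prod.smul_snd, smul_eq_mul]; rw [hy]; ring

theorem seg_mem (p q z : Pt) (h : z ∈ segment ℝ p q) :
    ∃ m : ℝ, 0 ≤ m ∧ m ≤ 1 ∧ z.1 = p.1 + m * (q.1 - p.1) ∧ z.2 = p.2 + m * (q.2 - p.2) := by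
  rw [segment_eq_image] at h
  obtain ⟨m, ⟨h0, h1⟩, rfl⟩ := h
  refine ⟨m, h0, h1, ?_, ?_⟩
  · simp only [Prod.fst_add, Prod.smul_fst, smul_eq_mul]; ring
  · simp only [Prod.snd_add, Prod.smul_snd, smul_eq_mul]; ring

/-- Lemma S. -/
theorem no_sector {V : Type} {P : V → Pt} {M : SimpleGraph V} (hM : Plane P M)
    {v a b z : V} (hT : Tri P M v a b) (hz : M.Adj v z) (hza : z ≠ a) (hzb : z ≠ b) :
    ¬ (0 < cr (P v) (P a) (P z) ∧ 0 < cr (P v) (P z) (P b)) := by
  rintro ⟨ht, hs⟩
  obtain ⟨hva, hab, hbv, hD, hE⟩ := hT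
  have hzv : z ≠ v := hz.ne'
  by_cases hc : 0 ≤ cr (P a) (P b) (P z)
  · exact hE z hzv hza hzb ⟨ht.le, hc, by rw [← cr_cyc] at hs; rw [← cr_cyc] at hs; exact hs.le⟩
  · push Not at hc
    set s := cr (P v) (P z) (P b) with hsd
    set t := cr (P v) (P a) (P z) with htd
    set D := cr (P v) (P a) (P b) with hDd
    have hsum : cr (P a) (P b) (P z) = D - s - t := by
      rw [hsd, htd, hDd]; unfold cr; ring
    have hst : D < s + t := by linarith
    have hpos : 0 < s + t := by linarith
    have e1 : D * ((P z).1 - (P v).1) = s * ((P a).1 - (P v).1) + t * ((P b).1 - (P v).1) := by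
      rw [hsd, htd, hDd]; unfold cr; ring
    have e2 : D * ((P z).2 - (P v).2) = s * ((P a).2 - (P v).2) + t * ((P b).2 - (P v).2) := by
      rw [hsd, htd, hDd]; unfold cr; ring
    let y : Pt := ((P v).1 + D / (s + t) * ((P z).1 - (P v).1),
      (P v).2 + D / (s + t) * ((P z).2 - (P v).2))
    have h1 : y ∈ segment ℝ (P v) (P z) :=
      mem_seg_of _ _ _ (D / (s + t)) (by positivity) (by rw [div_le_one hpos]; exact hst.le) rfl rfl
    have h2 : y ∈ segment ℝ (P a) (P b) := by
      refine mem_seg_of _ _ _ (t / (s + t)) (by positivity)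
        (by rw [div_le_one hpos]; linarith) ?_ ?_
      · change (P v).1 + D / (s + t) * ((P z).1 - (P v).1) = _
        have : D / (s + t) * ((P z).1 - (P v).1) =
            (s * ((P a).1 - (P v).1) + t * ((P b).1 - (P v).1)) / (s + t) := by
          rw [← e1]; ring
        rw [this]; field_simp; ring
      · change (P v).2 + D / (s + t) * ((P z).2 - (P v).2) = _
        have : D / (s + t) * ((P z).2 - (P v).2) =
            (s * ((P a).2 - (P v).2) + t * ((P b).2 - (P v).2)) / (s + t) := by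
          rw [← e2]; ring
        rw [this]; field_simp; ring
    exact hM.2 v z a b hz hab hva.ne hbv.ne' hza hzb y h1 h2

/-- The triangle on the left of a dart is unique. -/
theorem tri_unique {V : Type} {P : V → Pt} {M : SimpleGraph V} (hM : Plane P M)
    {a b c c' : V} (h : Tri P M a b c) (h' : Tri P M a b c') : c = c' := by
  by_contra hne
  have hb1 : c ≠ b := h.2.1.ne'
  have hb2 : c' ≠ b := h'.2.1.ne'
  have hD := h.2.2.2.1
  have hD' := h'.2.2.2.1
  rcases lt_trichotomy (cr (P a) (P c) (P c')) 0 with hlt | heq | hgt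
  · have : 0 < cr (P a) (P c') (P c) := by rw [cr_swap]; linarith
    exact no_sector hM h h'.2.2.1.symm hb2 (Ne.symm hne) ⟨hD', this⟩
  · -- collinear
    have e1 : cr (P a) (P b) (P c) * ((P c').1 - (P a).1)
        = cr (P a) (P b) (P c') * ((P c).1 - (P a).1) := by
      have : cr (P a) (P b) (P c) * ((P c').1 - (P a).1)
          - cr (P a) (P b) (P c') * ((P c).1 - (P a).1)
          = - ((P b).1 - (P a).1) * cr (P a) (P c) (P c') := by unfold cr; ring
      rw [heq] at this; linarith
    have e2 : cr (P a) (P b) (P c) * ((P c').2 - (P a).2)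
        = cr (P a) (P b) (P c') * ((P c).2 - (P a).2) := by
      have : cr (P a) (P b) (P c) * ((P c').2 - (P a).2)
          - cr (P a) (P b) (P c') * ((P c).2 - (P a).2)
          = - ((P b).2 - (P a).2) * cr (P a) (P c) (P c') := by unfold cr; ring
      rw [heq] at this; linarith
    by_cases hle : cr (P a) (P b) (P c') ≤ cr (P a) (P b) (P c)
    · refine hM.1 a c c' h.2.2.1.symm h'.2.2.1.ne (Ne.symm hne) ?_
      refine mem_seg_of _ _ _ (cr (P a) (P b) (P c') / cr (P a) (P b) (P c))
        (by positivity) (by rw [div_le_one hD]; exact hle) ?_ ?_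
      · field_simp; linarith
      · field_simp; linarith
    · push Not at hle
      refine hM.1 a c' c h'.2.2.1.symm h.2.2.1.ne hne ?_
      refine mem_seg_of _ _ _ (cr (P a) (P b) (P c) / cr (P a) (P b) (P c'))
        (by positivity) (by rw [div_le_one hD']; exact hle.le) ?_ ?_
      · field_simp; linarith
      · field_simp; linarith
  · exact no_sector hM h' h.2.2.1.symm hb1 hne ⟨hD, hgt⟩

theorem tri_rot {V : Type} {P : V → Pt} {M : SimpleGraph V} {a b c : V}
    (h : Tri P M a b c) : Tri P M b c a := by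
  obtain ⟨h1, h2, h3, h4, h5⟩ := h
  refine ⟨h2, h3, h1, by rw [cr_cyc]; exact h4, ?_⟩
  intro w hb hc ha hin
  exact h5 w ha hb hc ⟨hin.2.2, hin.1, hin.2.1⟩

end Pool.Agent.IP25
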