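import Mathlib
import Pool.Agent.Lib.MP_234ff2_co.IP.Base25

set_option autoImplicit false

/-! Row C (helper44): consecutive neighbours of a vertex in a maximal plane graph. -/

namespace Pool.Agent.IP25.C_44

open Pool.Agent.IP25

theorem cr_mid (v b p q x : Pt) (m : ℝ) (hx : x.1 = p.1 + m * (q.1 - p.1))
    (hy : x.2 = p.2 + m * (q.2 - p.2)) :
    cr v x b = (1 - m) * cr v p b + m * cr v q b := by
  unfold cr; rw [hx, hy]; ring

theorem cr_last (v a p q x : Pt) (m : ℝ) (hx : x.1 = p.1 + m * (q.1 - p.1))
    (hy : x.2 = p.2 + m * (q.2 - p.2)) :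
    cr v a x = (1 - m) * cr v a p + m * cr v a q := by
  unfold cr; rw [hx, hy]; ring

theorem cr_self_mid (v b : Pt) : cr v v b = 0 := by unfold cr; ring

theorem cr_self_last (v a : Pt) : cr v a v = 0 := by unfold cr; ring

theorem cr_eq_right (v a : Pt) : cr v a a = 0 := by unfold cr; ring

theorem cr_opp (v a b z : Pt) : cr a b z = cr v a b - cr v z b - cr v a z := by unfold cr; ring

/-- ADD: an edge which is not obstructed belongs to a maximal plane graph. -/
theorem add_edge {V : Type} {P : V → Pt} {M : SimpleGraph V} (hM : MaxPlane P M) {u v : V}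
    (huv : u ≠ v)
    (h1 : ∀ w : V, w ≠ u → w ≠ v → P w ∉ segment ℝ (P u) (P v))
    (h2 : ∀ x y : V, M.Adj x y → x ≠ u → x ≠ v → y ≠ u → y ≠ v →
      ∀ z : Pt, z ∈ segment ℝ (P u) (P v) → z ∉ segment ℝ (P x) (P y)) :
    M.Adj u v := by
  let M' : SimpleGraph V := M ⊔ SimpleGraph.fromEdgeSet {s(u, v)}
  have hadj : ∀ x y : V, M'.Adj x y → M.Adj x y ∨ (x = u ∧ y = v) ∨ (x = v ∧ y = u) := by
    intro x y h
    rcases h with h | h
    · exact Or.inl h
    · right
      rw [SimpleGraph.fromEdgeSet_adj] at h
      have h3 := h.1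
      rw [Set.mem_singleton_iff, Sym2.eq_iff] at h3
      exact h3
  have hPl : Plane P M' := by
    constructor
    · intro x y w hxy hwx hwy
      rcases hadj x y hxy with h | ⟨rfl, rfl⟩ | ⟨rfl, rfl⟩
      · exact hM.1.1 x y w h hwx hwy
      · exact h1 w hwx hwy
      · rw [segment_symm]
        exact h1 w hwy hwx
    · intro x y s t hxy hst hxs hxt hys hyt z hz hz'
      rcases hadj x y hxy with h | ⟨rfl, rfl⟩ | ⟨rfl, rfl⟩
      · rcases hadj s t hst with h' | ⟨rfl, rfl⟩ | ⟨rfl, rfl⟩
        · exact hM.1.2 x y s t h h' hxs hxt hys hyt z hz hz'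
        · exact h2 x y h hxs hxt hys hyt z hz' hz
        · rw [segment_symm] at hz'
          exact h2 x y h hxt hxs hyt hys z hz' hz
      · rcases hadj s t hst with h' | ⟨h3, h4⟩ | ⟨h3, h4⟩
        · exact h2 s t h' hxs.symm hys.symm hxt.symm hyt.symm z hz hz'
        · exact hxs h3.symm
        · exact hxt h4.symm
      · rcases hadj s t hst with h' | ⟨h3, h4⟩ | ⟨h3, h4⟩
        · rw [segment_symm] at hz
          exact h2 s t h' hys.symm hxs.symm hyt.symm hxt.symm z hz hz'
        · exact hxt h4.symm
        · exact hxs h3.symm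
  have hle := hM.2 M' le_sup_left hPl
  apply hle
  right
  rw [SimpleGraph.fromEdgeSet_adj]
  exact ⟨rfl, huv⟩

/-- LEMMA E. -/
theorem lemE {V : Type} {P : V → Pt} {M : SimpleGraph V} (hM : Plane P M) {r a b : V}
    (ha : M.Adj r a) (hb : M.Adj r b) (hab : a ≠ b) {x : Pt}
    (hxa : x ∈ segment ℝ (P r) (P a)) (hxb : x ∈ segment ℝ (P r) (P b)) : x = P r := by
  obtain ⟨m, m0, m1, mx, my⟩ := seg_mem _ _ _ hxa
  obtain ⟨k, k0, k1, kx, ky⟩ := seg_mem _ _ _ hxb
  rcases m0.eq_or_lt with h | hm
  · apply Prod.ext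
    · rw [mx, ← h]; ring
    · rw [my, ← h]; ring
  rcases k0.eq_or_lt with h | hk
  · apply Prod.ext
    · rw [kx, ← h]; ring
    · rw [ky, ← h]; ring
  exfalso
  have e1 : m * ((P a).1 - (P r).1) = k * ((P b).1 - (P r).1) := by linarith
  have e2 : m * ((P a).2 - (P r).2) = k * ((P b).2 - (P r).2) := by linarith
  rcases le_total m k with h | h
  · -- b is on [r, a]
    refine hM.1 r a b ha hb.ne' hab.symm ?_
    refine mem_seg_of _ _ _ (m / k) (by positivity) (by rw [div_le_one hk]; exact h) ?_ ?_
    · have : m / k * ((P a).1 - (P r).1) = (P b).1 - (P r).1 := by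
        rw [div_mul_eq_mul_div, e1]; field_simp
      rw [this]; ring
    · have : m / k * ((P a).2 - (P r).2) = (P b).2 - (P r).2 := by
        rw [div_mul_eq_mul_div, e2]; field_simp
      rw [this]; ring
  · refine hM.1 r b a hb ha.ne' hab ?_
    refine mem_seg_of _ _ _ (k / m) (by positivity) (by rw [div_le_one hm]; exact h) ?_ ?_
    · have : k / m * ((P b).1 - (P r).1) = (P a).1 - (P r).1 := by
        rw [div_mul_eq_mul_div, ← e1]; field_simp
      rw [this]; ring
    · have : k / m * ((P b).2 - (P r).2) = (P a).2 - (P r).2 := by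
        rw [div_mul_eq_mul_div, ← e2]; field_simp
      rw [this]; ring

/-- A point with first coordinate 0 on the side of the triangle. -/
theorem on_vb (v a b z : Pt) (hD : 0 < cr v a b) (hs : cr v z b = 0) (ht : 0 ≤ cr v a z)
    (hle : cr v a z ≤ cr v a b) : z ∈ segment ℝ v b := by
  have e1 : cr v a b * (z.1 - v.1) = cr v z b * (a.1 - v.1) + cr v a z * (b.1 - v.1) := by
    unfold cr; ring
  have e2 : cr v a b * (z.2 - v.2) = cr v z b * (a.2 - v.2) + cr v a z * (b.2 - v.2) := by
    unfold cr; ring
  rw [hs] at e1 e2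
  refine mem_seg_of _ _ _ (cr v a z / cr v a b) (by positivity)
    (by rw [div_le_one hD]; exact hle) ?_ ?_
  · have : cr v a z / cr v a b * (b.1 - v.1) = z.1 - v.1 := by
      rw [div_mul_eq_mul_div, div_eq_iff hD.ne']; linarith
    rw [this]; ring
  · have : cr v a z / cr v a b * (b.2 - v.2) = z.2 - v.2 := by
      rw [div_mul_eq_mul_div, div_eq_iff hD.ne']; linarith
    rw [this]; ring

theorem on_va (v a b z : Pt) (hD : 0 < cr v a b) (ht : cr v a z = 0) (hs : 0 ≤ cr v z b)
    (hle : cr v z b ≤ cr v a b) : z ∈ segment ℝ v a := by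
  have e1 : cr v a b * (z.1 - v.1) = cr v z b * (a.1 - v.1) + cr v a z * (b.1 - v.1) := by
    unfold cr; ring
  have e2 : cr v a b * (z.2 - v.2) = cr v z b * (a.2 - v.2) + cr v a z * (b.2 - v.2) := by
    unfold cr; ring
  rw [ht] at e1 e2
  refine mem_seg_of _ _ _ (cr v z b / cr v a b) (by positivity)
    (by rw [div_le_one hD]; exact hle) ?_ ?_
  · have : cr v z b / cr v a b * (a.1 - v.1) = z.1 - v.1 := by
      rw [div_mul_eq_mul_div, div_eq_iff hD.ne']; linarith
    rw [this]; ring
  · have : cr v z b / cr v a b * (a.2 - v.2) = z.2 - v.2 := by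
      rw [div_mul_eq_mul_div, div_eq_iff hD.ne']; linarith
    rw [this]; ring

/-- EXIT LEMMA. -/
theorem exit_lemma (v a b x g : Pt) (hD : 0 < cr v a b) (hS : 0 < cr v x b)
    (hT : 0 < cr v a x) (hx : cr v x b + cr v a x ≤ cr v a b)
    (hh : cr v g b + cr v a g ≤ cr v x b + cr v a x)
    (hg : ¬ (0 < cr v g b ∧ 0 < cr v a g)) :
    ∃ z : Pt, z ∈ segment ℝ x g ∧ cr v z b + cr v a z ≤ cr v x b + cr v a x ∧
      (z ∈ segment ℝ v a ∨ z ∈ segment ℝ v b) := by
  -- exit through s = 0
  have caseS : cr v g b ≤ 0 → cr v a x * cr v g b ≤ cr v x b * cr v a g →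
      ∃ z : Pt, z ∈ segment ℝ x g ∧ cr v z b + cr v a z ≤ cr v x b + cr v a x ∧
        (z ∈ segment ℝ v a ∨ z ∈ segment ℝ v b) := by
    intro h1 h2
    have hpos : 0 < cr v x b - cr v g b := by linarith
    set m := cr v x b / (cr v x b - cr v g b) with hm
    have m0 : 0 ≤ m := by positivity
    have m1 : m ≤ 1 := by rw [hm, div_le_one hpos]; linarith
    have hmm : m * (cr v x b - cr v g b) = cr v x b := by
      rw [hm]; field_simp
    let z : Pt := (x.1 + m * (g.1 - x.1), x.2 + m * (g.2 - x.2))
    have hz1 := cr_mid v b x g z m rfl rfl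
    have hz2 := cr_last v a x g z m rfl rfl
    have hzs : cr v z b = 0 := by rw [hz1]; linarith
    have hzt : 0 ≤ cr v a z := by
      have h3 : 0 ≤ (cr v x b - cr v g b) * cr v a z := by
        rw [hz2]
        have : (cr v x b - cr v g b) * ((1 - m) * cr v a x + m * cr v a g) =
            (cr v x b - cr v g b) * cr v a x - (m * (cr v x b - cr v g b)) * cr v a x +
              (m * (cr v x b - cr v g b)) * cr v a g := by ring
        rw [this, hmm]
        nlinarith
      exact nonneg_of_mul_nonneg_right h3 hpos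
    have hzh : cr v z b + cr v a z ≤ cr v x b + cr v a x := by
      rw [hz1, hz2]; nlinarith
    refine ⟨z, mem_seg_of _ _ _ m m0 m1 rfl rfl, hzh, Or.inr ?_⟩
    exact on_vb v a b z hD hzs hzt (by linarith)
  have caseT : cr v a g ≤ 0 → cr v x b * cr v a g ≤ cr v a x * cr v g b →
      ∃ z : Pt, z ∈ segment ℝ x g ∧ cr v z b + cr v a z ≤ cr v x b + cr v a x ∧
        (z ∈ segment ℝ v a ∨ z ∈ segment ℝ v b) := by
    intro h1 h2
    have hpos : 0 < cr v a x - cr v a g := by linarith
    set m := cr v a x / (cr v a x - cr v a g) with hm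
    have m0 : 0 ≤ m := by positivity
    have m1 : m ≤ 1 := by rw [hm, div_le_one hpos]; linarith
    have hmm : m * (cr v a x - cr v a g) = cr v a x := by
      rw [hm]; field_simp
    let z : Pt := (x.1 + m * (g.1 - x.1), x.2 + m * (g.2 - x.2))
    have hz1 := cr_mid v b x g z m rfl rfl
    have hz2 := cr_last v a x g z m rfl rfl
    have hzt : cr v a z = 0 := by rw [hz2]; linarith
    have hzs : 0 ≤ cr v z b := by
      have h3 : 0 ≤ (cr v a x - cr v a g) * cr v z b := by
        rw [hz1]
        have : (cr v a x - cr v a g) * ((1 - m) * cr v x b + m * cr v g b) =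
            (cr v a x - cr v a g) * cr v x b - (m * (cr v a x - cr v a g)) * cr v x b +
              (m * (cr v a x - cr v a g)) * cr v g b := by ring
        rw [this, hmm]
        nlinarith
      exact nonneg_of_mul_nonneg_right h3 hpos
    have hzh : cr v z b + cr v a z ≤ cr v x b + cr v a x := by
      rw [hz1, hz2]; nlinarith
    refine ⟨z, mem_seg_of _ _ _ m m0 m1 rfl rfl, hzh, Or.inl ?_⟩
    exact on_va v a b z hD hzt hzs (by linarith)
  by_cases hs : cr v g b ≤ 0
  · rcases le_total (cr v a x * cr v g b) (cr v x b * cr v a g) with h | h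
    · exact caseS hs h
    · refine caseT ?_ h
      by_contra hc
      push Not at hc
      have h1 : 0 < cr v x b * cr v a g := mul_pos hS hc
      have h2 : cr v a x * cr v g b ≤ 0 := mul_nonpos_of_nonneg_of_nonpos hT.le hs
      linarith
  · push Not at hs
    have ht : cr v a g ≤ 0 := by
      by_contra hc
      push Not at hc
      exact hg ⟨hs, hc⟩
    refine caseT ht ?_
    have h1 : cr v x b * cr v a g ≤ 0 := mul_nonpos_of_nonneg_of_nonpos hS.le ht
    have h2 : 0 < cr v a x * cr v g b := mul_pos hT hs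
    linarith

/-- An edge which enters the open triangle must leave through a vertex end in the sector. -/
theorem kill {V : Type} {P : V → Pt} {M : SimpleGraph V} (hM : Plane P M) {v a b : V}
    (hva : M.Adj v a) (hvb : M.Adj v b) (hD : 0 < cr (P v) (P a) (P b))
    {g g' : V} (he : M.Adj g g') (hgv : g ≠ v) (hgv' : g' ≠ v) {x : Pt}
    (hx : x ∈ segment ℝ (P g) (P g')) (hS : 0 < cr (P v) x (P b)) (hT : 0 < cr (P v) (P a) x)
    (hH : cr (P v) x (P b) + cr (P v) (P a) x ≤ cr (P v) (P a) (P b))
    (hle : cr (P v) (P g) (P b) + cr (P v) (P a) (P g) ≤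
      cr (P v) x (P b) + cr (P v) (P a) x)
    (hg : ¬ (0 < cr (P v) (P g) (P b) ∧ 0 < cr (P v) (P a) (P g)))
    (hcase : (g ≠ a ∧ g ≠ b ∧ g' ≠ a ∧ g' ≠ b) ∨
      cr (P v) x (P b) + cr (P v) (P a) x < cr (P v) (P a) (P b)) : False := by
  obtain ⟨z, hz, hzh, hzz⟩ := exit_lemma _ _ _ x (P g) hD hS hT hH hle hg
  have hze : z ∈ segment ℝ (P g) (P g') :=
    (convex_segment (𝕜 := ℝ) (P g) (P g')).segment_subset hx (left_mem_segment ℝ _ _) hz
  -- a common argument for the two sides
  have side : ∀ c : V, M.Adj v c → z ∈ segment ℝ (P v) (P c) →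
      cr (P v) (P c) (P b) + cr (P v) (P a) (P c) = cr (P v) (P a) (P b) →
      ((g ≠ c ∧ g' ≠ c) ∨
        cr (P v) x (P b) + cr (P v) (P a) x < cr (P v) (P a) (P b)) → False := by
    intro c hc hzc hHc hcs
    by_cases h1 : g = c
    · have hlt : cr (P v) x (P b) + cr (P v) (P a) x < cr (P v) (P a) (P b) := by
        rcases hcs with h | h
        · exact absurd h1 h.1
        · exact h
      have hz2 := lemE hM (r := c) (a := v) (b := g') hc.symm (h1 ▸ he) hgv'.symm
        (by rw [segment_symm]; exact hzc) (by rw [← h1]; exact hze)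
      rw [hz2] at hzh
      linarith
    · by_cases h2 : g' = c
      · have hlt : cr (P v) x (P b) + cr (P v) (P a) x < cr (P v) (P a) (P b) := by
          rcases hcs with h | h
          · exact absurd h2 h.2
          · exact h
        have hz2 := lemE hM (r := c) (a := v) (b := g) hc.symm (h2 ▸ he.symm) hgv.symm
          (by rw [segment_symm]; exact hzc) (by rw [← h2, segment_symm]; exact hze)
        rw [hz2] at hzh
        linarith
      · exact hM.2 g g' v c he hc hgv h1 hgv' h2 z hze hzc
  rcases hzz with h | h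
  · refine side a hva h ?_ ?_
    · rw [cr_eq_right]; ring
    · rcases hcase with h' | h'
      · exact Or.inl ⟨h'.1, h'.2.2.1⟩
      · exact Or.inr h'
  · refine side b hvb h ?_ ?_
    · rw [cr_eq_right]; ring
    · rcases hcase with h' | h'
      · exact Or.inl ⟨h'.2.1, h'.2.2.2⟩
      · exact Or.inr h'

/-- (C1): the closed triangle contains no further vertex. -/
theorem empty_tri {V : Type} [Finite V] {P : V → Pt} {M : SimpleGraph V}
    (hP : Function.Injective P) (hM : MaxPlane P M) {v a b : V} (hva : M.Adj v a)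
    (hvb : M.Adj v b) (hD : 0 < cr (P v) (P a) (P b))
    (hno : ∀ g : V, M.Adj v g →
      ¬ (0 < cr (P v) (P a) (P g) ∧ 0 < cr (P v) (P g) (P b))) :
    ∀ w : V, w ≠ v → w ≠ a → w ≠ b → ¬ InTri (P v) (P a) (P b) (P w) := by
  intro w0 hw0v hw0a hw0b hw0
  let Q : Set V := {w : V | w ≠ v ∧ w ≠ a ∧ w ≠ b ∧ InTri (P v) (P a) (P b) (P w)}
  have hQ : Q.Nonempty := ⟨w0, hw0v, hw0a, hw0b, hw0⟩
  obtain ⟨p, hpQ, hpmin⟩ := Set.exists_min_image Q
    (fun w => cr (P v) (P w) (P b) + cr (P v) (P a) (P w)) (Set.toFinite Q) hQ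
  obtain ⟨hpv, hpa, hpb, hp1, hp2, hp3⟩ := hpQ
  have hp3' : 0 ≤ cr (P v) (P p) (P b) := by
    rw [← cr_cyc, ← cr_cyc]
    exact hp3
  rw [cr_opp (P v)] at hp2
  have hpT : 0 < cr (P v) (P a) (P p) := by
    rcases hp1.eq_or_lt with h | h
    · exact absurd (on_va _ _ _ _ hD h.symm hp3' (by linarith)) (hM.1.1 v a p hva hpv hpa)
    · exact h
  have hpS : 0 < cr (P v) (P p) (P b) := by
    rcases hp3'.eq_or_lt with h | h
    · exact absurd (on_vb _ _ _ _ hD h.symm hp1 (by linarith)) (hM.1.1 v b p hvb hpv hpb)
    · exact h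
  -- membership in Q from positive coordinates
  have hmemQ : ∀ g : V, g ≠ v → 0 < cr (P v) (P g) (P b) → 0 < cr (P v) (P a) (P g) →
      cr (P v) (P g) (P b) + cr (P v) (P a) (P g) ≤ cr (P v) (P a) (P b) → g ∈ Q := by
    intro g hgv hgS hgT hgH
    refine ⟨hgv, ?_, ?_, hgT.le, ?_, ?_⟩
    · rintro rfl
      rw [cr_eq_right] at hgT
      exact lt_irrefl _ hgT
    · rintro rfl
      rw [cr_eq_right] at hgS
      exact lt_irrefl _ hgS
    · rw [cr_opp (P v)]; linarith
    · rw [← cr_cyc, ← cr_cyc] at hgS
      exact hgS.le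
  have hadj : M.Adj v p := by
    refine add_edge hM hpv.symm ?_ ?_
    · intro w hwv hwp hw
      obtain ⟨m, m0, m1, mx, my⟩ := seg_mem _ _ _ hw
      have e1 := cr_mid (P v) (P b) (P v) (P p) (P w) m mx my
      have e2 := cr_last (P v) (P a) (P v) (P p) (P w) m mx my
      rw [cr_self_mid] at e1
      rw [cr_self_last] at e2
      have hm : 0 < m := by
        rcases m0.eq_or_lt with h | h
        · exfalso
          apply hwv
          apply hP
          apply Prod.ext
          · rw [mx, ← h]; ring
          · rw [my, ← h]; ring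
        · exact h
      have hwS : 0 < cr (P v) (P w) (P b) := by
        rw [e1]; have := mul_pos hm hpS; linarith
      have hwT : 0 < cr (P v) (P a) (P w) := by
        rw [e2]; have := mul_pos hm hpT; linarith
      have hwH : cr (P v) (P w) (P b) + cr (P v) (P a) (P w) ≤
          cr (P v) (P p) (P b) + cr (P v) (P a) (P p) := by
        rw [e1, e2]; nlinarith
      have hwQ := hmemQ w hwv hwS hwT (by linarith)
      have hmin := hpmin w hwQ
      have hm1 : m = 1 := by
        by_contra hne
        have hlt : m < 1 := lt_of_le_of_ne m1 hne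
        rw [e1, e2] at hmin
        nlinarith
      apply hwp
      apply hP
      apply Prod.ext
      · rw [mx, hm1]; ring
      · rw [my, hm1]; ring
    · intro g g' he hgv hgp hgv' hgp' x hx hxe
      obtain ⟨m, m0, m1, mx, my⟩ := seg_mem _ _ _ hx
      have e1 := cr_mid (P v) (P b) (P v) (P p) x m mx my
      have e2 := cr_last (P v) (P a) (P v) (P p) x m mx my
      rw [cr_self_mid] at e1
      rw [cr_self_last] at e2
      have hm : 0 < m := by
        rcases m0.eq_or_lt with h | h
        · exfalso
          have : x = P v := by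
            apply Prod.ext
            · rw [mx, ← h]; ring
            · rw [my, ← h]; ring
          rw [this] at hxe
          exact hM.1.1 g g' v he hgv.symm hgv'.symm hxe
        · exact h
      have hm1 : m < 1 := by
        rcases m1.eq_or_lt with h | h
        · exfalso
          have : x = P p := by
            apply Prod.ext
            · rw [mx, h]; ring
            · rw [my, h]; ring
          rw [this] at hxe
          exact hM.1.1 g g' p he hgp.symm hgp'.symm hxe
        · exact h
      have hxS : 0 < cr (P v) x (P b) := by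
        rw [e1]; have := mul_pos hm hpS; linarith
      have hxT : 0 < cr (P v) (P a) x := by
        rw [e2]; have := mul_pos hm hpT; linarith
      have hxH : cr (P v) x (P b) + cr (P v) (P a) x <
          cr (P v) (P p) (P b) + cr (P v) (P a) (P p) := by
        rw [e1, e2]; nlinarith
      -- one end has small h
      have one : ∀ c c' : V, M.Adj c c' → c ≠ v → c' ≠ v → x ∈ segment ℝ (P c) (P c') →
          cr (P v) (P c) (P b) + cr (P v) (P a) (P c) ≤ cr (P v) x (P b) + cr (P v) (P a) x →
          False := by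
        intro c c' hcc hcv hcv' hxc hcH
        by_cases hpos : 0 < cr (P v) (P c) (P b) ∧ 0 < cr (P v) (P a) (P c)
        · have hcQ := hmemQ c hcv hpos.1 hpos.2 (by linarith)
          have hmin := hpmin c hcQ
          linarith
        · exact kill hM.1 hva hvb hD hcc hcv hcv' hxc hxS hxT (by linarith) hcH hpos
            (Or.inr (by linarith))
      obtain ⟨k, k0, k1, kx, ky⟩ := seg_mem _ _ _ hxe
      have f1 := cr_mid (P v) (P b) (P g) (P g') x k kx ky
      have f2 := cr_last (P v) (P a) (P g) (P g') x k kx ky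
      rcases le_total (cr (P v) (P g) (P b) + cr (P v) (P a) (P g))
        (cr (P v) (P g') (P b) + cr (P v) (P a) (P g')) with h | h
      · refine one g g' he hgv hgv' hxe ?_
        rw [f1, f2]; nlinarith
      · refine one g' g he.symm hgv' hgv (by rw [segment_symm]; exact hxe) ?_
        rw [f1, f2]; nlinarith
  exact hno p hadj ⟨hpT, hpS⟩

/-- Row C. -/
theorem stC_44 : StC := by
  intro V _ P M hP hM v a b hva hvb hD hno
  have hC1 := empty_tri hP hM hva hvb hD hno
  have hab : a ≠ b := by
    rintro rfl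
    rw [cr_eq_right] at hD
    exact lt_irrefl _ hD
  have hadj : M.Adj a b := by
    refine add_edge hM hab ?_ ?_
    · intro w hwa hwb hw
      obtain ⟨m, m0, m1, mx, my⟩ := seg_mem _ _ _ hw
      have e1 := cr_mid (P v) (P b) (P a) (P b) (P w) m mx my
      have e2 := cr_last (P v) (P a) (P a) (P b) (P w) m mx my
      rw [cr_eq_right] at e1 e2
      have hwv : w ≠ v := by
        rintro rfl
        have h3 : cr (P w) (P w) (P b) = 0 := cr_self_mid _ _
        have h4 : cr (P w) (P a) (P w) = 0 := cr_self_last _ _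
        rw [h3] at e1
        rw [h4] at e2
        nlinarith
      refine hC1 w hwv hwa hwb ⟨?_, ?_, ?_⟩
      · rw [e2]; have := mul_nonneg m0 hD.le; linarith
      · rw [cr_opp (P v), e1, e2]
        apply le_of_eq
        ring
      · have h5 : 0 ≤ cr (P v) (P w) (P b) := by
          rw [e1]
          have := mul_nonneg (sub_nonneg.mpr m1) hD.le
          linarith
        rw [← cr_cyc, ← cr_cyc] at h5
        exact h5
    · intro g g' he hga hgb hga' hgb' x hx hxe
      obtain ⟨m, m0, m1, mx, my⟩ := seg_mem _ _ _ hx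
      have e1 := cr_mid (P v) (P b) (P a) (P b) x m mx my
      have e2 := cr_last (P v) (P a) (P a) (P b) x m mx my
      rw [cr_eq_right] at e1 e2
      have hm : 0 < m := by
        rcases m0.eq_or_lt with h | h
        · exfalso
          have : x = P a := by
            apply Prod.ext
            · rw [mx, ← h]; ring
            · rw [my, ← h]; ring
          rw [this] at hxe
          exact hM.1.1 g g' a he hga.symm hga'.symm hxe
        · exact h
      have hm1 : m < 1 := by
        rcases m1.eq_or_lt with h | h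
        · exfalso
          have : x = P b := by
            apply Prod.ext
            · rw [mx, h]; ring
            · rw [my, h]; ring
          rw [this] at hxe
          exact hM.1.1 g g' b he hgb.symm hgb'.symm hxe
        · exact h
      have hxS : 0 < cr (P v) x (P b) := by
        rw [e1]; have := mul_pos (sub_pos.mpr hm1) hD; linarith
      have hxT : 0 < cr (P v) (P a) x := by
        rw [e2]; have := mul_pos hm hD; linarith
      have hxH : cr (P v) x (P b) + cr (P v) (P a) x = cr (P v) (P a) (P b) := by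
        rw [e1, e2]; ring
      -- v is not an end
      have noend : ∀ c : V, M.Adj v c → x ∈ segment ℝ (P v) (P c) → False := by
        intro c hc hxc
        obtain ⟨k, k0, k1, kx, ky⟩ := seg_mem _ _ _ hxc
        have f1 := cr_mid (P v) (P b) (P v) (P c) x k kx ky
        have f2 := cr_last (P v) (P a) (P v) (P c) x k kx ky
        rw [cr_self_mid] at f1
        rw [cr_self_last] at f2
        have g1 : 0 < k * cr (P v) (P c) (P b) := by linarith
        have g2 : 0 < k * cr (P v) (P a) (P c) := by linarith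
        exact hno c hc ⟨pos_of_mul_pos_right g2 k0, pos_of_mul_pos_right g1 k0⟩
      have hgv : g ≠ v := by
        rintro rfl
        exact noend g' he hxe
      have hgv' : g' ≠ v := by
        rintro rfl
        exact noend g he.symm (by rw [segment_symm]; exact hxe)
      have one : ∀ c c' : V, M.Adj c c' → c ≠ v → c' ≠ v → c ≠ a → c ≠ b → c' ≠ a → c' ≠ b →
          x ∈ segment ℝ (P c) (P c') →
          cr (P v) (P c) (P b) + cr (P v) (P a) (P c) ≤ cr (P v) x (P b) + cr (P v) (P a) x →
          False := by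
        intro c c' hcc hcv hcv' hca hcb hca' hcb' hxc hcH
        by_cases hpos : 0 < cr (P v) (P c) (P b) ∧ 0 < cr (P v) (P a) (P c)
        · refine hC1 c hcv hca hcb ⟨hpos.2.le, ?_, ?_⟩
          · rw [cr_opp (P v)]; linarith
          · have h3 := hpos.1
            rw [← cr_cyc, ← cr_cyc] at h3
            exact h3.le
        · exact kill hM.1 hva hvb hD hcc hcv hcv' hxc hxS hxT hxH.le hcH hpos
            (Or.inl ⟨hca, hcb, hca', hcb'⟩)
      obtain ⟨k, k0, k1, kx, ky⟩ := seg_mem _ _ _ hxe
      have f1 := cr_mid (P v) (P b) (P g) (P g') x k kx ky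
      have f2 := cr_last (P v) (P a) (P g) (P g') x k kx ky
      rcases le_total (cr (P v) (P g) (P b) + cr (P v) (P a) (P g))
        (cr (P v) (P g') (P b) + cr (P v) (P a) (P g')) with h | h
      · refine one g g' he hgv hgv' hga hgb hga' hgb' hxe ?_
        rw [f1, f2]; nlinarith
      · refine one g' g he.symm hgv' hgv hga' hgb' hga hgb
          (by rw [segment_symm]; exact hxe) ?_
        rw [f1, f2]; nlinarith
  exact ⟨hva, hadj, hvb.symm, hD, hC1⟩

end Pool.Agent.IP25.C_44
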