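import Mathlib

set_option autoImplicit false

/-! The icosahedron, its Cartesian powers, and geometric layered drawings. -/

namespace Pool.Agent.IP25

/-- The 30 edges of the icosahedron: 0 top, 1 to 5 upper ring, 6 to 10 lower ring, 11 bottom. -/
def icoL : List (Fin 12 × Fin 12) :=
  [(0, 1), (0, 2), (0, 3), (0, 4), (0, 5), (1, 2), (2, 3), (3, 4), (4, 5), (5, 1),
   (1, 6), (2, 7), (3, 8), (4, 9), (5, 10), (2, 6), (3, 7), (4, 8), (5, 9), (1, 10),
   (6, 7), (7, 8), (8, 9), (9, 10), (10, 6), (11, 6), (11, 7), (11, 8), (11, 9), (11, 10)]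

/-- The icosahedron graph. -/
def ico : SimpleGraph (Fin 12) := SimpleGraph.fromRel (fun a b => (a, b) ∈ icoL)

/-- The Cartesian product of t copies of G: adjacent vertices differ in exactly one coordinate,
and there they are adjacent in G. -/
def cartPow (G : SimpleGraph (Fin 12)) (t : ℕ) : SimpleGraph (Fin t → Fin 12) where
  Adj u v := ∃ i : Fin t, G.Adj (u i) (v i) ∧ ∀ j : Fin t, j ≠ i → u j = v j
  symm := ⟨fun _ _ ⟨i, h, h'⟩ => ⟨i, h.symm, fun j hj => (h' j hj).symm⟩⟩
  loopless := ⟨fun _ ⟨i, h, _⟩ => h.ne rfl⟩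

/-- A geometric k-layered drawing of H: distinct points, straight edges through no further
vertex, and edges of the same colour meet at most in a common endpoint. -/
structure LayeredDrawing {V : Type} (H : SimpleGraph V) (k : ℕ) (P : V → ℝ × ℝ)
    (c : Sym2 V → Fin k) : Prop where
  inj : Function.Injective P
  thru : ∀ u v w : V, H.Adj u v → w ≠ u → w ≠ v → P w ∉ segment ℝ (P u) (P v)
  cross : ∀ u v x y : V, H.Adj u v → H.Adj x y → s(u, v) ≠ s(x, y) → c s(u, v) = c s(x, y) →
    ∀ z : ℝ × ℝ, z ∈ segment ℝ (P u) (P v) → z ∈ segment ℝ (P x) (P y) →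
      ∃ w : V, (w = u ∨ w = v) ∧ (w = x ∨ w = y) ∧ z = P w

end Pool.Agent.IP25
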