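import Mathlib
import Pool.Agent.Lib.MP_234ff2_co.IP.Defs
import Pool.Agent.Lib.MP_234ff2_co.IP.Ico

set_option autoImplicit false

/-! The layers of a drawing and the rows of the graph part. -/

namespace Pool.Agent.IP25

/-- The edges of colour l. -/
def layer {V : Type} (H : SimpleGraph V) {k : ℕ} (c : Sym2 V → Fin k) (l : Fin k) :
    SimpleGraph V where
  Adj u v := H.Adj u v ∧ c s(u, v) = l
  symm := ⟨fun u v ⟨h, h'⟩ => ⟨h.symm, by rw [Sym2.eq_swap]; exact h'⟩⟩
  loopless := ⟨fun _ ⟨h, _⟩ => h.ne rfl⟩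

/-- Row I: if at v at least two directions occur in the plane graph H, then v has at least as
many uncovered darts as directions. -/
def StI : Prop :=
  ∀ (t : ℕ) (P : (Fin t → Fin 12) → Pt) (H : SimpleGraph (Fin t → Fin 12)),
    Function.Injective P → Plane P H → H ≤ cartPow ico t → ∀ v : Fin t → Fin 12,
    2 ≤ Nat.card {i : Fin t // ∃ w, H.Adj v w ∧ v i ≠ w i} →
    Nat.card {i : Fin t // ∃ w, H.Adj v w ∧ v i ≠ w i} ≤
      Nat.card {w : Fin t → Fin 12 // H.Adj v w ∧ ¬ Cov P H v w}

/-- Row II: on a line of direction i (12 vertices) the number of vertices having an H-edge of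
direction i is at most 4 times the number of uncovered darts of direction i. -/
def StII : Prop :=
  ∀ (t : ℕ) (P : (Fin t → Fin 12) → Pt) (H : SimpleGraph (Fin t → Fin 12)),
    Function.Injective P → Plane P H → H ≤ cartPow ico t → ∀ (v : Fin t → Fin 12) (i : Fin t),
    Nat.card {x : Fin 12 // ∃ w, H.Adj (Function.update v i x) w ∧ x ≠ w i} ≤
      4 * ∑ x : Fin 12, Nat.card {w : Fin t → Fin 12 // H.Adj (Function.update v i x) w ∧
        x ≠ w i ∧ ¬ Cov P H (Function.update v i x) w}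

/-- The final statement. -/
def StFin : Prop :=
  ∀ (t k : ℕ), 1 ≤ t → (∃ (P : (Fin t → Fin 12) → ℝ × ℝ) (c : Sym2 (Fin t → Fin 12) → Fin k),
    LayeredDrawing (cartPow ico t) k P c) →
    41 * t < 48 * k ∧ (k < t → 11 * t + 1 < 13 * k) ∧ (t ≤ 7 → t ≤ k)

end Pool.Agent.IP25
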