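import Mathlib
import Pool.Agent.Lib.MP_234ff2_co.IP.Defs2

set_option autoImplicit false

/-! The final sum over the layers. -/

namespace Pool.Agent.IP25

open Classical

theorem card_pair {V : Type} [Fintype V] (p : V → V → Prop) :
    Nat.card {d : V × V // p d.1 d.2} = ∑ v, ∑ w, if p v w then 1 else 0 := by
  rw [Nat.card_eq_fintype_card, Fintype.card_subtype, Finset.card_filter, Fintype.sum_prod_type]

theorem card_one {V : Type} [Fintype V] (p : V → Prop) :
    Nat.card {w : V // p w} = ∑ w, if p w then 1 else 0 := by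
  rw [Nat.card_eq_fintype_card, Fintype.card_subtype, Finset.card_filter]

theorem ico_deg (a : Fin 12) : ∑ x : Fin 12, (if ico.Adj a x then 1 else 0) = 5 := by
  have h : ∀ a b : Fin 12, ico.Adj a b ↔ (a ≠ b ∧ ((a, b) ∈ icoL ∨ (b, a) ∈ icoL)) := by
    intro a b
    exact SimpleGraph.fromRel_adj _ _ _
  have h2 : ∀ a : Fin 12, (Finset.univ.filter
      (fun x : Fin 12 => a ≠ x ∧ ((a, x) ∈ icoL ∨ (x, a) ∈ icoL))).card = 5 := by decide
  rw [← Finset.card_filter, ← h2 a]
  congr 1
  apply Finset.filter_congr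
  intro x _
  rw [h]

theorem ico_nb (a : Fin 12) : ∃ x : Fin 12, ico.Adj a x := by
  by_contra hcon
  push Not at hcon
  have h := ico_deg a
  rw [Finset.sum_eq_zero (fun x _ => if_neg (hcon x))] at h
  omega

theorem upd_adj {t : ℕ} (v : Fin t → Fin 12) (i : Fin t) (x : Fin 12) (h : ico.Adj (v i) x) :
    (cartPow ico t).Adj v (Function.update v i x) := by
  refine ⟨i, ?_, ?_⟩
  · rw [Function.update_self]; exact h
  · intro j hj
    rw [Function.update_of_ne hj]

/-- Every vertex has at least 5 t neighbours. -/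
theorem deg_ge {t : ℕ} (v : Fin t → Fin 12) :
    5 * t ≤ ∑ w, (if (cartPow ico t).Adj v w then 1 else 0) := by
  rw [← Finset.card_filter]
  have h1 : ((Finset.univ : Finset (Fin t × Fin 12)).filter
      (fun q => ico.Adj (v q.1) q.2)).card = 5 * t := by
    rw [Finset.card_filter, Fintype.sum_prod_type]
    simp only [ico_deg]
    simp; ring
  rw [← h1]
  apply Finset.card_le_card_of_injOn (fun q => Function.update v q.1 q.2)
  · intro q hq
    simp only [Finset.coe_filter, Finset.mem_univ, true_and, Set.mem_ofPred_eq] at hq ⊢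
    exact upd_adj v q.1 q.2 hq
  · rintro ⟨i, x⟩ hq ⟨j, y⟩ hq' h
    simp only [Finset.coe_filter, Finset.mem_univ, true_and, Set.mem_ofPred_eq] at hq hq' h
    by_cases hij : i = j
    · subst hij
      have := congrFun h i
      simp only [Function.update_self] at this
      rw [this]
    · exfalso
      have := congrFun h i
      rw [Function.update_self, Function.update_of_ne hij] at this
      exact hq.ne this.symm

theorem sum_upd {t : ℕ} (i : Fin t) (g : (Fin t → Fin 12) → ℕ) :
    ∑ v : Fin t → Fin 12, ∑ x : Fin 12, g (Function.update v i x) = 12 * ∑ v, g v := by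
  have h1 : ∑ v : Fin t → Fin 12, ∑ x : Fin 12, g (Function.update v i x)
      = ∑ q : (Fin t → Fin 12) × Fin 12, g (Function.update q.1 i q.2) := by
    rw [Fintype.sum_prod_type]
  have h2 : 12 * ∑ v, g v = ∑ q : (Fin t → Fin 12) × Fin 12, g q.1 := by
    rw [Fintype.sum_prod_type, Finset.mul_sum]
    refine Finset.sum_congr rfl (fun v _ => ?_)
    simp
  rw [h1, h2]
  let e : (Fin t → Fin 12) × Fin 12 ≃ (Fin t → Fin 12) × Fin 12 :=
    { toFun := fun q => (Function.update q.1 i q.2, q.1 i)
      invFun := fun q => (Function.update q.1 i q.2, q.1 i)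
      left_inv := by
        rintro ⟨v, x⟩
        simp
      right_inv := by
        rintro ⟨v, x⟩
        simp }
  exact Fintype.sum_equiv e _ _ (fun q => rfl)

theorem layer_plane {V : Type} {H : SimpleGraph V} {k : ℕ} {P : V → ℝ × ℝ} {c : Sym2 V → Fin k}
    (hD : LayeredDrawing H k P c) (l : Fin k) : Plane P (layer H c l) := by
  constructor
  · intro u v w h h1 h2
    exact hD.thru u v w h.1 h1 h2
  · intro u v x y h h' h1 h2 h3 h4 z hz hz'
    have hne : s(u, v) ≠ s(x, y) := by
      intro h5
      rcases Sym2.eq_iff.mp h5 with h6 | h6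
      · exact h1 h6.1
      · exact h2 h6.1
    obtain ⟨w, hw, hw', _⟩ := hD.cross u v x y h.1 h'.1 hne (h.2.trans h'.2.symm) z hz hz'
    rcases hw with rfl | rfl <;> rcases hw' with h5 | h5
    · exact h1 h5
    · exact h2 h5
    · exact h3 h5
    · exact h4 h5

theorem cov_adj {V : Type} {P : V → Pt} {H : SimpleGraph V} {a b : V} (h : Cov P H a b) :
    H.Adj a b := by
  obtain ⟨c, hc⟩ := h
  exact hc.1

/-- An uncovered dart. -/
def unc {V : Type} (P : V → Pt) (H : SimpleGraph V) (v w : V) : Prop :=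
  H.Adj v w ∧ ¬ Cov P H v w

/-- Direction i occurs at v. -/
def dirAt {t : ℕ} (H : SimpleGraph (Fin t → Fin 12)) (v : Fin t → Fin 12) (i : Fin t) : Prop :=
  ∃ w, H.Adj v w ∧ v i ≠ w i

/-- An uncovered dart of direction i. -/
def uncD {t : ℕ} (P : (Fin t → Fin 12) → Pt) (H : SimpleGraph (Fin t → Fin 12)) (i : Fin t)
    (v w : Fin t → Fin 12) : Prop :=
  H.Adj v w ∧ v i ≠ w i ∧ ¬ Cov P H v w

/-- Number of darts. -/
noncomputable def nD {V : Type} [Fintype V] (H : SimpleGraph V) : ℕ :=
  ∑ v, ∑ w, if H.Adj v w then 1 else 0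

/-- Number of uncovered darts at v. -/
noncomputable def nUv {V : Type} [Fintype V] (P : V → Pt) (H : SimpleGraph V) (v : V) : ℕ :=
  ∑ w, if unc P H v w then 1 else 0

/-- Number of uncovered darts. -/
noncomputable def nU {V : Type} [Fintype V] (P : V → Pt) (H : SimpleGraph V) : ℕ :=
  ∑ v, nUv P H v

/-- Number of directions at v. -/
noncomputable def nR {t : ℕ} (H : SimpleGraph (Fin t → Fin 12)) (v : Fin t → Fin 12) : ℕ :=
  ∑ i, if dirAt H v i then 1 else 0

theorem star_use (hStar : StStar) {V : Type} [Fintype V] (P : V → Pt) (H : SimpleGraph V)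
    (hP : Function.Injective P) (hH : Plane P H) (hn : 1 ≤ Fintype.card V) :
    2 * nD H + nU P H + 6 ≤ 12 * Fintype.card V := by
  have h1 := hStar V P H hP hH hn
  rw [card_pair (fun a b => H.Adj a b), card_pair (fun a b => Cov P H a b)] at h1
  have h2 : nD H = (∑ v, ∑ w, if Cov P H v w then 1 else 0) + nU P H := by
    unfold nD nU nUv
    rw [← Finset.sum_add_distrib]
    refine Finset.sum_congr rfl (fun v _ => ?_)
    rw [← Finset.sum_add_distrib]
    refine Finset.sum_congr rfl (fun w _ => ?_)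
    by_cases h3 : Cov P H v w
    · have h4 : ¬ unc P H v w := fun h => h.2 h3
      rw [if_pos (cov_adj h3), if_pos h3, if_neg h4]
    · by_cases h5 : H.Adj v w
      · have h4 : unc P H v w := ⟨h5, h3⟩
        rw [if_pos h5, if_neg h3, if_pos h4]
      · have h4 : ¬ unc P H v w := fun h => h5 h.1
        rw [if_neg h5, if_neg h3, if_neg h4]
  have h3 : 3 * nD H + 6 ≤ 12 * Fintype.card V + (∑ v, ∑ w, if Cov P H v w then 1 else 0) := h1
  omega

theorem I_use (hI : StI) {t : ℕ} (P : (Fin t → Fin 12) → Pt) (H : SimpleGraph (Fin t → Fin 12))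
    (hP : Function.Injective P) (hH : Plane P H) (hle : H ≤ cartPow ico t) (v : Fin t → Fin 12)
    (h2 : 2 ≤ nR H v) : nR H v ≤ nUv P H v := by
  have h := hI t P H hP hH hle v
  have e1 : Nat.card {i : Fin t // ∃ w, H.Adj v w ∧ v i ≠ w i} = nR H v :=
    card_one (fun i => dirAt H v i)
  have e2 : Nat.card {w : Fin t → Fin 12 // H.Adj v w ∧ ¬ Cov P H v w} = nUv P H v :=
    card_one (fun w => unc P H v w)
  rw [e1, e2] at h
  exact h h2

theorem II_use (hII : StII) {t : ℕ} (P : (Fin t → Fin 12) → Pt)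
    (H : SimpleGraph (Fin t → Fin 12)) (hP : Function.Injective P) (hH : Plane P H)
    (hle : H ≤ cartPow ico t) (i : Fin t) :
    ∑ v, (if dirAt H v i then 1 else 0) ≤ 4 * ∑ v, ∑ w, (if uncD P H i v w then 1 else 0) := by
  have h4 : 12 * ∑ v, (if dirAt H v i then 1 else 0) ≤
      4 * (12 * ∑ v, ∑ w, (if uncD P H i v w then 1 else 0)) := by
    rw [← sum_upd i (fun v => if dirAt H v i then 1 else 0),
      ← sum_upd i (fun v => ∑ w, (if uncD P H i v w then 1 else 0)), Finset.mul_sum]
    refine Finset.sum_le_sum (fun v _ => ?_)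
    have h5 := hII t P H hP hH hle v i
    have e1 : Nat.card {x : Fin 12 // ∃ w, H.Adj (Function.update v i x) w ∧ x ≠ w i} =
        ∑ x, if dirAt H (Function.update v i x) i then 1 else 0 := by
      rw [← card_one (fun x => dirAt H (Function.update v i x) i)]
      unfold dirAt
      simp only [Function.update_self]
    have e2 : ∀ x : Fin 12, Nat.card {w : Fin t → Fin 12 // H.Adj (Function.update v i x) w ∧
        x ≠ w i ∧ ¬ Cov P H (Function.update v i x) w} =
        ∑ w, if uncD P H i (Function.update v i x) w then 1 else 0 := by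
      intro x
      rw [← card_one (fun w => uncD P H i (Function.update v i x) w)]
      unfold uncD
      simp only [Function.update_self]
    rw [e1] at h5
    simp only [e2] at h5
    exact h5
  omega

theorem uncD_sum {t : ℕ} (P : (Fin t → Fin 12) → Pt) (H : SimpleGraph (Fin t → Fin 12))
    (hle : H ≤ cartPow ico t) :
    ∑ i, ∑ v, ∑ w, (if uncD P H i v w then 1 else 0) ≤ nU P H := by
  unfold nU nUv
  rw [Finset.sum_comm]
  refine Finset.sum_le_sum (fun v _ => ?_)
  rw [Finset.sum_comm]
  refine Finset.sum_le_sum (fun w _ => ?_)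
  by_cases h7 : unc P H v w
  · rw [if_pos h7]
    obtain ⟨i, _, hj⟩ := hle h7.1
    rw [Finset.sum_eq_single i]
    · split_ifs <;> omega
    · intro j _ hji
      rw [if_neg]
      intro h8
      exact h8.2.1 (hj j hji)
    · intro h8; exact absurd (Finset.mem_univ _) h8
  · rw [if_neg h7, Finset.sum_eq_zero]
    intro i _
    rw [if_neg]
    intro h8
    exact h7 ⟨h8.1, h8.2.2⟩

/-- Each vertex and each direction meets some layer. -/
theorem some_layer {t k : ℕ} (c : Sym2 (Fin t → Fin 12) → Fin k) (v : Fin t → Fin 12)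
    (i : Fin t) : 1 ≤ ∑ l, if dirAt (layer (cartPow ico t) c l) v i then 1 else 0 := by
  obtain ⟨x, hx⟩ := ico_nb (v i)
  have hadj := upd_adj v i x hx
  have h1 : dirAt (layer (cartPow ico t) c (c s(v, Function.update v i x))) v i :=
    ⟨_, ⟨hadj, rfl⟩, by rw [Function.update_self]; exact hx.ne⟩
  have h2 : (if dirAt (layer (cartPow ico t) c (c s(v, Function.update v i x))) v i
      then 1 else 0) = 1 := if_pos h1
  exact h2.symm.le.trans (Finset.single_le_sum
    (f := fun l => if dirAt (layer (cartPow ico t) c l) v i then 1 else 0)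
    (fun l _ => Nat.zero_le _) (Finset.mem_univ _))

theorem comb_I {k t : ℕ} (R U : Fin k → ℕ) (h1 : t ≤ ∑ l, R l)
    (h2 : ∀ l, 2 ≤ R l → R l ≤ U l) (hkt : k < t) : t + 1 ≤ (∑ l, U l) + k := by
  have h4 : ∃ l, 2 ≤ R l := by
    by_contra hcon
    push Not at hcon
    have : ∑ l, R l ≤ ∑ _l : Fin k, 1 :=
      Finset.sum_le_sum (fun l _ => by have := hcon l; omega)
    rw [Finset.sum_const, Finset.card_univ, Fintype.card_fin, smul_eq_mul, mul_one] at this
    omega
  obtain ⟨l0, hl0⟩ := h4
  have h5 : ∑ l, R l + 1 ≤ ∑ l, (U l + 1) := by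
    have h6 : ∑ l, R l = ∑ l ∈ Finset.univ.erase l0, R l + R l0 :=
      (Finset.sum_erase_add _ _ (Finset.mem_univ l0)).symm
    have h7 : ∑ l, (U l + 1) = ∑ l ∈ Finset.univ.erase l0, (U l + 1) + (U l0 + 1) :=
      (Finset.sum_erase_add _ _ (Finset.mem_univ l0)).symm
    have h8 : ∑ l ∈ Finset.univ.erase l0, R l ≤ ∑ l ∈ Finset.univ.erase l0, (U l + 1) := by
      refine Finset.sum_le_sum (fun l _ => ?_)
      by_cases h9 : 2 ≤ R l
      · have := h2 l h9; omega
      · omega
    have h10 := h2 l0 hl0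
    omega
  rw [Finset.sum_add_distrib, Finset.sum_const, Finset.card_univ, Fintype.card_fin,
    smul_eq_mul, mul_one] at h5
  omega

theorem vertex_I (hI : StI) {t k : ℕ} (P : (Fin t → Fin 12) → ℝ × ℝ)
    (c : Sym2 (Fin t → Fin 12) → Fin k) (hD : LayeredDrawing (cartPow ico t) k P c)
    (hkt : k < t) (v : Fin t → Fin 12) :
    t + 1 ≤ (∑ l, nUv P (layer (cartPow ico t) c l) v) + k := by
  refine comb_I (fun l => nR (layer (cartPow ico t) c l) v)
    (fun l => nUv P (layer (cartPow ico t) c l) v) ?_ ?_ hkt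
  · unfold nR
    rw [Finset.sum_comm]
    calc t = ∑ _i : Fin t, 1 := by simp
      _ ≤ _ := Finset.sum_le_sum (fun i _ => some_layer c v i)
  · exact fun l hl => I_use hI P _ hD.inj (layer_plane hD l) (fun u v h => h.1) v hl

theorem fin_25 (hStar : StStar) (hI : StI) (hII : StII) : StFin := by
  rintro t k ht ⟨P, c, hD⟩
  have hnpos : 1 ≤ Fintype.card (Fin t → Fin 12) := Fintype.card_pos
  have hk : 1 ≤ k := by
    have := (c s(fun _ => 0, fun _ => 0)).pos
    omega
  have hst : ∀ l, 2 * nD (layer (cartPow ico t) c l) + nU P (layer (cartPow ico t) c l) + 6 ≤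
      12 * Fintype.card (Fin t → Fin 12) :=
    fun l => star_use hStar P _ hD.inj (layer_plane hD l) hnpos
  have hDs : 5 * t * Fintype.card (Fin t → Fin 12) ≤ ∑ l, nD (layer (cartPow ico t) c l) := by
    have h1 : ∑ l, nD (layer (cartPow ico t) c l) =
        ∑ v, ∑ w, if (cartPow ico t).Adj v w then 1 else 0 := by
      unfold nD
      rw [Finset.sum_comm]
      refine Finset.sum_congr rfl (fun v _ => ?_)
      rw [Finset.sum_comm]
      refine Finset.sum_congr rfl (fun w _ => ?_)
      by_cases h : (cartPow ico t).Adj v w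
      · rw [if_pos h, Finset.sum_eq_single (c s(v, w))]
        · rw [if_pos]; exact ⟨h, rfl⟩
        · intro l _ hl
          rw [if_neg]; exact fun h' => hl h'.2.symm
        · intro h'; exact absurd (Finset.mem_univ _) h'
      · rw [if_neg h]
        exact Finset.sum_eq_zero (fun l _ => if_neg (fun h' => h h'.1))
    rw [h1]
    calc 5 * t * Fintype.card (Fin t → Fin 12) = ∑ _v : Fin t → Fin 12, 5 * t := by
          rw [Finset.sum_const, smul_eq_mul, Finset.card_univ]; ring
      _ ≤ _ := Finset.sum_le_sum (fun v _ => deg_ge v)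
  have hsum : 2 * ∑ l, nD (layer (cartPow ico t) c l) + ∑ l, nU P (layer (cartPow ico t) c l)
      + 6 * k ≤ 12 * k * Fintype.card (Fin t → Fin 12) := by
    have h1 : ∑ l, (2 * nD (layer (cartPow ico t) c l) + nU P (layer (cartPow ico t) c l) + 6) ≤
        ∑ _l : Fin k, 12 * Fintype.card (Fin t → Fin 12) :=
      Finset.sum_le_sum (fun l _ => hst l)
    rw [Finset.sum_add_distrib, Finset.sum_add_distrib, ← Finset.mul_sum, Finset.sum_const,
      Finset.sum_const, Finset.card_univ, Fintype.card_fin, smul_eq_mul, smul_eq_mul] at h1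
    nlinarith [h1]
  have hpI : k < t → (t + 1) * Fintype.card (Fin t → Fin 12) ≤
      ∑ l, nU P (layer (cartPow ico t) c l) + k * Fintype.card (Fin t → Fin 12) := by
    intro hkt
    have h1 : ∑ _v : Fin t → Fin 12, (t + 1) ≤ ∑ v : Fin t → Fin 12,
        ((∑ l, nUv P (layer (cartPow ico t) c l) v) + k) :=
      Finset.sum_le_sum (fun v _ => vertex_I hI P c hD hkt v)
    rw [Finset.sum_add_distrib (f := fun v => ∑ l, nUv P (layer (cartPow ico t) c l) v),
      Finset.sum_comm, Finset.sum_const, Finset.sum_const,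
      Finset.card_univ, smul_eq_mul, smul_eq_mul] at h1
    have h2 : ∑ l, nU P (layer (cartPow ico t) c l) =
        ∑ l, ∑ v, nUv P (layer (cartPow ico t) c l) v := rfl
    rw [h2]
    nlinarith [h1]
  have hpII : t * Fintype.card (Fin t → Fin 12) ≤ 4 * ∑ l, nU P (layer (cartPow ico t) c l) := by
    have h1 : t * Fintype.card (Fin t → Fin 12) ≤ ∑ l, ∑ i, ∑ v : Fin t → Fin 12,
        (if dirAt (layer (cartPow ico t) c l) v i then 1 else 0) := by
      rw [Finset.sum_comm]
      calc t * Fintype.card (Fin t → Fin 12) = ∑ _i : Fin t, ∑ _v : Fin t → Fin 12, 1 := by simp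
        _ ≤ _ := Finset.sum_le_sum (fun i _ => by
          rw [Finset.sum_comm]
          exact Finset.sum_le_sum (fun v _ => some_layer c v i))
    have h2 : ∀ l, ∑ i, ∑ v : Fin t → Fin 12,
        (if dirAt (layer (cartPow ico t) c l) v i then 1 else 0) ≤
        4 * nU P (layer (cartPow ico t) c l) := by
      intro l
      have hle : layer (cartPow ico t) c l ≤ cartPow ico t := fun u v h => h.1
      calc _ ≤ ∑ i, 4 * ∑ v, ∑ w, (if uncD P (layer (cartPow ico t) c l) i v w then 1 else 0) :=
            Finset.sum_le_sum (fun i _ => II_use hII P _ hD.inj (layer_plane hD l) hle i)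
        _ = 4 * ∑ i, ∑ v, ∑ w, (if uncD P (layer (cartPow ico t) c l) i v w then 1 else 0) := by
            rw [Finset.mul_sum]
        _ ≤ _ := Nat.mul_le_mul_left _ (uncD_sum P _ hle)
    calc _ ≤ _ := h1
      _ ≤ ∑ l, 4 * nU P (layer (cartPow ico t) c l) := Finset.sum_le_sum (fun l _ => h2 l)
      _ = _ := by rw [Finset.mul_sum]
  generalize ∑ l, nU P (layer (cartPow ico t) c l) = U at *
  generalize ∑ l, nD (layer (cartPow ico t) c l) = D at *
  generalize Fintype.card (Fin t → Fin 12) = n at *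
  have r1 : 41 * t < 48 * k := by
    have h1 : (41 * t) * n + 24 * k ≤ (48 * k) * n := by nlinarith [hsum, hDs, hpII]
    by_contra hcon
    push Not at hcon
    have := Nat.mul_le_mul_right n hcon
    omega
  have r2 : k < t → 11 * t + 1 < 13 * k := by
    intro hkt
    have h0 := hpI hkt
    have h1 : (11 * t + 1) * n + 6 * k ≤ (13 * k) * n := by nlinarith [hsum, hDs, h0]
    by_contra hcon
    push Not at hcon
    have := Nat.mul_le_mul_right n hcon
    omega
  refine ⟨r1, r2, ?_⟩
  intro h7
  by_contra hcon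
  push Not at hcon
  have h8 := r2 hcon
  interval_cases t <;> omega

end Pool.Agent.IP25
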