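import Pool.Agent.Lib.MP_234ff2_co.IP.Base25

set_option autoImplicit false

namespace Pool.Agent.IP25

/-- `z = p + m (q - p)`. -/
def Sg (p q z : Pt) (m : ℝ) : Prop :=
  z.1 = p.1 + m * (q.1 - p.1) ∧ z.2 = p.2 + m * (q.2 - p.2)

theorem Sg.mem {p q z : Pt} {m : ℝ} (h : Sg p q z m) (h0 : 0 ≤ m) (h1 : m ≤ 1) :
    z ∈ segment ℝ p q := mem_seg_of p q z m h0 h1 h.1 h.2

theorem exists_Sg {p q z : Pt} (h : z ∈ segment ℝ p q) : ∃ m, 0 ≤ m ∧ m ≤ 1 ∧ Sg p q z m := by
  obtain ⟨m, h0, h1, hx, hy⟩ := seg_mem p q z h
  exact ⟨m, h0, h1, hx, hy⟩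

/-- The point `p + m (q - p)`. -/
def at' (p q : Pt) (m : ℝ) : Pt := (p.1 + m * (q.1 - p.1), p.2 + m * (q.2 - p.2))

theorem at'_Sg (p q : Pt) (m : ℝ) : Sg p q (at' p q m) m := ⟨rfl, rfl⟩

theorem Sg.eq {p q z : Pt} {m : ℝ} (h : Sg p q z m) : z = at' p q m := Prod.ext h.1 h.2

theorem isClosed_seg (p q : Pt) : IsClosed (segment ℝ p q) := by
  rw [segment_eq_image]
  refine (isCompact_Icc.image ?_).isClosed
  fun_prop

/-- Adding an edge to a maximal plane graph. -/
theorem add_edge {V : Type} {P : V → Pt} {M : SimpleGraph V} (hM : MaxPlane P M) {u v : V}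
    (huv : u ≠ v) (hv : ∀ w, w ≠ u → w ≠ v → P w ∉ segment ℝ (P u) (P v))
    (he : ∀ x y, M.Adj x y → x ≠ u → x ≠ v → y ≠ u → y ≠ v →
      ∀ z, z ∈ segment ℝ (P u) (P v) → z ∉ segment ℝ (P x) (P y)) : M.Adj u v := by
  have hE : ∀ a b : V, (SimpleGraph.edge u v).Adj a b → (a = u ∧ b = v) ∨ (a = v ∧ b = u) :=
    fun a b h => ((SimpleGraph.edge_adj u v a b).mp h).1
  have hP' : Plane P (M ⊔ SimpleGraph.edge u v) := by
    refine ⟨?_, ?_⟩
    · intro a b w hab hwa hwb
      rcases hab with hab | hab
      · exact hM.1.1 a b w hab hwa hwb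
      · rcases hE a b hab with ⟨rfl, rfl⟩ | ⟨rfl, rfl⟩
        · exact hv w hwa hwb
        · rw [segment_symm]
          exact hv w hwb hwa
    · intro a b x y hab hxy hax hay hbx hby z hz
      rcases hab with hab | hab
      · rcases hxy with hxy | hxy
        · exact hM.1.2 a b x y hab hxy hax hay hbx hby z hz
        · rcases hE x y hxy with ⟨rfl, rfl⟩ | ⟨rfl, rfl⟩
          · intro hz'
            exact he a b hab hax hay hbx hby z hz' hz
          · intro hz'
            rw [segment_symm] at hz'
            exact he a b hab hay hax hby hbx z hz' hz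
      · rcases hxy with hxy | hxy
        · rcases hE a b hab with ⟨rfl, rfl⟩ | ⟨rfl, rfl⟩
          · exact he x y hxy (Ne.symm hax) (Ne.symm hbx) (Ne.symm hay) (Ne.symm hby) z hz
          · rw [segment_symm] at hz
            exact he x y hxy (Ne.symm hbx) (Ne.symm hax) (Ne.symm hby) (Ne.symm hay) z hz
        · rcases hE a b hab with ⟨rfl, rfl⟩ | ⟨rfl, rfl⟩ <;>
            rcases hE x y hxy with ⟨rfl, rfl⟩ | ⟨rfl, rfl⟩ <;> simp_all
  have h := hM.2 _ le_sup_left hP'
  refine h (Or.inr ?_)
  rw [SimpleGraph.edge_adj]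
  exact ⟨Or.inl ⟨rfl, rfl⟩, huv⟩

/-- Lemma E: two edges at `r` meet only in `r`. -/
theorem lemE {V : Type} {P : V → Pt} {M : SimpleGraph V} (hM : Plane P M) {r a b : V}
    (ha : M.Adj r a) (hb : M.Adj r b) (hab : a ≠ b) {z : Pt}
    (hza : z ∈ segment ℝ (P r) (P a)) (hzb : z ∈ segment ℝ (P r) (P b)) : z = P r := by
  obtain ⟨α, hα0, hα1, hα⟩ := exists_Sg hza
  obtain ⟨β, hβ0, hβ1, hβ⟩ := exists_Sg hzb
  by_contra hz
  have hα' : 0 < α := by
    rcases hα0.lt_or_eq with h | h
    · exact h
    · exfalso; apply hz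
      obtain ⟨h1, h2⟩ := hα
      rw [← h] at h1 h2
      exact Prod.ext (by linarith) (by linarith)
  have hβ' : 0 < β := by
    rcases hβ0.lt_or_eq with h | h
    · exact h
    · exfalso; apply hz
      obtain ⟨h1, h2⟩ := hβ
      rw [← h] at h1 h2
      exact Prod.ext (by linarith) (by linarith)
  obtain ⟨a1, a2⟩ := hα
  obtain ⟨b1, b2⟩ := hβ
  rcases le_total α β with hle | hle
  · -- `P b` lies on `[r, a]`
    refine hM.1 r a b ha hb.ne' (Ne.symm hab) ?_
    refine mem_seg_of _ _ _ (α / β) (by positivity) (by rw [div_le_one hβ']; exact hle) ?_ ?_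
    · field_simp; linarith
    · field_simp; linarith
  · refine hM.1 r b a hb ha.ne' hab ?_
    refine mem_seg_of _ _ _ (β / α) (by positivity) (by rw [div_le_one hα']; exact hle) ?_ ?_
    · field_simp; linarith
    · field_simp; linarith

/-- Coordinates in the basis `X - O`, `Q - O`. -/
theorem exists_coord (O X Q : Pt) (hD : cr O X Q ≠ 0) : ∃ s t : Pt → ℝ,
    (∀ z : Pt, z.1 = O.1 + s z * (X.1 - O.1) + t z * (Q.1 - O.1) ∧
      z.2 = O.2 + s z * (X.2 - O.2) + t z * (Q.2 - O.2)) ∧
    (∀ (p q z : Pt) (m : ℝ), Sg p q z m → s z = s p + m * (s q - s p) ∧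
      t z = t p + m * (t q - t p)) ∧
    s O = 0 ∧ t O = 0 ∧ s X = 1 ∧ t X = 0 ∧ s Q = 0 ∧ t Q = 1 := by
  refine ⟨fun z => cr O z Q / cr O X Q, fun z => cr O X z / cr O X Q, ?_, ?_, ?_, ?_, ?_, ?_, ?_, ?_⟩
  · intro z
    constructor
    · have : cr O X Q * (z.1 - O.1) = cr O z Q * (X.1 - O.1) + cr O X z * (Q.1 - O.1) := by
        unfold cr; ring
      field_simp
      linarith
    · have : cr O X Q * (z.2 - O.2) = cr O z Q * (X.2 - O.2) + cr O X z * (Q.2 - O.2) := by
        unfold cr; ring
      field_simp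
      linarith
  · rintro p q z m ⟨h1, h2⟩
    have e1 : cr O z Q = cr O p Q + m * (cr O q Q - cr O p Q) := by
      unfold cr; rw [h1, h2]; ring
    have e2 : cr O X z = cr O X p + m * (cr O X q - cr O X p) := by
      unfold cr; rw [h1, h2]; ring
    constructor
    · show cr O z Q / cr O X Q = cr O p Q / cr O X Q + m * (cr O q Q / cr O X Q - cr O p Q / cr O X Q)
      rw [e1]; ring
    · show cr O X z / cr O X Q = cr O X p / cr O X Q + m * (cr O X q / cr O X Q - cr O X p / cr O X Q)
      rw [e2]; ring
  · show cr O O Q / cr O X Q = 0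
    have : cr O O Q = 0 := by unfold cr; ring
    rw [this, zero_div]
  · show cr O X O / cr O X Q = 0
    have : cr O X O = 0 := by unfold cr; ring
    rw [this, zero_div]
  · exact div_self hD
  · show cr O X X / cr O X Q = 0
    have : cr O X X = 0 := by unfold cr; ring
    rw [this, zero_div]
  · show cr O Q Q / cr O X Q = 0
    have : cr O Q Q = 0 := by unfold cr; ring
    rw [this, zero_div]
  · exact div_self hD

/-- The first obstacle on the way from `v` to `p`. -/
theorem first_obstacle {V : Type} [Finite V] {P : V → Pt} {M : SimpleGraph V}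
    (hP : Function.Injective P) (hM : Plane P M) {v p : V} (hvp : p ≠ v) :
    ∃ m : ℝ, 0 < m ∧ m ≤ 1 ∧
      (∃ a b : V, a ≠ v ∧ b ≠ v ∧ (a = b ∨ M.Adj a b) ∧
        at' (P v) (P p) m ∈ segment ℝ (P a) (P b)) ∧
      ∀ m' : ℝ, 0 ≤ m' → m' < m → ∀ a b : V, a ≠ v → b ≠ v → (a = b ∨ M.Adj a b) →
        at' (P v) (P p) m' ∉ segment ℝ (P a) (P b) := by
  classical
  set S : Set ℝ := Set.Icc 0 1 ∩ ⋃ q : V × V, {m | (q.1 ≠ v ∧ q.2 ≠ v ∧ (q.1 = q.2 ∨ M.Adj q.1 q.2)) ∧
    at' (P v) (P p) m ∈ segment ℝ (P q.1) (P q.2)} with hS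
  have hcont : Continuous (at' (P v) (P p)) := by unfold at'; fun_prop
  have hcl : IsClosed (⋃ q : V × V, {m | (q.1 ≠ v ∧ q.2 ≠ v ∧ (q.1 = q.2 ∨ M.Adj q.1 q.2)) ∧
      at' (P v) (P p) m ∈ segment ℝ (P q.1) (P q.2)}) := by
    refine isClosed_iUnion_of_finite fun q => ?_
    by_cases hq : q.1 ≠ v ∧ q.2 ≠ v ∧ (q.1 = q.2 ∨ M.Adj q.1 q.2)
    · have : {m | (q.1 ≠ v ∧ q.2 ≠ v ∧ (q.1 = q.2 ∨ M.Adj q.1 q.2)) ∧
          at' (P v) (P p) m ∈ segment ℝ (P q.1) (P q.2)} =
          at' (P v) (P p) ⁻¹' segment ℝ (P q.1) (P q.2) := by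
        ext m
        exact ⟨fun h => h.2, fun h => ⟨hq, h⟩⟩
      rw [this]
      exact (isClosed_seg _ _).preimage hcont
    · have : {m | (q.1 ≠ v ∧ q.2 ≠ v ∧ (q.1 = q.2 ∨ M.Adj q.1 q.2)) ∧
          at' (P v) (P p) m ∈ segment ℝ (P q.1) (P q.2)} = ∅ := by
        ext m
        exact ⟨fun h => absurd h.1 hq, fun h => absurd h (Set.notMem_empty m)⟩
      rw [this]
      exact isClosed_empty
  have hcomp : IsCompact S := isCompact_Icc.inter_right hcl
  have hne : S.Nonempty := by
    refine ⟨1, ⟨zero_le_one, le_rfl⟩, Set.mem_iUnion.mpr ⟨(p, p), ⟨hvp, hvp, Or.inl rfl⟩, ?_⟩⟩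
    have : at' (P v) (P p) 1 = P p := by
      unfold at'; exact Prod.ext (by ring) (by ring)
    rw [this]
    exact left_mem_segment ℝ _ _
  obtain ⟨m, ⟨⟨hm0, hm1⟩, hmU⟩, hmin⟩ := hcomp.exists_isLeast hne
  obtain ⟨⟨a, b⟩, ⟨ha, hb, hab⟩, hmem⟩ := Set.mem_iUnion.mp hmU
  have hO : ∀ a b : V, a ≠ v → b ≠ v → (a = b ∨ M.Adj a b) → P v ∉ segment ℝ (P a) (P b) := by
    intro a b ha hb hab h
    rcases hab with rfl | hab
    · rw [segment_same, Set.mem_singleton_iff] at h
      exact ha (hP h.symm)
    · exact hM.1 a b v hab (Ne.symm ha) (Ne.symm hb) h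
  refine ⟨m, ?_, hm1, ⟨a, b, ha, hb, hab, hmem⟩, ?_⟩
  · rcases hm0.lt_or_eq with h | h
    · exact h
    · exfalso
      rw [← h] at hmem
      have : at' (P v) (P p) 0 = P v := by
        unfold at'; exact Prod.ext (by ring) (by ring)
      rw [this] at hmem
      exact hO a b ha hb hab hmem
  · intro m' h0 h1 a b ha hb hab hmem'
    have : m ≤ m' := hmin ⟨⟨h0, by linarith⟩, Set.mem_iUnion.mpr ⟨(a, b), ⟨ha, hb, hab⟩, hmem'⟩⟩
    linarith

/-- Two edges which share a point that is no end of the second one are equal. -/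
theorem share_edge {V : Type} {P : V → Pt} {M : SimpleGraph V} (hM : Plane P M) {g g' q q' : V}
    (hg : M.Adj g g') (hq : M.Adj q q') {z : Pt} (hz : z ∈ segment ℝ (P g) (P g'))
    (hz' : z ∈ segment ℝ (P q) (P q')) (h1 : z ≠ P q) (h2 : z ≠ P q') :
    (g = q ∧ g' = q') ∨ (g = q' ∧ g' = q) := by
  by_cases a1 : g = q
  · subst a1
    by_cases a2 : g' = q'
    · exact Or.inl ⟨rfl, a2⟩
    · exact absurd (lemE hM hg hq a2 hz hz') h1
  by_cases a2 : g = q'
  · subst a2
    by_cases a3 : g' = q
    · exact Or.inr ⟨rfl, a3⟩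
    · rw [segment_symm] at hz'
      exact absurd (lemE hM hg hq.symm a3 hz hz') h2
  by_cases a3 : g' = q
  · subst a3
    rw [segment_symm] at hz
    exact absurd (lemE hM hg.symm hq a2 hz hz') h1
  by_cases a4 : g' = q'
  · subst a4
    rw [segment_symm] at hz hz'
    exact absurd (lemE hM hg.symm hq.symm a1 hz hz') h2
  exact absurd hz' (hM.2 g g' q q' hg hq a1 a2 a3 a4 z hz)

/-- Where a segment leaves the triangle. -/
theorem exit_arith (T0 T1 H0 H1 : ℝ) (hT0 : 0 < T0) (hH0 : H0 < 1) (h : T1 < 0 ∨ 1 < H1) :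
    ∃ ν : ℝ, 0 < ν ∧ ν ≤ 1 ∧ ((T0 + ν * (T1 - T0) = 0 ∧ H0 + ν * (H1 - H0) ≤ 1) ∨
      (H0 + ν * (H1 - H0) = 1 ∧ 0 ≤ T0 + ν * (T1 - T0))) := by
  by_cases hT : T1 < 0
  · have hd : 0 < T0 - T1 := by linarith
    by_cases hk : H0 + T0 / (T0 - T1) * (H1 - H0) ≤ 1
    · refine ⟨T0 / (T0 - T1), by positivity, by rw [div_le_one hd]; linarith, Or.inl ⟨?_, hk⟩⟩
      field_simp
      ring
    · push Not at hk
      have hpos : 0 < T0 / (T0 - T1) := by positivity
      have hHd : 0 < H1 - H0 := by
        by_contra hcon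
        push Not at hcon
        nlinarith
      have hlt : (1 - H0) / (H1 - H0) < T0 / (T0 - T1) := by
        rw [div_lt_iff₀ hHd]
        linarith
      have hle : T0 / (T0 - T1) ≤ 1 := by rw [div_le_one hd]; linarith
      refine ⟨(1 - H0) / (H1 - H0), div_pos (by linarith) hHd, by linarith, Or.inr ⟨?_, ?_⟩⟩
      · field_simp
        ring
      · have h1 : (1 - H0) / (H1 - H0) * (T0 - T1) < T0 := by
          rw [lt_div_iff₀ hd] at hlt
          exact hlt
        nlinarith
  · push Not at hT
    have hH1 : 1 < H1 := by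
      rcases h with h | h
      · linarith
      · exact h
    have hHd : 0 < H1 - H0 := by linarith
    have hν0 : 0 < (1 - H0) / (H1 - H0) := div_pos (by linarith) hHd
    have hν1 : (1 - H0) / (H1 - H0) ≤ 1 := by rw [div_le_one hHd]; linarith
    refine ⟨(1 - H0) / (H1 - H0), hν0, hν1, Or.inr ⟨?_, ?_⟩⟩
    · field_simp
      ring
    · nlinarith

theorem conv_neg (a1 a2 β τ : ℝ) (h : τ = (1 - β) * a1 + β * a2) (hβ0 : 0 < β) (hβ1 : β < 1)
    (h1 : a1 < 0) (h2 : a2 < 0) (hτ : 0 < τ) : False := by
  have e1 : (1 - β) * a1 < 0 := mul_neg_of_pos_of_neg (by linarith) h1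
  have e2 : β * a2 < 0 := mul_neg_of_pos_of_neg hβ0 h2
  linarith

theorem conv_big (a1 a2 β τ : ℝ) (h : τ = (1 - β) * a1 + β * a2) (hβ0 : 0 < β) (hβ1 : β < 1)
    (h1 : 1 < a1) (h2 : 1 < a2) (hτ : τ < 1) : False := by
  have e1 : (1 - β) * 1 < (1 - β) * a1 := mul_lt_mul_of_pos_left h1 (by linarith)
  have e2 : β * 1 < β * a2 := mul_lt_mul_of_pos_left h2 hβ0
  linarith

theorem pos_of_det (Sp Tp S T : ℝ) (hS : 0 ≤ Sp) (hTp : 0 < Tp) (hT : 0 ≤ T)
    (h : Sp * T - Tp * S < 0) : 0 < S := by
  have h1 : 0 ≤ Sp * T := mul_nonneg hS hT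
  have h2 : 0 < Tp * S := by linarith
  by_contra h3
  push Not at h3
  have h4 : Tp * S ≤ 0 := mul_nonpos_of_nonneg_of_nonpos hTp.le h3
  linarith

/-- (H) -/
theorem stH_32 : StH := by
  intro V _ P M hP hM v w p hp
  have hPl := hM.1
  have hpv : p ≠ v := by
    rintro rfl
    have : cr (P p) (P w) (P p) = 0 := by unfold cr; ring
    linarith
  obtain ⟨m0, hm0, hm1, ⟨q1, q2, hq1v, hq2v, hq12, hmem⟩, hmin⟩ := first_obstacle hP hPl hpv
  obtain ⟨X, hXdef⟩ : ∃ X, X = at' (P v) (P p) m0 := ⟨_, rfl⟩
  rw [← hXdef] at hmem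
  have hXs : Sg (P v) (P p) X m0 := by rw [hXdef]; exact at'_Sg _ _ _
  have hfree : ∀ (z : Pt) (σ : ℝ), 0 ≤ σ → σ < 1 → Sg (P v) X z σ → ∀ a b : V, a ≠ v → b ≠ v →
      (a = b ∨ M.Adj a b) → z ∉ segment ℝ (P a) (P b) := by
    intro z σ h0 h1 hz a b ha hb hab
    have : z = at' (P v) (P p) (σ * m0) := by
      refine Prod.ext ?_ ?_
      · show z.1 = (P v).1 + σ * m0 * ((P p).1 - (P v).1)
        rw [hz.1, hXs.1]; ring
      · show z.2 = (P v).2 + σ * m0 * ((P p).2 - (P v).2)
        rw [hz.2, hXs.2]; ring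
    rw [this]
    exact hmin _ (by positivity) (by nlinarith) a b ha hb hab
  have hLX : 0 < cr (P v) (P w) X := by
    have : cr (P v) (P w) X = m0 * cr (P v) (P w) (P p) := by
      unfold cr; rw [hXs.1, hXs.2]; ring
    rw [this]; positivity
  by_cases hv : ∃ q, q ≠ v ∧ P q = X
  · obtain ⟨q, hqv, hqX⟩ := hv
    refine ⟨q, add_edge hM (Ne.symm hqv) ?_ ?_, by rw [hqX]; exact hLX⟩
    · intro u huv huq hu
      rw [hqX] at hu
      obtain ⟨σ, h0, h1, hs⟩ := exists_Sg hu
      rcases h1.lt_or_eq with h | h
      · exact hfree _ σ h0 h hs u u huv huv (Or.inl rfl) (left_mem_segment ℝ _ _)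
      · apply huq
        apply hP
        rw [hqX, hs.eq, h]
        unfold at'
        exact Prod.ext (by ring) (by ring)
    · intro x y hxy hxv hxq hyv hyq z hz hz'
      rw [hqX] at hz
      obtain ⟨σ, h0, h1, hs⟩ := exists_Sg hz
      rcases h1.lt_or_eq with h | h
      · exact hfree z σ h0 h hs x y hxv hyv (Or.inr hxy) hz'
      · have hzX : z = X := by
          rw [hs.eq, h]
          unfold at'
          exact Prod.ext (by ring) (by ring)
        rw [hzX, ← hqX] at hz'
        exact hPl.1 x y q hxy (Ne.symm hxq) (Ne.symm hyq) hz'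
  · push Not at hv
    have hadj : M.Adj q1 q2 := by
      rcases hq12 with rfl | h
      · exfalso
        rw [segment_same, Set.mem_singleton_iff] at hmem
        exact hv q1 hq1v hmem.symm
      · exact h
    obtain ⟨q, q', hqv, hq'v, hqq', hmemq, hLq⟩ : ∃ q q' : V, q ≠ v ∧ q' ≠ v ∧ M.Adj q q' ∧
        X ∈ segment ℝ (P q) (P q') ∧ 0 < cr (P v) (P w) (P q) := by
      by_cases h : 0 < cr (P v) (P w) (P q1)
      · exact ⟨q1, q2, hq1v, hq2v, hadj, hmem, h⟩
      · refine ⟨q2, q1, hq2v, hq1v, hadj.symm, by rw [segment_symm]; exact hmem, ?_⟩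
        obtain ⟨μ, h0, h1, hs⟩ := exists_Sg hmem
        have e : cr (P v) (P w) X = (1 - μ) * cr (P v) (P w) (P q1) +
            μ * cr (P v) (P w) (P q2) := by
          unfold cr; rw [hs.1, hs.2]; ring
        by_contra h'
        push Not at h h'
        nlinarith
    obtain ⟨μ, hμ0, hμ1, hμ⟩ := exists_Sg hmemq
    have hμ0' : 0 < μ := by
      rcases hμ0.lt_or_eq with h | h
      · exact h
      · exfalso
        apply hv q hqv
        rw [hμ.eq, ← h]
        unfold at'
        exact Prod.ext (by ring) (by ring)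
    have hμ1' : μ < 1 := by
      rcases hμ1.lt_or_eq with h | h
      · exact h
      · exfalso
        apply hv q' hq'v
        rw [hμ.eq, h]
        unfold at'
        exact Prod.ext (by ring) (by ring)
    -- the point `X` and the vertex `q` are independent
    have hD : cr (P v) X (P q) ≠ 0 := by
      intro h0
      obtain ⟨lam, hlamd⟩ : ∃ lam, lam = cr (P v) (P w) (P q) / cr (P v) (P w) X := ⟨_, rfl⟩
      have hlam : 0 < lam := by rw [hlamd]; positivity
      have hmul : lam * cr (P v) (P w) X = cr (P v) (P w) (P q) := by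
        rw [hlamd]; field_simp
      have e1 : cr (P v) (P w) (P q) * (X.1 - (P v).1) - cr (P v) (P w) X * ((P q).1 - (P v).1) =
          ((P w).1 - (P v).1) * cr (P v) X (P q) := by unfold cr; ring
      have e2 : cr (P v) (P w) (P q) * (X.2 - (P v).2) - cr (P v) (P w) X * ((P q).2 - (P v).2) =
          ((P w).2 - (P v).2) * cr (P v) X (P q) := by unfold cr; ring
      rw [h0, mul_zero] at e1 e2
      have hSq : Sg (P v) X (P q) lam := by
        constructor
        · have : cr (P v) (P w) X * ((P q).1 - ((P v).1 + lam * (X.1 - (P v).1))) = 0 := by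
            rw [← hmul] at e1; linarith
          rcases mul_eq_zero.mp this with h | h
          · exact absurd h hLX.ne'
          · linarith
        · have : cr (P v) (P w) X * ((P q).2 - ((P v).2 + lam * (X.2 - (P v).2))) = 0 := by
            rw [← hmul] at e2; linarith
          rcases mul_eq_zero.mp this with h | h
          · exact absurd h hLX.ne'
          · linarith
      rcases lt_trichotomy lam 1 with hlt | heq | hgt
      · exact hfree _ lam hlam.le hlt hSq q q hqv hqv (Or.inl rfl) (left_mem_segment ℝ _ _)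
      · apply hv q hqv
        rw [hSq.eq, heq]
        unfold at'
        exact Prod.ext (by ring) (by ring)
      · obtain ⟨lam', hlamd'⟩ : ∃ lam', lam' = (1 - (1 - μ) * lam) / μ := ⟨_, rfl⟩
        have hmul' : μ * lam' = 1 - (1 - μ) * lam := by rw [hlamd']; field_simp
        have hlt' : lam' < 1 := by
          have : μ * lam' < μ * 1 := by nlinarith
          exact lt_of_mul_lt_mul_left this hμ0'.le
        have hSq' : Sg (P v) X (P q') lam' := by
          constructor
          · have h1 := hμ.1
            rw [hSq.1] at h1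
            have : μ * ((P q').1 - ((P v).1 + lam' * (X.1 - (P v).1))) = 0 := by
              have h2 : μ * lam' * (X.1 - (P v).1) = (1 - (1 - μ) * lam) * (X.1 - (P v).1) := by
                rw [hmul']
              linarith
            rcases mul_eq_zero.mp this with h | h
            · exact absurd h hμ0'.ne'
            · linarith
          · have h1 := hμ.2
            rw [hSq.2] at h1
            have : μ * ((P q').2 - ((P v).2 + lam' * (X.2 - (P v).2))) = 0 := by
              have h2 : μ * lam' * (X.2 - (P v).2) = (1 - (1 - μ) * lam) * (X.2 - (P v).2) := by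
                rw [hmul']
              linarith
            rcases mul_eq_zero.mp this with h | h
            · exact absurd h hμ0'.ne'
            · linarith
        by_cases hl0 : 0 ≤ lam'
        · exact hfree _ lam' hl0 hlt' hSq' q' q' hq'v hq'v (Or.inl rfl) (left_mem_segment ℝ _ _)
        · push Not at hl0
          have hd : 0 < lam - lam' := by linarith
          refine hPl.1 q q' v hqq' (Ne.symm hqv) (Ne.symm hq'v) ?_
          refine mem_seg_of _ _ _ (lam / (lam - lam')) (by positivity)
            (by rw [div_le_one hd]; linarith) ?_ ?_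
          · rw [hSq.1, hSq'.1]
            field_simp
            ring
          · rw [hSq.2, hSq'.2]
            field_simp
            ring
    obtain ⟨s, t, hrep, haff, hsO, htO, hsX, htX, hsQ, htQ⟩ := exists_coord (P v) X (P q) hD
    have hL : ∀ z, cr (P v) (P w) z = s z * cr (P v) (P w) X + t z * cr (P v) (P w) (P q) := by
      intro z
      obtain ⟨h1, h2⟩ := hrep z
      unfold cr
      linear_combination ((P w).1 - (P v).1) * h2 - ((P w).2 - (P v).2) * h1
    obtain ⟨A, hA⟩ : ∃ A : Set V, A = {u | u ≠ v ∧ 0 ≤ s (P u) ∧ 0 ≤ t (P u) ∧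
        s (P u) + t (P u) ≤ 1} := ⟨_, rfl⟩
    have hAt : ∀ u ∈ A, 0 < t (P u) := by
      intro u hu
      rw [hA] at hu
      obtain ⟨huv, hs0, ht0, h1⟩ := hu
      rcases ht0.lt_or_eq with h | h
      · exact h
      · exfalso
        obtain ⟨e1, e2⟩ := hrep (P u)
        have hSg : Sg (P v) X (P u) (s (P u)) := by
          constructor
          · rw [← h] at e1; linarith
          · rw [← h] at e2; linarith
        have hs1 : s (P u) ≤ 1 := by linarith
        rcases hs1.lt_or_eq with h' | h'
        · exact hfree (P u) _ hs0 h' hSg u u huv huv (Or.inl rfl) (left_mem_segment ℝ _ _)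
        · apply hv u huv
          rw [hSg.eq, h']
          unfold at'
          exact Prod.ext (by ring) (by ring)
    have hqA : q ∈ A := by
      rw [hA]
      exact ⟨hqv, by rw [hsQ], by rw [htQ]; exact zero_le_one, by rw [hsQ, htQ]; norm_num⟩
    obtain ⟨p1, hp1A, hp1max⟩ := Set.exists_max_image A (fun u => s (P u) / t (P u))
      (Set.toFinite A) ⟨q, hqA⟩
    obtain ⟨p', ⟨hp'A, hp'r⟩, hp'min⟩ := Set.exists_min_image
      {u | u ∈ A ∧ s (P u) / t (P u) = s (P p1) / t (P p1)} (fun u => t (P u))
      (Set.toFinite _) ⟨p1, hp1A, rfl⟩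
    have hTp : 0 < t (P p') := hAt p' hp'A
    have hp'A' := hp'A
    rw [hA] at hp'A'
    obtain ⟨hp'v, hSp0, -, hHp⟩ := hp'A'
    have hmax : ∀ u ∈ A, s (P u) * t (P p') ≤ s (P p') * t (P u) := by
      intro u hu
      have h1 : s (P u) / t (P u) ≤ s (P p1) / t (P p1) := hp1max u hu
      rw [← hp'r, div_le_div_iff₀ (hAt u hu) hTp] at h1
      exact h1
    have hmin' : ∀ u ∈ A, s (P u) * t (P p') = s (P p') * t (P u) → t (P p') ≤ t (P u) := by
      intro u hu h
      refine hp'min u ⟨hu, ?_⟩
      rw [← hp'r, div_eq_div_iff (hAt u hu).ne' hTp.ne']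
      exact h
    -- no vertex on `[v, p']`
    have nov : ∀ u : V, u ≠ v → u ≠ p' → ∀ τ : ℝ, 0 ≤ τ → τ ≤ 1 → ¬ Sg (P v) (P p') (P u) τ := by
      intro u huv hup' τ h0 h1 hs
      rcases h0.lt_or_eq with h0 | h0
      swap
      · apply huv
        apply hP
        rw [hs.eq, ← h0]
        unfold at'
        exact Prod.ext (by ring) (by ring)
      rcases h1.lt_or_eq with h1 | h1
      swap
      · apply hup'
        apply hP
        rw [hs.eq, h1]
        unfold at'
        exact Prod.ext (by ring) (by ring)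
      obtain ⟨es, et⟩ := haff _ _ _ _ hs
      rw [hsO] at es
      rw [htO] at et
      have es' : s (P u) = τ * s (P p') := by linarith
      have et' : t (P u) = τ * t (P p') := by linarith
      have huA : u ∈ A := by
        rw [hA]
        refine ⟨huv, by rw [es']; positivity, by rw [et']; positivity, ?_⟩
        rw [es', et']
        nlinarith
      have h2 := hmin' u huA (by rw [es', et']; ring)
      rw [et'] at h2
      nlinarith
    refine ⟨p', add_edge hM (Ne.symm hp'v) ?_ ?_, ?_⟩
    · intro u huv hup' hu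
      obtain ⟨τ, h0, h1, hs⟩ := exists_Sg hu
      exact nov u huv hup' τ h0 h1 hs
    · intro g1 g2 hg hg1v hg1p hg2v hg2p x hx hx'
      obtain ⟨τ, hτ0, hτ1, hτ⟩ := exists_Sg hx
      have hτ0' : 0 < τ := by
        rcases hτ0.lt_or_eq with h | h
        · exact h
        · exfalso
          have hxv : x = P v := by
            rw [hτ.eq, ← h]
            unfold at'
            exact Prod.ext (by ring) (by ring)
          rw [hxv] at hx'
          exact hPl.1 g1 g2 v hg (Ne.symm hg1v) (Ne.symm hg2v) hx'
      have hτ1' : τ < 1 := by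
        rcases hτ1.lt_or_eq with h | h
        · exact h
        · exfalso
          have hxp : x = P p' := by
            rw [hτ.eq, h]
            unfold at'
            exact Prod.ext (by ring) (by ring)
          rw [hxp] at hx'
          exact hPl.1 g1 g2 p' hg (Ne.symm hg1p) (Ne.symm hg2p) hx'
      obtain ⟨exs, ext⟩ := haff _ _ _ _ hτ
      rw [hsO] at exs
      rw [htO] at ext
      have exs' : s x = τ * s (P p') := by linarith
      have ext' : t x = τ * t (P p') := by linarith
      -- an end on the side of `X`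
      obtain ⟨g, g', hgg', hgv, hg'v, hxg, hdg⟩ : ∃ g g' : V, M.Adj g g' ∧ g ≠ v ∧ g' ≠ v ∧
          x ∈ segment ℝ (P g) (P g') ∧ s (P p') * t (P g) - t (P p') * s (P g) < 0 := by
        by_contra hcon
        push Not at hcon
        have hd1 := hcon g1 g2 hg hg1v hg2v hx'
        have hd2 := hcon g2 g1 hg.symm hg2v hg1v (by rw [segment_symm]; exact hx')
        obtain ⟨β, hβ0, hβ1, hβ⟩ := exists_Sg hx'
        have hβ0' : 0 < β := by
          rcases hβ0.lt_or_eq with h | h
          · exact h
          · exfalso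
            refine nov g1 hg1v hg1p τ hτ0 hτ1 ?_
            have hxg1 : x = P g1 := by
              rw [hβ.eq, ← h]
              unfold at'
              exact Prod.ext (by ring) (by ring)
            rw [← hxg1]
            exact hτ
        have hβ1' : β < 1 := by
          rcases hβ1.lt_or_eq with h | h
          · exact h
          · exfalso
            refine nov g2 hg2v hg2p τ hτ0 hτ1 ?_
            have hxg2 : x = P g2 := by
              rw [hβ.eq, h]
              unfold at'
              exact Prod.ext (by ring) (by ring)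
            rw [← hxg2]
            exact hτ
        obtain ⟨fs, ft⟩ := haff _ _ _ _ hβ
        -- both ends are on the line
        have hsum : (1 - β) * (s (P p') * t (P g1) - t (P p') * s (P g1)) +
            β * (s (P p') * t (P g2) - t (P p') * s (P g2)) = 0 := by
          have : s (P p') * t x - t (P p') * s x = 0 := by rw [exs', ext']; ring
          rw [fs, ft] at this
          linarith
        have hz1 : s (P p') * t (P g1) - t (P p') * s (P g1) = 0 := by
          have h1 : 0 ≤ (1 - β) * (s (P p') * t (P g1) - t (P p') * s (P g1)) :=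
            mul_nonneg (by linarith) hd1
          have h2 : 0 ≤ β * (s (P p') * t (P g2) - t (P p') * s (P g2)) := mul_nonneg hβ0 hd2
          have h3 : (1 - β) * (s (P p') * t (P g1) - t (P p') * s (P g1)) = 0 := by linarith
          rcases mul_eq_zero.mp h3 with h | h
          · linarith
          · exact h
        have hz2 : s (P p') * t (P g2) - t (P p') * s (P g2) = 0 := by
          rw [hz1, mul_zero, zero_add] at hsum
          rcases mul_eq_zero.mp hsum with h | h
          · linarith
          · exact h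
        -- positions on the line
        have hline : ∀ u : V, s (P p') * t (P u) - t (P p') * s (P u) = 0 →
            Sg (P v) (P p') (P u) (t (P u) / t (P p')) := by
          intro u hu
          obtain ⟨u1, u2⟩ := hrep (P u)
          obtain ⟨p1, p2⟩ := hrep (P p')
          constructor
          · rw [u1, p1]
            field_simp
            linear_combination (-(X.1 - (P v).1)) * hu
          · rw [u2, p2]
            field_simp
            linear_combination (-(X.2 - (P v).2)) * hu
        have l1 := hline g1 hz1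
        have l2 := hline g2 hz2
        obtain ⟨a1, ha1⟩ : ∃ a1, a1 = t (P g1) / t (P p') := ⟨_, rfl⟩
        obtain ⟨a2, ha2⟩ : ∃ a2, a2 = t (P g2) / t (P p') := ⟨_, rfl⟩
        rw [← ha1] at l1
        rw [← ha2] at l2
        have hτeq : τ = (1 - β) * a1 + β * a2 := by
          have h1 : τ * t (P p') = t (P g1) + β * (t (P g2) - t (P g1)) := by rw [← ext', ft]
          have h2 : τ = (t (P g1) + β * (t (P g2) - t (P g1))) / t (P p') := by
            rw [← h1]; field_simp
          rw [h2, ha1, ha2]
          field_simp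
          ring
        have n1 : ¬ (0 ≤ a1 ∧ a1 ≤ 1) := fun h => nov g1 hg1v hg1p a1 h.1 h.2 l1
        have n2 : ¬ (0 ≤ a2 ∧ a2 ≤ 1) := fun h => nov g2 hg2v hg2p a2 h.1 h.2 l2
        have key : ∀ (g g' : V) (a a' : ℝ), M.Adj g g' → g ≠ v → g' ≠ v →
            Sg (P v) (P p') (P g) a → Sg (P v) (P p') (P g') a' → a < 0 → 0 < a' → False := by
          intro g g' a a' hgg' hgv hg'v ha ha' h0 h1
          have hd : 0 < a' - a := by linarith
          refine hPl.1 g g' v hgg' (Ne.symm hgv) (Ne.symm hg'v) ?_
          refine mem_seg_of _ _ _ (-a / (a' - a)) (div_nonneg (by linarith) hd.le)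
            (by rw [div_le_one hd]; linarith) ?_ ?_
          · rw [ha.1, ha'.1]
            field_simp
            ring
          · rw [ha.2, ha'.2]
            field_simp
            ring
        rcases lt_or_ge a1 0 with h1 | h1
        · rcases lt_or_ge a2 0 with h2 | h2
          · exact conv_neg a1 a2 β τ hτeq hβ0' hβ1' h1 h2 hτ0'
          · have : 1 < a2 := by
              by_contra h; push Not at h; exact n2 ⟨h2, h⟩
            exact key g1 g2 a1 a2 hg hg1v hg2v l1 l2 h1 (by linarith)
        · have h1' : 1 < a1 := by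
            by_contra h; push Not at h; exact n1 ⟨h1, h⟩
          rcases lt_or_ge a2 0 with h2 | h2
          · exact key g2 g1 a2 a1 hg.symm hg2v hg1v l2 l1 h2 (by linarith)
          · have h2' : 1 < a2 := by
              by_contra h; push Not at h; exact n2 ⟨h2, h⟩
            exact conv_big a1 a2 β τ hτeq hβ0' hβ1' h1' h2' hτ1'
      have hgA : g ∉ A := by
        intro hgA
        have := hmax g hgA
        linarith
      have hout : t (P g) < 0 ∨ 1 < s (P g) + t (P g) := by
        by_contra hcon
        push Not at hcon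
        obtain ⟨h1, h2⟩ := hcon
        apply hgA
        rw [hA]
        exact ⟨hgv, (pos_of_det _ _ _ _ hSp0 hTp h1 hdg).le, h1, h2⟩
      have hHx : s x + t x < 1 := by
        rw [exs', ext']
        have : τ * (s (P p') + t (P p')) ≤ τ * 1 := mul_le_mul_of_nonneg_left hHp hτ0
        linarith
      have hTx : 0 < t x := by rw [ext']; positivity
      obtain ⟨ν, hν0, hν1, hν⟩ := exit_arith (t x) (t (P g)) (s x + t x) (s (P g) + t (P g))
        hTx hHx hout
      obtain ⟨z, hzd⟩ : ∃ z, z = at' x (P g) ν := ⟨_, rfl⟩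
      have hzS : Sg x (P g) z ν := by rw [hzd]; exact at'_Sg _ _ _
      obtain ⟨ezs, ezt⟩ := haff _ _ _ _ hzS
      -- `z` lies on the edge
      have hzg : z ∈ segment ℝ (P g) (P g') := by
        obtain ⟨β, hβ0, hβ1, hβ⟩ := exists_Sg hxg
        have hle : β * (1 - ν) ≤ 1 * 1 :=
          mul_le_mul hβ1 (by linarith) (by linarith) zero_le_one
        refine mem_seg_of _ _ _ (β * (1 - ν)) (mul_nonneg hβ0 (by linarith)) (by linarith) ?_ ?_
        · rw [hzS.1, hβ.1]; ring
        · rw [hzS.2, hβ.2]; ring
      have hdz : s (P p') * t z - t (P p') * s z < 0 := by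
        have h1 : s (P p') * t z - t (P p') * s z =
            ν * (s (P p') * t (P g) - t (P p') * s (P g)) := by
          rw [ezs, ezt, exs', ext']; ring
        rw [h1]
        exact mul_neg_of_pos_of_neg hν0 hdg
      have htz : 0 ≤ t z := by
        rcases hν with h | h
        · rw [ezt, h.1]
        · rw [ezt]; exact h.2
      have hsz : 0 < s z := pos_of_det _ _ _ _ hSp0 hTp htz hdz
      obtain ⟨z1, z2⟩ := hrep z
      have hcase : s z + t z = 1 := by
        rcases hν with h | h
        · have ht0 : t z = 0 := by rw [ezt, h.1]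
          have hle : s z + t z ≤ 1 := by
            rw [ezs, ezt]; linarith [h.2]
          rcases hle.lt_or_eq with h' | h'
          · exfalso
            refine hfree z (s z) hsz.le (by linarith) ?_ g g' hgv hg'v (Or.inr hgg') hzg
            constructor
            · rw [ht0] at z1; linarith
            · rw [ht0] at z2; linarith
          · exact h'
        · rw [ezs, ezt]; linarith [h.1]
      -- `z` is an inner point of the edge `q q'`
      have hs1 : s z ≤ 1 := by linarith
      have hzq : Sg (P q) (P q') z (s z * μ) := by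
        have htz' : t z = 1 - s z := by linarith
        constructor
        · rw [htz'] at z1
          have := hμ.1
          linear_combination z1 + s z * this
        · rw [htz'] at z2
          have := hμ.2
          linear_combination z2 + s z * this
      have hzp : 0 < s z * μ := mul_pos hsz hμ0'
      have hzl : s z * μ < 1 := by
        have : s z * μ ≤ 1 * μ := mul_le_mul_of_nonneg_right hs1 hμ0
        linarith
      have hzmem : z ∈ segment ℝ (P q) (P q') := hzq.mem hzp.le hzl.le
      have hne1 : z ≠ P q := by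
        intro h
        have h1 := hzq.1
        have h2 := hzq.2
        rw [h] at h1 h2
        apply hqq'.ne
        apply hP
        refine Prod.ext ?_ ?_
        · have : s z * μ * ((P q').1 - (P q).1) = 0 := by rw [h]; linarith
          rcases mul_eq_zero.mp this with h' | h'
          · exact absurd h' hzp.ne'
          · linarith
        · have : s z * μ * ((P q').2 - (P q).2) = 0 := by rw [h]; linarith
          rcases mul_eq_zero.mp this with h' | h'
          · exact absurd h' hzp.ne'
          · linarith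
      have hne2 : z ≠ P q' := by
        intro h
        have h1 := hzq.1
        have h2 := hzq.2
        apply hqq'.ne
        apply hP
        refine Prod.ext ?_ ?_
        · have : (1 - s z * μ) * ((P q').1 - (P q).1) = 0 := by
            have h3 : z.1 = (P q').1 := by rw [h]
            rw [h3] at h1
            linear_combination h1
          rcases mul_eq_zero.mp this with h' | h'
          · linarith
          · linarith
        · have : (1 - s z * μ) * ((P q').2 - (P q).2) = 0 := by
            have h3 : z.2 = (P q').2 := by rw [h]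
            rw [h3] at h2
            linear_combination h2
          rcases mul_eq_zero.mp this with h' | h'
          · linarith
          · linarith
      -- so the two edges coincide, but `x` is not on `q q'`
      have hx0 : x ∉ segment ℝ (P q) (P q') := by
        intro hxm
        obtain ⟨γ, hγ0, hγ1, hγ⟩ := exists_Sg hxm
        obtain ⟨c1, c2⟩ := haff _ _ _ _ hγ
        obtain ⟨d1, d2⟩ := haff _ _ _ _ hμ
        rw [hsX, hsQ] at d1
        rw [htX, htQ] at d2
        rw [hsQ] at c1
        rw [htQ] at c2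
        have h1 : μ * (s (P q') + t (P q') - 1) = 0 := by linarith
        have h2 : s (P q') + t (P q') = 1 := by
          rcases mul_eq_zero.mp h1 with h | h
          · exact absurd h hμ0'.ne'
          · linarith
        have h3 : s x + t x = 1 := by
          have : s x + t x = 1 + γ * (s (P q') + t (P q') - 1) := by rw [c1, c2]; ring
          rw [this, h2]; ring
        linarith
      rcases share_edge hPl hgg' hqq' hzg hzmem hne1 hne2 with ⟨rfl, rfl⟩ | ⟨rfl, rfl⟩
      · exact hx0 hxg
      · rw [segment_symm] at hxg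
        exact hx0 hxg
    · rw [hL]
      have h1 : 0 ≤ s (P p') * cr (P v) (P w) X := mul_nonneg hSp0 hLX.le
      have h2 : 0 < t (P p') * cr (P v) (P w) (P q) := mul_pos hTp hLq
      linarith

end Pool.Agent.IP25
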