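import Mathlib
import Pool.Agent.Lib.MP_234ff2_co.IP.Defs2
import Pool.Agent.Lib.MP_234ff2_co.IP.A_42

/-!
# Row II: uncovered darts on a line
-/

set_option autoImplicit false

namespace Pool.Agent.IP25.II_22

open Function

variable {t : ℕ} {P : (Fin t → Fin 12) → Pt} {H : SimpleGraph (Fin t → Fin 12)}

/-- an edge at a vertex of the line that changes the coordinate i stays on the line -/
theorem dir_eq (hH : H ≤ cartPow ico t) {v : Fin t → Fin 12} {i : Fin t} {x : Fin 12}
    {w : Fin t → Fin 12} (hw : H.Adj (update v i x) w) (hx : x ≠ w i) :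
    w = update v i (w i) := by
  obtain ⟨i', _, hrest⟩ := hH hw
  have hi : i' = i := by
    by_contra hne
    have h1 := hrest i (Ne.symm hne)
    rw [update_self] at h1
    exact hx h1
  subst hi
  funext j
  by_cases hj : j = i'
  · subst hj; rw [update_self]
  · have h1 := hrest j hj
    rw [update_of_ne hj] at h1 ⊢
    exact h1.symm

/-- the third vertex of a triangle over an edge of the line is on the line -/
theorem tri_dir (hH : H ≤ cartPow ico t) {v : Fin t → Fin 12} {i : Fin t} {x : Fin 12}
    {w c : Fin t → Fin 12} (hw : H.Adj (update v i x) w) (hx : x ≠ w i)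
    (hT : Tri P H (update v i x) w c) : x ≠ c i := by
  intro hc
  obtain ⟨i1, hi1, hr1⟩ := hH hT.2.2.1
  obtain ⟨i2, hi2, hr2⟩ := hH hT.2.1
  have h1 : i1 ≠ i := by
    intro h
    subst h
    rw [update_self, ← hc] at hi1
    exact hi1.ne rfl
  have h2 : i2 = i := by
    by_contra hne
    have h3 := hr2 i (Ne.symm hne)
    exact hx (hc.trans h3.symm)
  have h3 : w i1 = c i1 := hr2 i1 (by rw [h2]; exact h1)
  have h4 : w i1 = update v i x i1 := by
    rw [dir_eq hH hw hx, update_of_ne h1, update_of_ne h1]
  rw [← h3, h4] at hi1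
  exact hi1.ne rfl

/-- a vertex of the line that is extremal among the vertices with an edge of direction i has an
uncovered dart of direction i -/
theorem extremal (hA : StA) (hH : H ≤ cartPow ico t) (v : Fin t → Fin 12) (i : Fin t)
    (x : Fin 12) (hx : ∃ w, H.Adj (update v i x) w ∧ x ≠ w i) (z : Pt) (hz : z ≠ 0)
    (hmax : ∀ y : Fin 12, (∃ w, H.Adj (update v i y) w ∧ y ≠ w i) →
      ((P (update v i y)).1 - (P (update v i x)).1) * z.1 +
        ((P (update v i y)).2 - (P (update v i x)).2) * z.2 ≤ 0) :
    1 ≤ Nat.card {w : Fin t → Fin 12 // H.Adj (update v i x) w ∧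
        x ≠ w i ∧ ¬ Cov P H (update v i x) w} := by
  classical
  by_contra hcon
  have h0 : Nat.card {w : Fin t → Fin 12 // H.Adj (update v i x) w ∧
        x ≠ w i ∧ ¬ Cov P H (update v i x) w} = 0 := by omega
  have hemp : IsEmpty {w : Fin t → Fin 12 // H.Adj (update v i x) w ∧
        x ≠ w i ∧ ¬ Cov P H (update v i x) w} := by
    rcases Nat.card_eq_zero.mp h0 with h | h
    · exact h
    · exact absurd (inferInstance : Finite _) (not_finite_iff_infinite.mpr h)
  have hcov : ∀ w, H.Adj (update v i x) w → x ≠ w i → Cov P H (update v i x) w := by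
    intro w hw hwx
    by_contra hc
    exact hemp.false ⟨w, hw, hwx, hc⟩
  -- directions of the darts
  have hle : ∀ w, H.Adj (update v i x) w → x ≠ w i →
      ((P w).1 - (P (update v i x)).1) * z.1 + ((P w).2 - (P (update v i x)).2) * z.2 ≤ 0 := by
    intro w hw hwx
    have he := dir_eq hH hw hwx
    have h1 := hmax (w i) ⟨update v i x, by rw [← he]; exact hw.symm, by
      rw [update_self]; exact hwx.symm⟩
    rw [← he] at h1
    exact h1
  let S : Finset Pt := (Finset.univ.filter (fun w : Fin t → Fin 12 =>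
    H.Adj (update v i x) w ∧ x ≠ w i)).image (fun w => P w - P (update v i x))
  have hS : ∀ a ∈ S, ∃ w, H.Adj (update v i x) w ∧ x ≠ w i ∧ a = P w - P (update v i x) := by
    intro a ha
    obtain ⟨w, hw, rfl⟩ := Finset.mem_image.mp ha
    obtain ⟨_, hw1, hw2⟩ := Finset.mem_filter.mp hw
    exact ⟨w, hw1, hw2, rfl⟩
  refine hA S z ?_ hz ?_ ?_
  · obtain ⟨w, hw, hwx⟩ := hx
    exact ⟨P w - P (update v i x), Finset.mem_image.mpr ⟨w, by simp [hw, hwx], rfl⟩⟩
  · intro a ha hc
    obtain ⟨w, hw, hwx, rfl⟩ := hS a ha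
    have h1 := hle w hw hwx
    have h2 := hc.2
    simp only [Prod.fst_sub, Prod.snd_sub] at h2
    linarith
  · intro a ha
    obtain ⟨w, hw, hwx, rfl⟩ := hS a ha
    obtain ⟨c, hc⟩ := hcov w hw hwx
    have hcx := tri_dir hH hw hwx hc
    refine ⟨P c - P (update v i x), Finset.mem_image.mpr ⟨c, by simp [hc.2.2.1.symm, hcx], rfl⟩,
      ?_, ?_⟩
    · have h1 := hc.2.2.2.1
      unfold cr at h1
      simp only [Prod.fst_sub, Prod.snd_sub]
      exact h1
    · rintro ⟨h1, h2⟩
      have h3 := hle w hw hwx
      have h4 := hle c hc.2.2.1.symm hcx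
      have h5 : 0 < ((P w).1 - (P (update v i x)).1) * ((P c).2 - (P (update v i x)).2) -
          ((P w).2 - (P (update v i x)).2) * ((P c).1 - (P (update v i x)).1) := by
        have := hc.2.2.2.1
        unfold cr at this
        exact this
      simp only [Prod.fst_sub, Prod.snd_sub] at h1 h2
      set a1 := (P w).1 - (P (update v i x)).1
      set a2 := (P w).2 - (P (update v i x)).2
      set b1 := (P c).1 - (P (update v i x)).1
      set b2 := (P c).2 - (P (update v i x)).2
      have hzz : 0 < z.1 * z.1 + z.2 * z.2 := by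
        by_contra h
        have e1 : z.1 * z.1 = 0 := by nlinarith [mul_self_nonneg z.1, mul_self_nonneg z.2]
        have e2 : z.2 * z.2 = 0 := by nlinarith [mul_self_nonneg z.1, mul_self_nonneg z.2]
        exact hz (Prod.ext (mul_self_eq_zero.mp e1) (mul_self_eq_zero.mp e2))
      have hid : (a1 * b2 - a2 * b1) * (z.1 * z.1 + z.2 * z.2) =
          (z.1 * b2 - z.2 * b1) * (a1 * z.1 + a2 * z.2) +
          (a1 * z.2 - a2 * z.1) * (b1 * z.1 + b2 * z.2) := by ring
      have h6 : 0 < (a1 * b2 - a2 * b1) * (z.1 * z.1 + z.2 * z.2) := mul_pos h5 hzz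
      have h7 : (z.1 * b2 - z.2 * b1) * (a1 * z.1 + a2 * z.2) ≤ 0 :=
        mul_nonpos_of_nonneg_of_nonpos h2.le h3
      have h8 : (a1 * z.2 - a2 * z.1) * (b1 * z.1 + b2 * z.2) ≤ 0 :=
        mul_nonpos_of_nonneg_of_nonpos h1.le h4
      linarith

/-- Row II from row A. -/
theorem stII_of (hA : StA) : StII := by
  classical
  intro t P H hinj hPl hH v i
  set U : Fin 12 → ℕ := fun x => Nat.card {w : Fin t → Fin 12 // H.Adj (update v i x) w ∧
        x ≠ w i ∧ ¬ Cov P H (update v i x) w} with hU
  change _ ≤ 4 * ∑ x : Fin 12, U x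
  let S : Finset (Fin 12) := Finset.univ.filter
    (fun x => ∃ w, H.Adj (update v i x) w ∧ x ≠ w i)
  have hcard : Nat.card {x : Fin 12 // ∃ w, H.Adj (update v i x) w ∧ x ≠ w i} = S.card := by
    rw [Nat.card_eq_fintype_card, Fintype.card_subtype]
  have hmem : ∀ x, x ∈ S ↔ ∃ w, H.Adj (update v i x) w ∧ x ≠ w i := by
    intro x; simp [S]
  rw [hcard]
  by_cases hcov : ∃ x w, H.Adj (update v i x) w ∧ x ≠ w i ∧ Cov P H (update v i x) w
  · obtain ⟨x0, w, hw, hx0, c, hT⟩ := hcov
    have hc0 := tri_dir hH hw hx0 hT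
    have hew := dir_eq hH hw hx0
    have hec := dir_eq hH hT.2.2.1.symm hc0
    have m0 : x0 ∈ S := (hmem x0).mpr ⟨w, hw, hx0⟩
    have m1 : w i ∈ S := (hmem _).mpr ⟨update v i x0, by rw [← hew]; exact hw.symm, by
      rw [update_self]; exact hx0.symm⟩
    have m2 : c i ∈ S := (hmem _).mpr ⟨update v i x0, by rw [← hec]; exact hT.2.2.1, by
      rw [update_self]; exact hc0.symm⟩
    have hpos : 0 < cr (P (update v i x0)) (P (update v i (w i))) (P (update v i (c i))) := by
      rw [← hew, ← hec]; exact hT.2.2.2.1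
    obtain ⟨x1, hx1, hmax1⟩ := S.exists_max_image (fun y => (P (update v i y)).1) ⟨x0, m0⟩
    obtain ⟨x2, hx2, hmin2⟩ := S.exists_min_image (fun y => (P (update v i y)).1) ⟨x0, m0⟩
    have hlt : (P (update v i x2)).1 < (P (update v i x1)).1 := by
      by_contra hge
      push Not at hge
      have hall : ∀ y ∈ S, (P (update v i y)).1 = (P (update v i x1)).1 := by
        intro y hy
        exact le_antisymm (hmax1 y hy) (hge.trans (hmin2 y hy))
      unfold cr at hpos
      rw [hall _ m0, hall _ m1, hall _ m2] at hpos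
      simp at hpos
    have hne12 : x1 ≠ x2 := by rintro rfl; exact lt_irrefl _ hlt
    have u1 : 1 ≤ U x1 := extremal hA hH v i x1 ((hmem x1).mp hx1) (1, 0)
      (by intro h; have := congrArg Prod.fst h; simp at this) (by
        intro y hy
        have := hmax1 y ((hmem y).mpr hy)
        simp only at this ⊢
        linarith)
    have u2 : 1 ≤ U x2 := extremal hA hH v i x2 ((hmem x2).mp hx2) (-1, 0)
      (by intro h; have := congrArg Prod.fst h; simp at this) (by
        intro y hy
        have := hmin2 y ((hmem y).mpr hy)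
        simp only at this ⊢
        linarith)
    -- a point off the line
    have hoff : ∃ y ∈ S, cr (P (update v i x1)) (P (update v i x2)) (P (update v i y)) ≠ 0 := by
      by_contra hno
      push Not at hno
      have e0 := hno _ m0
      have e1 := hno _ m1
      have e2 := hno _ m2
      unfold cr at e0 e1 e2 hpos
      set p1 := P (update v i x1)
      set p2 := P (update v i x2)
      set a := P (update v i x0)
      set b := P (update v i (w i))
      set d := P (update v i (c i))
      have hid : (p2.1 - p1.1) * ((b.1 - a.1) * (d.2 - a.2) - (b.2 - a.2) * (d.1 - a.1)) = 0 := by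
        linear_combination (b.1 - a.1) * (e2 - e0) - (d.1 - a.1) * (e1 - e0)
      rcases mul_eq_zero.mp hid with h | h
      · linarith
      · linarith
    -- the third vertex
    have key : ∀ s : ℝ, (s = 1 ∨ s = -1) → ∀ y ∈ S,
        0 < s * cr (P (update v i x1)) (P (update v i x2)) (P (update v i y)) →
        ∃ x3, x3 ≠ x1 ∧ x3 ≠ x2 ∧ 1 ≤ U x3 := by
      intro s hs y hy hys
      obtain ⟨x3, hx3, hmax3⟩ := S.exists_max_image
        (fun y => s * cr (P (update v i x1)) (P (update v i x2)) (P (update v i y))) ⟨y, hy⟩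
      have h3 : 0 < s * cr (P (update v i x1)) (P (update v i x2)) (P (update v i x3)) :=
        lt_of_lt_of_le hys (hmax3 y hy)
      refine ⟨x3, ?_, ?_, ?_⟩
      · rintro rfl
        unfold cr at h3
        simp at h3
      · rintro rfl
        unfold cr at h3
        have : (P (update v i x3)).1 - (P (update v i x1)).1 ≠ 0 := by
          intro h; linarith
        nlinarith
      · refine extremal hA hH v i x3 ((hmem x3).mp hx3)
          (- s * ((P (update v i x2)).2 - (P (update v i x1)).2),
            s * ((P (update v i x2)).1 - (P (update v i x1)).1)) ?_ ?_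
        · intro h
          have := congrArg Prod.snd h
          simp only [Prod.snd_zero] at this
          rcases hs with rfl | rfl
          · linarith
          · linarith
        · intro y' hy'
          have := hmax3 y' ((hmem y').mpr hy')
          simp only at this ⊢
          unfold cr at this
          linarith
    obtain ⟨y, hy, hyne⟩ := hoff
    have hx3 : ∃ x3, x3 ≠ x1 ∧ x3 ≠ x2 ∧ 1 ≤ U x3 := by
      rcases lt_or_gt_of_ne hyne with h | h
      · exact key (-1) (Or.inr rfl) y hy (by linarith)
      · exact key 1 (Or.inl rfl) y hy (by linarith)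
    obtain ⟨x3, h31, h32, u3⟩ := hx3
    have hsum : U x1 + U x2 + U x3 ≤ ∑ x : Fin 12, U x := by
      have h1 : ∑ x ∈ ({x1, x2, x3} : Finset (Fin 12)), U x ≤ ∑ x : Fin 12, U x :=
        Finset.sum_le_sum_of_subset (Finset.subset_univ _)
      rw [Finset.sum_insert (by simp [hne12, h31.symm]), Finset.sum_insert (by simp [h32.symm]),
        Finset.sum_singleton] at h1
      omega
    have hS12 : S.card ≤ 12 := by
      have := Finset.card_le_univ S
      simpa using this
    omega
  · push Not at hcov
    have h1 : ∀ x ∈ S, 1 ≤ U x := by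
      intro x hx
      obtain ⟨w, hw, hxw⟩ := (hmem x).mp hx
      have : Nonempty {w : Fin t → Fin 12 // H.Adj (update v i x) w ∧
        x ≠ w i ∧ ¬ Cov P H (update v i x) w} := ⟨⟨w, hw, hxw, hcov x w hw hxw⟩⟩
      exact Nat.card_pos
    have h2 : S.card ≤ ∑ x ∈ S, U x := by
      rw [Finset.card_eq_sum_ones]
      exact Finset.sum_le_sum h1
    have h3 : ∑ x ∈ S, U x ≤ ∑ x : Fin 12, U x :=
      Finset.sum_le_sum_of_subset (Finset.subset_univ _)
    omega

/-- Row II. -/
theorem stII_22 : StII := stII_of A_42.stA_42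

end Pool.Agent.IP25.II_22
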