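import Pool.Agent.Lib.MP_234ff2_co.IP.Base25
import Pool.Agent.Lib.MP_234ff2_co.IP.Defs2
import Pool.Agent.Lib.MP_234ff2_co.IP.A_42

/-!
# Row I: a vertex with at least two directions has an uncovered dart in every direction
-/

set_option autoImplicit false

namespace Pool.Agent.IP25.I_42

theorem scal {a1 a2 b1 b2 : ℝ} (h0 : a1 * b2 - a2 * b1 = 0) (hpos : 0 < a1 * b1 + a2 * b2) :
    (∃ m : ℝ, 0 ≤ m ∧ m ≤ 1 ∧ b1 = m * a1 ∧ b2 = m * a2) ∨
      (∃ m : ℝ, 0 ≤ m ∧ m ≤ 1 ∧ a1 = m * b1 ∧ a2 = m * b2) := by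
  have haa : 0 < a1 * a1 + a2 * a2 := by
    by_contra h
    have h1 : a1 * a1 = 0 := by nlinarith [mul_self_nonneg a1, mul_self_nonneg a2]
    have h2 : a2 * a2 = 0 := by nlinarith [mul_self_nonneg a1, mul_self_nonneg a2]
    rw [mul_self_eq_zero.mp h1, mul_self_eq_zero.mp h2] at hpos
    simp at hpos
  have hbb : 0 < b1 * b1 + b2 * b2 := by
    by_contra h
    have h1 : b1 * b1 = 0 := by nlinarith [mul_self_nonneg b1, mul_self_nonneg b2]
    have h2 : b2 * b2 = 0 := by nlinarith [mul_self_nonneg b1, mul_self_nonneg b2]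
    rw [mul_self_eq_zero.mp h1, mul_self_eq_zero.mp h2] at hpos
    simp at hpos
  have hid : (a1 * b1 + a2 * b2) * (a1 * b1 + a2 * b2) =
      (a1 * a1 + a2 * a2) * (b1 * b1 + b2 * b2) := by
    linear_combination -(a1 * b2 - a2 * b1) * h0
  have e1 : b1 * (a1 * a1 + a2 * a2) = (a1 * b1 + a2 * b2) * a1 := by linear_combination -a2 * h0
  have e2 : b2 * (a1 * a1 + a2 * a2) = (a1 * b1 + a2 * b2) * a2 := by linear_combination a1 * h0
  have e3 : a1 * (b1 * b1 + b2 * b2) = (a1 * b1 + a2 * b2) * b1 := by linear_combination b2 * h0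
  have e4 : a2 * (b1 * b1 + b2 * b2) = (a1 * b1 + a2 * b2) * b2 := by linear_combination -b1 * h0
  by_cases hle : a1 * b1 + a2 * b2 ≤ a1 * a1 + a2 * a2
  · left
    refine ⟨(a1 * b1 + a2 * b2) / (a1 * a1 + a2 * a2), by positivity,
      (div_le_one haa).mpr hle, ?_, ?_⟩
    · rw [div_mul_eq_mul_div, eq_div_iff haa.ne', e1]
    · rw [div_mul_eq_mul_div, eq_div_iff haa.ne', e2]
  · right
    have hle' : a1 * b1 + a2 * b2 ≤ b1 * b1 + b2 * b2 := by
      by_contra h
      have h1 := not_le.mp hle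
      have h2 := not_le.mp h
      nlinarith [mul_pos hpos hpos]
    refine ⟨(a1 * b1 + a2 * b2) / (b1 * b1 + b2 * b2), by positivity,
      (div_le_one hbb).mpr hle', ?_, ?_⟩
    · rw [div_mul_eq_mul_div, eq_div_iff hbb.ne', e3]
    · rw [div_mul_eq_mul_div, eq_div_iff hbb.ne', e4]

/-- two neighbours on the same ray are equal -/
theorem ray {V : Type} {P : V → Pt} {M : SimpleGraph V} (hM : Plane P M) {v a b : V}
    (ha : M.Adj v a) (hb : M.Adj v b) (hab : a ≠ b) :
    ¬ (((P a).1 - (P v).1) * ((P b).2 - (P v).2) - ((P a).2 - (P v).2) * ((P b).1 - (P v).1) = 0 ∧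
      0 < ((P a).1 - (P v).1) * ((P b).1 - (P v).1) +
        ((P a).2 - (P v).2) * ((P b).2 - (P v).2)) := by
  rintro ⟨h0, hpos⟩
  rcases scal h0 hpos with ⟨m, m0, m1, h1, h2⟩ | ⟨m, m0, m1, h1, h2⟩
  · exact hM.1 v a b ha hb.ne' (Ne.symm hab) (mem_seg_of _ _ _ m m0 m1 (by linarith) (by linarith))
  · exact hM.1 v b a hb ha.ne' hab (mem_seg_of _ _ _ m m0 m1 (by linarith) (by linarith))

/-- adjacent vertices of the power which differ at `i` agree elsewhere -/
theorem only {G : SimpleGraph (Fin 12)} {t : ℕ} {v w : Fin t → Fin 12} (h : (cartPow G t).Adj v w)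
    {i : Fin t} (hi : v i ≠ w i) (j : Fin t) (hj : j ≠ i) : v j = w j := by
  obtain ⟨k, _, hk⟩ := h
  have : i = k := by
    by_contra hne
    exact hi (hk i hne)
  rw [this] at hj
  exact hk j hj

/-- a triangle lies in one direction -/
theorem same_dir {G : SimpleGraph (Fin 12)} {t : ℕ} {v w c : Fin t → Fin 12}
    (hvw : (cartPow G t).Adj v w) (hwc : (cartPow G t).Adj w c) (hcv : (cartPow G t).Adj c v)
    {i : Fin t} (hi : v i ≠ w i) : v i ≠ c i := by
  intro hc
  obtain ⟨j, hj, hj'⟩ := hcv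
  have hij : i ≠ j := by
    rintro rfl
    exact hj.ne hc.symm
  have h1 : w i ≠ c i := fun h => hi (hc.trans h.symm)
  have h2 : w j = c j := only hwc h1 j hij.symm
  have h3 : v j = w j := only hvw hi j hij.symm
  exact hj.ne (h2.symm.trans h3.symm)

/-- every direction present at a vertex with two directions has an uncovered dart -/
theorem uncovered {t : ℕ} {P : (Fin t → Fin 12) → Pt} {H : SimpleGraph (Fin t → Fin 12)}
    (hP : Function.Injective P) (hH : Plane P H) (hle : H ≤ cartPow ico t) {v : Fin t → Fin 12}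
    {i : Fin t} (hi : ∃ w, H.Adj v w ∧ v i ≠ w i) {j : Fin t} (hj : ∃ w, H.Adj v w ∧ v j ≠ w j)
    (hij : i ≠ j) : ∃ w, H.Adj v w ∧ v i ≠ w i ∧ ¬ Cov P H v w := by
  classical
  by_contra hcon
  push Not at hcon
  obtain ⟨w0, hw0, hw0'⟩ := hi
  obtain ⟨z, hz, hz'⟩ := hj
  have hzi : v i = z i := only (hle hz) hz' i hij
  let S : Finset Pt := (Finset.univ.filter (fun w => H.Adj v w ∧ v i ≠ w i)).image
    (fun w => P w - P v)
  have hmem : ∀ a ∈ S, ∃ w, H.Adj v w ∧ v i ≠ w i ∧ a = P w - P v := by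
    intro a ha
    obtain ⟨w, hw, rfl⟩ := Finset.mem_image.mp ha
    obtain ⟨_, h1, h2⟩ := Finset.mem_filter.mp hw
    exact ⟨w, h1, h2, rfl⟩
  have hmem' : ∀ w, H.Adj v w → v i ≠ w i → P w - P v ∈ S := fun w h1 h2 =>
    Finset.mem_image_of_mem _ (Finset.mem_filter.mpr ⟨Finset.mem_univ _, h1, h2⟩)
  have hne : ∀ w, v i ≠ w i → z ≠ w := by
    rintro w hw rfl
    exact hw hzi
  refine A_42.stA_42 S (P z - P v) ⟨_, hmem' w0 hw0 hw0'⟩
    (sub_ne_zero.mpr (fun h => hz.ne (hP h).symm)) ?_ ?_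
  · intro a ha
    obtain ⟨w, hw, hw', rfl⟩ := hmem a ha
    exact ray hH hw hz (Ne.symm (hne w hw'))
  · intro a ha
    obtain ⟨w, hw, hw', rfl⟩ := hmem a ha
    obtain ⟨c, hT⟩ := hcon w hw hw'
    have hc' : v i ≠ c i := same_dir (hle hT.1) (hle hT.2.1) (hle hT.2.2.1) hw'
    refine ⟨P c - P v, hmem' c hT.2.2.1.symm hc', hT.2.2.2.1, ?_⟩
    exact no_sector hH hT hz (hne w hw') (hne c hc')

/-- (I) -/
theorem stI_42 : StI := by
  intro t P H hP hH hle v h2
  have key : ∀ i : {i : Fin t // ∃ w, H.Adj v w ∧ v i ≠ w i},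
      ∃ w, H.Adj v w ∧ v i ≠ w i ∧ ¬ Cov P H v w := by
    intro i
    obtain ⟨j, hj⟩ : ∃ j : {i : Fin t // ∃ w, H.Adj v w ∧ v i ≠ w i}, j ≠ i := by
      by_contra hcon
      push Not at hcon
      have : Subsingleton {i : Fin t // ∃ w, H.Adj v w ∧ v i ≠ w i} :=
        ⟨fun a b => (hcon a).trans (hcon b).symm⟩
      have := Finite.card_le_one_iff_subsingleton.mpr this
      omega
    exact uncovered hP hH hle i.2 j.2 (fun h => hj (Subtype.ext h.symm))
  choose f hf using key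
  refine Nat.card_le_card_of_injective
    (fun i => (⟨f i, (hf i).1, (hf i).2.2⟩ : {w : Fin t → Fin 12 // H.Adj v w ∧ ¬ Cov P H v w})) ?_
  intro i j hij
  have hij' : f i = f j := congrArg Subtype.val hij
  by_contra hne
  have h1 : v i ≠ f j i := by rw [← hij']; exact (hf i).2.1
  exact h1 (only (hle (hf j).1) (hf j).2.1 i (fun h => hne (Subtype.ext h)))

end Pool.Agent.IP25.I_42
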