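import Mathlib
import Pool.Agent.Lib.MP_234ff2_co.IP.Base25

set_option autoImplicit false

/-! Row N: every dart with a vertex strictly on its left is covered. -/

namespace Pool.Agent.IP25

/-- Scalar product of b - a and c - a. -/
def dt (a b c : Pt) : ℝ := (b.1 - a.1) * (c.1 - a.1) + (b.2 - a.2) * (c.2 - a.2)

theorem cr_dt (v w g b : Pt) :
    cr v g b * ((w.1 - v.1) ^ 2 + (w.2 - v.2) ^ 2) =
      dt v w g * cr v w b - dt v w b * cr v w g := by
  unfold cr dt; ring

theorem stN_25 (hC : StC) (hH : StH) : StN := by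
  intro V _ P M hP hM v w p hvw hp
  obtain ⟨z, hz, hz'⟩ := hH V P M hP hM v w p hp
  -- the neighbour on the left that comes first
  let S : Set V := {g | M.Adj v g ∧ 0 < cr (P v) (P w) (P g)}
  have hSf : S.Finite := Set.toFinite _
  have hSn : S.Nonempty := ⟨z, hz, hz'⟩
  obtain ⟨b, hb, hmax⟩ := Set.exists_max_image S
    (fun g => dt (P v) (P w) (P g) / cr (P v) (P w) (P g)) hSf hSn
  refine ⟨b, hC V P M hP hM v w b hvw hb.1 hb.2 ?_⟩
  rintro g hg ⟨h1, h2⟩
  have h3 := hmax g ⟨hg, h1⟩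
  have hb2 := hb.2
  rw [div_le_div_iff₀ h1 hb2] at h3
  have hpos : 0 < (( P w).1 - (P v).1) ^ 2 + ((P w).2 - (P v).2) ^ 2 := by
    have hne : P w ≠ P v := fun h => hvw.ne (hP h).symm
    by_contra hcon
    push Not at hcon
    have e1 : (P w).1 - (P v).1 = 0 := by nlinarith [sq_nonneg ((P w).1 - (P v).1), sq_nonneg ((P w).2 - (P v).2)]
    have e2 : (P w).2 - (P v).2 = 0 := by nlinarith [sq_nonneg ((P w).1 - (P v).1), sq_nonneg ((P w).2 - (P v).2)]
    exact hne (Prod.ext (by linarith) (by linarith))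
  have h4 := cr_dt (P v) (P w) (P g) (P b)
  have h5 := mul_pos h2 hpos
  rw [h4] at h5
  linarith

end Pool.Agent.IP25
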