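import Pool.Agent.Lib.MP_234ff2_co.IP.Base25

set_option autoImplicit false

namespace Pool.Agent.IP25.S_32

open Finset

/-- A direction in which the vertices have distinct projections. -/
theorem exists_eps {V : Type} [Finite V] (P : V → Pt) (hP : Function.Injective P) :
    ∃ ε : ℝ, Function.Injective (fun u : V => (P u).1 + ε * (P u).2) := by
  classical
  have hfin : (⋃ q : V × V, {ε : ℝ | q.1 ≠ q.2 ∧
      (P q.1).1 + ε * (P q.1).2 = (P q.2).1 + ε * (P q.2).2}).Finite := by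
    refine Set.finite_iUnion fun q => ?_
    refine Set.Subsingleton.finite ?_
    rintro ε ⟨hq, h1⟩ ε' ⟨-, h2⟩
    by_cases h : (P q.1).2 = (P q.2).2
    · exfalso
      apply hq
      apply hP
      refine Prod.ext ?_ h
      rw [h] at h1
      linarith
    · have h3 : (ε - ε') * ((P q.1).2 - (P q.2).2) = 0 := by linear_combination h1 - h2
      rcases mul_eq_zero.mp h3 with h4 | h4
      · linarith
      · exact absurd (by linarith) h
  obtain ⟨ε, hε⟩ := hfin.exists_notMem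
  refine ⟨ε, fun u w huw => ?_⟩
  by_contra hne
  exact hε (Set.mem_iUnion.mpr ⟨(u, w), hne, huw⟩)

/-- The determinant in the new coordinate. -/
theorem cr_eps (ε : ℝ) (a b c : Pt) : cr a b c =
    ((b.1 + ε * b.2) - (a.1 + ε * a.2)) * (c.2 - a.2) -
      (b.2 - a.2) * ((c.1 + ε * c.2) - (a.1 + ε * a.2)) := by
  unfold cr; ring

/-- `a, a'` on one side of `O`, `b` on the other one. -/
theorem sector (ε : ℝ) (O a a' b : Pt)
    (h1 : 0 < ((a.1 + ε * a.2) - (O.1 + ε * O.2)) * ((a'.1 + ε * a'.2) - (O.1 + ε * O.2)))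
    (h2 : ((a.1 + ε * a.2) - (O.1 + ε * O.2)) * ((b.1 + ε * b.2) - (O.1 + ε * O.2)) < 0)
    (h3 : 0 < cr O a a') (h4 : 0 < cr O a b) : 0 < cr O a' b := by
  rw [cr_eps ε] at h3 h4 ⊢
  obtain ⟨A1, hA1⟩ : ∃ A1, A1 = (a.1 + ε * a.2) - (O.1 + ε * O.2) := ⟨_, rfl⟩
  obtain ⟨A1', hA1'⟩ : ∃ A1', A1' = (a'.1 + ε * a'.2) - (O.1 + ε * O.2) := ⟨_, rfl⟩
  obtain ⟨B1, hB1⟩ : ∃ B1, B1 = (b.1 + ε * b.2) - (O.1 + ε * O.2) := ⟨_, rfl⟩
  rw [← hA1, ← hA1'] at h1
  rw [← hA1, ← hB1] at h2
  rw [← hA1, ← hA1'] at h3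
  rw [← hA1, ← hB1] at h4
  rw [← hA1', ← hB1]
  have e : A1 ^ 2 * (A1' * (b.2 - O.2) - (a'.2 - O.2) * B1) =
      (A1 * (b.2 - O.2) - (a.2 - O.2) * B1) * (A1 * A1') +
      (A1 * (a'.2 - O.2) - (a.2 - O.2) * A1') * (-(A1 * B1)) := by ring
  have e1 : 0 < (A1 * (b.2 - O.2) - (a.2 - O.2) * B1) * (A1 * A1') := mul_pos h4 h1
  have e2 : 0 < (A1 * (a'.2 - O.2) - (a.2 - O.2) * A1') * (-(A1 * B1)) :=
    mul_pos h3 (by linarith)
  have e3 : 0 < A1 ^ 2 * (A1' * (b.2 - O.2) - (a'.2 - O.2) * B1) := by rw [e]; linarith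
  exact pos_of_mul_pos_right e3 (sq_nonneg A1)

/-- Two neighbours of `v` in the same direction are equal. -/
theorem collinear_eq {V : Type} {P : V → Pt} {M : SimpleGraph V} (hM : Plane P M) (ε : ℝ)
    {v a a' : V} (ha : M.Adj v a) (ha' : M.Adj v a')
    (h1 : 0 < (((P a).1 + ε * (P a).2) - ((P v).1 + ε * (P v).2)) *
      (((P a').1 + ε * (P a').2) - ((P v).1 + ε * (P v).2)))
    (h : cr (P v) (P a) (P a') = 0) : a = a' := by
  by_contra hne
  rw [cr_eps ε] at h
  obtain ⟨A1, hA1⟩ : ∃ A1, A1 = ((P a).1 + ε * (P a).2) - ((P v).1 + ε * (P v).2) := ⟨_, rfl⟩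
  obtain ⟨A1', hA1'⟩ : ∃ A1', A1' = ((P a').1 + ε * (P a').2) - ((P v).1 + ε * (P v).2) :=
    ⟨_, rfl⟩
  rw [← hA1, ← hA1'] at h1 h
  have hA0 : A1 ≠ 0 := left_ne_zero_of_mul h1.ne'
  have hA0' : A1' ≠ 0 := right_ne_zero_of_mul h1.ne'
  have hl : 0 < A1' / A1 := by
    have : A1' / A1 = A1 * A1' / A1 ^ 2 := by field_simp
    rw [this]; positivity
  have hl' : A1 / A1' = (A1' / A1)⁻¹ := by rw [inv_div]
  rcases le_total (A1' / A1) 1 with hle | hle
  · refine hM.1 v a a' ha ha'.ne' (Ne.symm hne) ?_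
    refine mem_seg_of _ _ _ (A1' / A1) hl.le hle ?_ ?_
    · have e2 : (P a').2 - (P v).2 = A1' / A1 * ((P a).2 - (P v).2) := by
        field_simp; linarith
      have e1 : A1' / A1 * A1 = A1' := by field_simp
      have e3 : A1' / A1 * ((P a).1 - (P v).1) = A1' / A1 * A1 -
          ε * (A1' / A1 * ((P a).2 - (P v).2)) := by rw [hA1]; ring
      rw [e3, ← e2, e1, hA1']; ring
    · have e2 : (P a').2 - (P v).2 = A1' / A1 * ((P a).2 - (P v).2) := by
        field_simp; linarith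
      linarith
  · have hle' : A1 / A1' ≤ 1 := by rw [hl']; exact inv_le_one_of_one_le₀ hle
    have hpos' : 0 < A1 / A1' := by rw [hl']; positivity
    refine hM.1 v a' a ha' ha.ne' hne ?_
    refine mem_seg_of _ _ _ (A1 / A1') hpos'.le hle' ?_ ?_
    · have e2 : (P a).2 - (P v).2 = A1 / A1' * ((P a').2 - (P v).2) := by
        field_simp; linarith
      have e1 : A1 / A1' * A1' = A1 := by field_simp
      have e3 : A1 / A1' * ((P a').1 - (P v).1) = A1 / A1' * A1' -
          ε * (A1 / A1' * ((P a').2 - (P v).2)) := by rw [hA1']; ring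
      rw [e3, ← e2, e1, hA1]; ring
    · have e2 : (P a).2 - (P v).2 = A1 / A1' * ((P a').2 - (P v).2) := by
        field_simp; linarith
      linarith

/-- Two empty triangles at `v` on the same side (below, or above) are equal. -/
theorem slot_unique {V : Type} {P : V → Pt} {M : SimpleGraph V} (hM : Plane P M) (ε : ℝ)
    {v a b a' b' : V} (hT : Tri P M v a b) (hT' : Tri P M v a' b')
    (h1 : 0 < (((P a).1 + ε * (P a).2) - ((P v).1 + ε * (P v).2)) *
      (((P a').1 + ε * (P a').2) - ((P v).1 + ε * (P v).2)))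
    (h2 : (((P a).1 + ε * (P a).2) - ((P v).1 + ε * (P v).2)) *
      (((P b).1 + ε * (P b).2) - ((P v).1 + ε * (P v).2)) < 0)
    (h2' : (((P a').1 + ε * (P a').2) - ((P v).1 + ε * (P v).2)) *
      (((P b').1 + ε * (P b').2) - ((P v).1 + ε * (P v).2)) < 0) : a = a' ∧ b = b' := by
  have haa : a = a' := by
    by_contra hne
    have hab' : a ≠ b' := by
      rintro rfl
      rw [mul_comm] at h2'
      linarith
    have ha'b : a' ≠ b := by
      rintro rfl
      linarith
    rcases lt_trichotomy (cr (P v) (P a) (P a')) 0 with h | h | h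
    · have h3 : 0 < cr (P v) (P a') (P a) := by rw [cr_swap]; linarith
      have h4 := sector ε _ _ _ _ (by rw [mul_comm]; exact h1) h2' h3 hT'.2.2.2.1
      exact no_sector hM hT' hT.1 hne hab' ⟨h3, h4⟩
    · exact hne (collinear_eq hM ε hT.1 hT'.1 h1 h)
    · have h4 := sector ε _ _ _ _ h1 h2 h hT.2.2.2.1
      exact no_sector hM hT hT'.1 (Ne.symm hne) ha'b ⟨h, h4⟩
  subst haa
  exact ⟨rfl, tri_unique hM hT hT'⟩

theorem mid_cases (α β γ : ℝ) (h1 : ¬ ((β < α ∧ α < γ) ∨ (γ < α ∧ α < β)))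
    (h2 : ¬ ((γ < β ∧ β < α) ∨ (α < β ∧ β < γ))) (hab : α ≠ β) (hbc : β ≠ γ) (hca : γ ≠ α) :
    (α < γ ∧ γ < β) ∨ (β < γ ∧ γ < α) := by
  rcases lt_or_gt_of_ne hab with h3 | h3 <;> rcases lt_or_gt_of_ne hbc with h4 | h4 <;>
    rcases lt_or_gt_of_ne hca with h5 | h5
  · exact absurd (Or.inr ⟨h3, h4⟩) h2
  · exact absurd (Or.inr ⟨h3, h4⟩) h2
  · exact absurd (Or.inr ⟨h5, h3⟩) h1
  · exact Or.inl ⟨h5, h4⟩
  · exact Or.inr ⟨h4, h5⟩
  · exact absurd (Or.inl ⟨h3, h5⟩) h1
  · exact absurd (Or.inl ⟨h4, h3⟩) h2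
  · exact absurd (Or.inl ⟨h4, h3⟩) h2

/-- (S) -/
theorem stS_32 : StS := by
  classical
  intro V _ P M hP hM hV
  obtain ⟨ε, hε⟩ := exists_eps P hP
  obtain ⟨x, hx⟩ : ∃ x : V → ℝ, x = fun u : V => (P u).1 + ε * (P u).2 := ⟨_, rfl⟩
  have hxi : Function.Injective x := by rw [hx]; exact hε
  have hxe : ∀ u, x u = (P u).1 + ε * (P u).2 := fun u => by rw [hx]
  obtain ⟨F, hF⟩ : ∃ F : Finset (V × V × V), F = univ.filter
      (fun T : V × V × V => Tri P M T.1 T.2.1 T.2.2) := ⟨_, rfl⟩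
  have hcard : Nat.card {T : V × V × V // Tri P M T.1 T.2.1 T.2.2} = F.card := by
    rw [Nat.card_eq_fintype_card, Fintype.card_subtype, hF]
  obtain ⟨M0, hM0⟩ : ∃ M0 : Finset (V × V × V), M0 = F.filter
      (fun T : V × V × V => (x T.2.1 < x T.1 ∧ x T.1 < x T.2.2) ∨
        (x T.2.2 < x T.1 ∧ x T.1 < x T.2.1)) := ⟨_, rfl⟩
  have hmem : ∀ T : V × V × V, T ∈ F ↔ Tri P M T.1 T.2.1 T.2.2 := by
    intro T; rw [hF]; simp
  have hmem0 : ∀ T : V × V × V, T ∈ M0 ↔ Tri P M T.1 T.2.1 T.2.2 ∧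
      ((x T.2.1 < x T.1 ∧ x T.1 < x T.2.2) ∨ (x T.2.2 < x T.1 ∧ x T.1 < x T.2.1)) := by
    intro T; rw [hM0, Finset.mem_filter, hmem]
  -- one of the three rotations has a middle first entry
  have hsub : F ⊆ M0 ∪ (M0.image (fun T => (T.2.2, T.1, T.2.1)) ∪
      M0.image (fun T => (T.2.1, T.2.2, T.1))) := by
    rintro ⟨a, b, c⟩ hT
    rw [hmem] at hT
    change Tri P M a b c at hT
    have hab : x a ≠ x b := fun h => hT.1.ne (hxi h)
    have hbc : x b ≠ x c := fun h => hT.2.1.ne (hxi h)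
    have hca : x c ≠ x a := fun h => hT.2.2.1.ne (hxi h)
    rw [Finset.mem_union, Finset.mem_union, Finset.mem_image, Finset.mem_image]
    have hrot := tri_rot hT
    have hrot2 := tri_rot hrot
    by_cases h1 : (x b < x a ∧ x a < x c) ∨ (x c < x a ∧ x a < x b)
    · left
      rw [hmem0]
      exact ⟨hT, h1⟩
    right
    by_cases h2 : (x c < x b ∧ x b < x a) ∨ (x a < x b ∧ x b < x c)
    · left
      exact ⟨(b, c, a), (hmem0 _).mpr ⟨hrot, h2⟩, rfl⟩
    · right
      refine ⟨(c, a, b), (hmem0 _).mpr ⟨hrot2, ?_⟩, rfl⟩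
      change (x a < x c ∧ x c < x b) ∨ (x b < x c ∧ x c < x a)
      exact mid_cases (x a) (x b) (x c) h1 h2 hab hbc hca
  have hle : F.card ≤ 3 * M0.card := by
    calc F.card ≤ _ := Finset.card_le_card hsub
      _ ≤ M0.card + ((M0.image (fun T => (T.2.2, T.1, T.2.1))).card +
          (M0.image (fun T => (T.2.1, T.2.2, T.1))).card) :=
        (Finset.card_union_le _ _).trans (Nat.add_le_add_left (Finset.card_union_le _ _) _)
      _ ≤ M0.card + (M0.card + M0.card) :=
        Nat.add_le_add_left (Nat.add_le_add Finset.card_image_le Finset.card_image_le) _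
      _ = 3 * M0.card := by ring
  -- the two extreme vertices
  have hne : (univ : Finset V).Nonempty := by
    rw [← Finset.card_pos, Finset.card_univ]; omega
  obtain ⟨vm, -, hvm⟩ := Finset.exists_min_image univ x hne
  obtain ⟨vM, -, hvM⟩ := Finset.exists_max_image univ x hne
  have hmM : vm ≠ vM := by
    intro h
    have hall : ∀ u : V, u = vm := by
      intro u
      apply hxi
      exact le_antisymm (by rw [h]; exact hvM u (mem_univ u)) (hvm u (mem_univ u))
    have : Fintype.card V ≤ 1 := Fintype.card_le_one_iff.mpr fun a b => (hall a).trans (hall b).symm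
    omega
  have h0 : M0.card ≤ (((univ.erase vm).erase vM) ×ˢ (univ : Finset Bool)).card := by
    refine Finset.card_le_card_of_injOn
      (fun T : V × V × V => (T.1, decide (x T.2.1 < x T.1))) ?_ ?_
    · rintro ⟨a, b, c⟩ hT
      rw [Finset.mem_coe, hmem0] at hT
      obtain ⟨hT, h⟩ := hT
      change (x b < x a ∧ x a < x c) ∨ (x c < x a ∧ x a < x b) at h
      rw [Finset.mem_coe, Finset.mem_product]
      refine ⟨?_, Finset.mem_univ _⟩
      rw [Finset.mem_erase, Finset.mem_erase]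
      refine ⟨?_, ?_, Finset.mem_univ _⟩
      · rintro rfl
        have := hvM b (mem_univ b)
        have := hvM c (mem_univ c)
        rcases h with h | h <;> linarith [h.1, h.2]
      · rintro rfl
        have := hvm b (mem_univ b)
        have := hvm c (mem_univ c)
        rcases h with h | h <;> linarith [h.1, h.2]
    · rintro ⟨v, a, b⟩ hT ⟨v', a', b'⟩ hT' heq
      rw [Finset.mem_coe, hmem0] at hT hT'
      obtain ⟨hT, h⟩ := hT
      obtain ⟨hT', h'⟩ := hT'
      change Tri P M v a b at hT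
      change Tri P M v' a' b' at hT'
      change (x a < x v ∧ x v < x b) ∨ (x b < x v ∧ x v < x a) at h
      change (x a' < x v' ∧ x v' < x b') ∨ (x b' < x v' ∧ x v' < x a') at h'
      have hvv : v = v' := (Prod.ext_iff.mp heq).1
      subst hvv
      have hdec : (x a < x v) ↔ (x a' < x v) := by
        have := (Prod.ext_iff.mp heq).2
        simpa using this
      have key : 0 < (x a - x v) * (x a' - x v) ∧ (x a - x v) * (x b - x v) < 0 ∧
          (x a' - x v) * (x b' - x v) < 0 := by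
        rcases h with ⟨h1, h2⟩ | ⟨h1, h2⟩
        · have h3 := hdec.mp h1
          rcases h' with ⟨h4, h5⟩ | ⟨h4, h5⟩
          · exact ⟨mul_pos_of_neg_of_neg (by linarith) (by linarith),
              mul_neg_of_neg_of_pos (by linarith) (by linarith),
              mul_neg_of_neg_of_pos (by linarith) (by linarith)⟩
          · linarith
        · rcases h' with ⟨h4, h5⟩ | ⟨h4, h5⟩
          · have h3 := hdec.mpr h4
            linarith
          · exact ⟨mul_pos (by linarith) (by linarith),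
              mul_neg_of_pos_of_neg (by linarith) (by linarith),
              mul_neg_of_pos_of_neg (by linarith) (by linarith)⟩
      rw [hxe, hxe, hxe, hxe, hxe] at key
      obtain ⟨rfl, rfl⟩ := slot_unique hM ε hT hT' key.1 key.2.1 key.2.2
      rfl
  have hprod : (((univ.erase vm).erase vM) ×ˢ (univ : Finset Bool)).card =
      (Fintype.card V - 2) * 2 := by
    rw [Finset.card_product, Finset.card_erase_of_mem
      (Finset.mem_erase.mpr ⟨Ne.symm hmM, Finset.mem_univ _⟩),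
      Finset.card_erase_of_mem (Finset.mem_univ _), Finset.card_univ, Finset.card_univ,
      Fintype.card_bool, Nat.sub_sub]
  rw [hcard]
  omega

end Pool.Agent.IP25.S_32
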