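import Mathlib
import Pool.Agent.Lib.MP_234ff2_co.IP.Base25

set_option autoImplicit false

/-! The plane graph H together with a big outer triangle. -/

namespace Pool.Agent.IP25

open Classical

/-- The three outer points, A = 0, C = 1, B = 2. -/
noncomputable def outPt (L : ℝ) (i : Fin 3) : Pt :=
  if i = 0 then (-4 * L, -2 * L) else if i = 1 then (4 * L, -2 * L) else (0, 4 * L)

/-- Positions of the extended vertex set. -/
noncomputable def extP {V : Type} (P : V → Pt) (L : ℝ) : V ⊕ Fin 3 → Pt
  | Sum.inl v => P v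
  | Sum.inr i => outPt L i

/-- Edges of H among the inner vertices. -/
def innG {V : Type} (H : SimpleGraph V) : SimpleGraph (V ⊕ Fin 3) where
  Adj
    | Sum.inl u, Sum.inl v => H.Adj u v
    | _, _ => False
  symm := ⟨by
    intro x y h
    cases x <;> cases y <;> simp_all
    exact h.symm⟩
  loopless := ⟨by
    intro x h
    cases x <;> simp_all⟩

/-- Inner edges and the three sides of the outer triangle. -/
def extG {V : Type} (H : SimpleGraph V) : SimpleGraph (V ⊕ Fin 3) where
  Adj
    | Sum.inl u, Sum.inl v => H.Adj u v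
    | Sum.inr i, Sum.inr j => i ≠ j
    | _, _ => False
  symm := ⟨by
    intro x y h
    cases x <;> cases y <;> simp_all
    · exact h.symm
    · exact Ne.symm h⟩
  loopless := ⟨by
    intro x h
    cases x <;> simp_all⟩

theorem cr_seg (a b p q z : Pt) (m : ℝ) (hx : z.1 = p.1 + m * (q.1 - p.1))
    (hy : z.2 = p.2 + m * (q.2 - p.2)) : cr a b z = (1 - m) * cr a b p + m * cr a b q := by
  unfold cr; rw [hx, hy]; ring

theorem cr_self_left (a b : Pt) : cr a b a = 0 := by unfold cr; ring
theorem cr_self_right (a b : Pt) : cr a b b = 0 := by unfold cr; ring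

/-- All the inner points see a fixed side of every side of the outer triangle. -/
theorem out_sign (L : ℝ) (hL : 0 < L) (i j : Fin 3) (hij : i ≠ j) :
    (∀ p : Pt, |p.1| < L → |p.2| < L → 0 < cr (outPt L i) (outPt L j) p) ∨
    (∀ p : Pt, |p.1| < L → |p.2| < L → cr (outPt L i) (outPt L j) p < 0) := by
  have key : ∀ p : Pt, |p.1| < L → |p.2| < L → -L < p.1 ∧ p.1 < L ∧ -L < p.2 ∧ p.2 < L := by
    intro p h1 h2
    rw [abs_lt] at h1 h2
    exact ⟨h1.1, h1.2, h2.1, h2.2⟩
  fin_cases i <;> fin_cases j <;> first
    | exact absurd rfl hij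
    | (left; intro p h1 h2; obtain ⟨a1, a2, a3, a4⟩ := key p h1 h2
       simp [outPt, cr]; nlinarith)
    | (right; intro p h1 h2; obtain ⟨a1, a2, a3, a4⟩ := key p h1 h2
       simp [outPt, cr]; nlinarith)

theorem out_pos01 (L : ℝ) (p : Pt) (h1 : |p.1| < L) (h2 : |p.2| < L) :
    0 < cr (outPt L 0) (outPt L 1) p := by
  rw [abs_lt] at h1 h2
  simp [outPt, cr]; nlinarith [h1.1, h1.2, h2.1, h2.2]

theorem out_pos12 (L : ℝ) (p : Pt) (h1 : |p.1| < L) (h2 : |p.2| < L) :
    0 < cr (outPt L 1) (outPt L 2) p := by
  rw [abs_lt] at h1 h2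
  simp [outPt, cr]; nlinarith [h1.1, h1.2, h2.1, h2.2]

theorem out_pos20 (L : ℝ) (p : Pt) (h1 : |p.1| < L) (h2 : |p.2| < L) :
    0 < cr (outPt L 2) (outPt L 0) p := by
  rw [abs_lt] at h1 h2
  simp [outPt, cr]; nlinarith [h1.1, h1.2, h2.1, h2.2]

theorem out_inj (L : ℝ) (hL : 0 < L) (i j : Fin 3) (h : outPt L i = outPt L j) : i = j := by
  by_contra hij
  fin_cases i <;> fin_cases j <;> first
    | exact hij rfl
    | (simp [outPt, Prod.ext_iff] at h; linarith)

theorem extP_inj {V : Type} (P : V → Pt) (hP : Function.Injective P) (L : ℝ) (hL : 0 < L)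
    (hb : ∀ v, |(P v).1| < L ∧ |(P v).2| < L) : Function.Injective (extP P L) := by
  have hio : ∀ (v : V) (i : Fin 3), P v ≠ outPt L i := by
    intro v i h
    obtain ⟨h1, h2⟩ := hb v
    rw [abs_lt] at h1 h2
    rw [h] at h1 h2
    fin_cases i
    · simp [outPt] at h1; linarith [h1.1]
    · simp [outPt] at h1; linarith [h1.2]
    · simp [outPt] at h2; linarith [h2.2]
  intro x y hxy
  cases x with
  | inl u =>
    cases y with
    | inl v => exact congrArg _ (hP hxy)
    | inr j => exact absurd hxy (hio u j)
  | inr i =>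
    cases y with
    | inl v => exact absurd hxy.symm (hio v i)
    | inr j => exact congrArg _ (out_inj L hL i j hxy)

theorem out_tri (L : ℝ) (hL : 0 < L) (i j k : Fin 3) (hij : i ≠ j) (hki : k ≠ i) (hkj : k ≠ j) :
    cr (outPt L i) (outPt L j) (outPt L k) ≠ 0 := by
  have hL2 : 0 < L * L := by positivity
  fin_cases i <;> fin_cases j <;> fin_cases k <;> first
    | exact absurd rfl hij
    | exact absurd rfl hki
    | exact absurd rfl hkj
    | (simp [outPt, cr]; refine ⟨?_, ?_⟩ <;> intro h <;> linarith)
    | (simp [outPt, cr]; intro h; nlinarith)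

theorem extG_plane {V : Type} (P : V → Pt) (H : SimpleGraph V) (hH : Plane P H) (L : ℝ)
    (hL : 0 < L) (hb : ∀ v, |(P v).1| < L ∧ |(P v).2| < L) : Plane (extP P L) (extG H) := by
  have hside : ∀ i j : Fin 3, ∀ z : Pt, z ∈ segment ℝ (outPt L i) (outPt L j) →
      cr (outPt L i) (outPt L j) z = 0 := by
    intro i j z hz
    obtain ⟨m, h0, h1, hx, hy⟩ := seg_mem _ _ _ hz
    rw [cr_seg _ _ _ _ _ m hx hy, cr_self_left, cr_self_right]; ring
  have hinn : ∀ i j : Fin 3, i ≠ j → ∀ u v : V, ∀ z : Pt, z ∈ segment ℝ (P u) (P v) →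
      cr (outPt L i) (outPt L j) z ≠ 0 := by
    intro i j hij u v z hz
    obtain ⟨m, h0, h1, hx, hy⟩ := seg_mem _ _ _ hz
    rw [cr_seg _ _ _ _ _ m hx hy]
    rcases out_sign L hL i j hij with h | h
    · have a1 := h _ (hb u).1 (hb u).2
      have a2 := h _ (hb v).1 (hb v).2
      intro h3
      rcases lt_or_eq_of_le h1 with h4 | h4
      · nlinarith [mul_pos (sub_pos.mpr h4) a1, mul_nonneg h0 a2.le]
      · subst h4; linarith
    · have a1 := h _ (hb u).1 (hb u).2
      have a2 := h _ (hb v).1 (hb v).2
      intro h3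
      rcases lt_or_eq_of_le h1 with h4 | h4
      · nlinarith [mul_pos (sub_pos.mpr h4) (neg_pos.mpr a1), mul_nonneg h0 (neg_pos.mpr a2).le]
      · subst h4; linarith
  constructor
  · intro x y w hxy hwx hwy hin
    cases x with
    | inl u =>
      cases y with
      | inl v =>
        cases w with
        | inl w =>
          exact hH.1 u v w hxy (fun h => hwx (congrArg _ h)) (fun h => hwy (congrArg _ h)) hin
        | inr k =>
          obtain ⟨m, h0, h1, hx, hy⟩ := seg_mem _ _ _ hin
          obtain ⟨hu1, hu2⟩ := hb u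
          obtain ⟨hv1, hv2⟩ := hb v
          rw [abs_lt] at hu1 hu2 hv1 hv2
          simp only [extP] at hx hy
          fin_cases k
          · simp [outPt] at hx; nlinarith [mul_nonneg h0 (sub_nonneg.mpr hv1.1.le), mul_nonneg (sub_nonneg.mpr h1) (sub_nonneg.mpr hu1.1.le)]
          · simp [outPt] at hx; nlinarith [mul_nonneg h0 (sub_nonneg.mpr hv1.2.le), mul_nonneg (sub_nonneg.mpr h1) (sub_nonneg.mpr hu1.2.le)]
          · simp [outPt] at hy; nlinarith [mul_nonneg h0 (sub_nonneg.mpr hv2.2.le), mul_nonneg (sub_nonneg.mpr h1) (sub_nonneg.mpr hu2.2.le)]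
      | inr j => exact hxy
    | inr i =>
      cases y with
      | inl v => exact hxy
      | inr j =>
        have hij : i ≠ j := hxy
        have h0 := hside i j _ hin
        cases w with
        | inl w =>
          exact hinn i j hij w w (P w) (left_mem_segment ℝ _ _) h0
        | inr k =>
          exact out_tri L hL i j k hij (fun h => hwx (congrArg _ h)) (fun h => hwy (congrArg _ h)) h0
  · intro x y x' y' hxy hxy' h1 h2 h3 h4 z hz hz'
    cases x with
    | inl u =>
      cases y with
      | inl v =>
        cases x' with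
        | inl u' =>
          cases y' with
          | inl v' =>
            exact hH.2 u v u' v' hxy hxy' (fun h => h1 (congrArg _ h)) (fun h => h2 (congrArg _ h))
              (fun h => h3 (congrArg _ h)) (fun h => h4 (congrArg _ h)) z hz hz'
          | inr j => exact hxy'
        | inr i =>
          cases y' with
          | inl v' => exact hxy'
          | inr j => exact hinn i j hxy' u v z hz (hside i j z hz')
      | inr j => exact hxy
    | inr i =>
      cases y with
      | inl v => exact hxy
      | inr j =>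
        cases x' with
        | inl u' =>
          cases y' with
          | inl v' => exact hinn i j hxy u' v' z hz' (hside i j z hz)
          | inr j' => exact hxy'
        | inr i' =>
          cases y' with
          | inl v' => exact hxy'
          | inr j' =>
            have a1 : i ≠ j := hxy
            have a2 : i' ≠ j' := hxy'
            have b1 : i ≠ i' := fun h => h1 (congrArg _ h)
            have b2 : i ≠ j' := fun h => h2 (congrArg _ h)
            have b3 : j ≠ i' := fun h => h3 (congrArg _ h)
            have b4 : j ≠ j' := fun h => h4 (congrArg _ h)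
            omega

/-- Every inner dart has an outer vertex strictly on its left. -/
theorem out_left (L : ℝ) (hL : 0 < L) (p q : Pt) (hp1 : |p.1| < L) (hp2 : |p.2| < L)
    (hpq : p ≠ q) : ∃ i : Fin 3, 0 < cr p q (outPt L i) := by
  by_contra hcon
  push Not at hcon
  have a0 := hcon 0
  have a1 := hcon 1
  have a2 := hcon 2
  have w0 := out_pos12 L p hp1 hp2
  have w1 := out_pos20 L p hp1 hp2
  have w2 := out_pos01 L p hp1 hp2
  have hid : cr (outPt L 1) (outPt L 2) p * cr p q (outPt L 0)
      + cr (outPt L 2) (outPt L 0) p * cr p q (outPt L 1)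
      + cr (outPt L 0) (outPt L 1) p * cr p q (outPt L 2) = 0 := by
    simp [outPt, cr]; ring
  have z0 : cr p q (outPt L 0) = 0 := by
    by_contra h
    have : cr p q (outPt L 0) < 0 := lt_of_le_of_ne a0 h
    nlinarith [mul_pos w0 (neg_pos.mpr this), mul_nonneg w1.le (neg_nonneg.mpr a1),
      mul_nonneg w2.le (neg_nonneg.mpr a2)]
  have z1 : cr p q (outPt L 1) = 0 := by
    by_contra h
    have : cr p q (outPt L 1) < 0 := lt_of_le_of_ne a1 h
    nlinarith [mul_pos w1 (neg_pos.mpr this), mul_nonneg w0.le (neg_nonneg.mpr a0),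
      mul_nonneg w2.le (neg_nonneg.mpr a2)]
  have z2 : cr p q (outPt L 2) = 0 := by
    by_contra h
    have : cr p q (outPt L 2) < 0 := lt_of_le_of_ne a2 h
    nlinarith [mul_pos w2 (neg_pos.mpr this), mul_nonneg w0.le (neg_nonneg.mpr a0),
      mul_nonneg w1.le (neg_nonneg.mpr a1)]
  have e1 : q.2 - p.2 = 0 := by
    have : L * (q.2 - p.2) = 0 := by
      have : cr p q (outPt L 1) - cr p q (outPt L 0) = - (8 * (L * (q.2 - p.2))) := by
        simp [outPt, cr]; ring
      rw [z0, z1] at this; linarith
    rcases mul_eq_zero.mp this with h | h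
    · exact absurd h hL.ne'
    · exact h
  have e2 : q.1 - p.1 = 0 := by
    have : L * (q.1 - p.1) = 0 := by
      have h3 : cr p q (outPt L 2) - cr p q (outPt L 0)
          = 6 * (L * (q.1 - p.1)) - 4 * (L * (q.2 - p.2)) := by
        simp [outPt, cr]; ring
      rw [z0, z2, e1] at h3; linarith
    rcases mul_eq_zero.mp this with h | h
    · exact absurd h hL.ne'
    · exact h
  exact hpq (Prod.ext (by linarith) (by linarith))

end Pool.Agent.IP25
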