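import Mathlib
import Pool.Agent.Lib.MP_234ff2_co.IP.Ext25

set_option autoImplicit false

/-! The planar inequality StStar from the rows StN and StS. -/

namespace Pool.Agent.IP25

open Classical

theorem exists_bound {V : Type} [Fintype V] (P : V → Pt) :
    ∃ L : ℝ, 0 < L ∧ ∀ v, |(P v).1| < L ∧ |(P v).2| < L := by
  refine ⟨1 + ∑ v, (|(P v).1| + |(P v).2|), ?_, ?_⟩
  · have : 0 ≤ ∑ v, (|(P v).1| + |(P v).2|) := Finset.sum_nonneg (fun v _ => by positivity)
    linarith
  · intro v
    have h : |(P v).1| + |(P v).2| ≤ ∑ v, (|(P v).1| + |(P v).2|) :=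
      Finset.single_le_sum (f := fun v => |(P v).1| + |(P v).2|)
        (fun v _ => by positivity) (Finset.mem_univ v)
    have h1 := abs_nonneg (P v).1
    have h2 := abs_nonneg (P v).2
    constructor <;> linarith

theorem exists_max {W : Type} [Finite W] (Q : W → Pt) (G : SimpleGraph W) (hG : Plane Q G) :
    ∃ M : SimpleGraph W, G ≤ M ∧ MaxPlane Q M := by
  have hfin : {G : SimpleGraph W | Plane Q G}.Finite := Set.toFinite _
  obtain ⟨M, hle, hM⟩ := hfin.exists_le_maximal (show G ∈ {G : SimpleGraph W | Plane Q G} from hG)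
  exact ⟨M, hle, hM.1, fun M' h1 h2 => hM.2 h2 h1⟩

/-- Rotation of an ordered triple. -/
def rotE (W : Type) : W × W × W ≃ W × W × W where
  toFun T := (T.2.1, T.2.2, T.1)
  invFun T := (T.2.2, T.1, T.2.1)
  left_inv _ := rfl
  right_inv _ := rfl

noncomputable def triS {W : Type} [Fintype W] (Q : W → Pt) (M : SimpleGraph W) :
    Finset (W × W × W) := Finset.univ.filter (fun T => Tri Q M T.1 T.2.1 T.2.2)

theorem mem_triS {W : Type} [Fintype W] (Q : W → Pt) (M : SimpleGraph W) (T : W × W × W) :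
    T ∈ triS Q M ↔ Tri Q M T.1 T.2.1 T.2.2 := by
  simp [triS]

theorem triS_rot {W : Type} [Fintype W] (Q : W → Pt) (M : SimpleGraph W) (T : W × W × W) :
    T ∈ triS Q M ↔ rotE W T ∈ triS Q M := by
  rw [mem_triS, mem_triS]
  constructor
  · intro h; exact tri_rot h
  · intro h; exact tri_rot (tri_rot h)

theorem sum_rot {W : Type} [Fintype W] (Q : W → Pt) (M : SimpleGraph W) (f : W × W × W → ℕ) :
    ∑ T ∈ triS Q M, f (rotE W T) = ∑ T ∈ triS Q M, f T :=
  Finset.sum_equiv (rotE W) (fun T => triS_rot Q M T) (fun _ _ => rfl)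

theorem sum_rot3 {W : Type} [Fintype W] (Q : W → Pt) (M : SimpleGraph W) (f : W × W × W → ℕ) :
    ∑ T ∈ triS Q M, (f T + f (rotE W T) + f (rotE W (rotE W T))) = 3 * ∑ T ∈ triS Q M, f T := by
  rw [Finset.sum_add_distrib, Finset.sum_add_distrib, sum_rot Q M f,
    sum_rot Q M (fun T => f (rotE W T)), sum_rot Q M f]
  ring

/-- 1 if the first dart of the triple is not an inner edge. -/
noncomputable def alf {V : Type} (H : SimpleGraph V) (T : (V ⊕ Fin 3) × (V ⊕ Fin 3) × (V ⊕ Fin 3)) :
    ℕ := if (innG H).Adj T.1 T.2.1 then 0 else 1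

/-- 1 if the first dart of the triple joins two outer vertices. -/
def bet {V : Type} (T : (V ⊕ Fin 3) × (V ⊕ Fin 3) × (V ⊕ Fin 3)) : ℕ :=
  match T.1, T.2.1 with
  | Sum.inr _, Sum.inr _ => 1
  | _, _ => 0

/-- All three sides are inner edges. -/
def allI {V : Type} (H : SimpleGraph V) (T : (V ⊕ Fin 3) × (V ⊕ Fin 3) × (V ⊕ Fin 3)) : Prop :=
  (innG H).Adj T.1 T.2.1 ∧ (innG H).Adj T.2.1 T.2.2 ∧ (innG H).Adj T.2.2 T.1

theorem pointwise {V : Type} (H : SimpleGraph V) (T : (V ⊕ Fin 3) × (V ⊕ Fin 3) × (V ⊕ Fin 3))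
    (hT : ¬ ∃ i j k : Fin 3, T = (Sum.inr i, Sum.inr j, Sum.inr k)) :
    (if allI H T then 0 else 1) +
      2 * (bet T + bet (rotE _ T) + bet (rotE _ (rotE _ T))) ≤
    alf H T + alf H (rotE _ T) + alf H (rotE _ (rotE _ T)) := by
  obtain ⟨x, y, z⟩ := T
  rcases x with u | i <;> rcases y with v | j <;> rcases z with w | k <;>
    simp only [alf, bet, allI, rotE, innG, Equiv.coe_fn_mk] <;>
    first
      | exact absurd ⟨_, _, _, rfl⟩ hT
      | (by_cases h1 : H.Adj u v <;> by_cases h2 : H.Adj v w <;> by_cases h3 : H.Adj w u <;>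
          simp [h1, h2, h3])
      | (split_ifs <;> first | omega | (exfalso; tauto) | (simp_all; done) | (simp_all; omega))

/-- The outer darts are covered by a triangle with an inner third vertex. -/
theorem outer_cov (hN : StN) {V : Type} [Fintype V] [Nonempty V] (P : V → Pt)
    (hP : Function.Injective P) (H : SimpleGraph V) (L : ℝ) (hL : 0 < L)
    (hb : ∀ v, |(P v).1| < L ∧ |(P v).2| < L) (M : SimpleGraph (V ⊕ Fin 3))
    (hle : extG H ≤ M) (hM : MaxPlane (extP P L) M) (i j k : Fin 3) (hij : i ≠ j)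
    (hjk : j ≠ k) (hki : k ≠ i) (hpos : 0 < cr (outPt L i) (outPt L j) (outPt L k))
    (hin : ∀ v, InTri (outPt L i) (outPt L j) (outPt L k) (P v)) :
    ∃ w : V, Tri (extP P L) M (Sum.inr i) (Sum.inr j) (Sum.inl w) := by
  have hinj := extP_inj P hP L hL hb
  have hadj : M.Adj (Sum.inr i) (Sum.inr j) := hle hij
  obtain ⟨c, hc⟩ := hN _ (extP P L) M hinj hM (Sum.inr i) (Sum.inr j) (Sum.inr k) hadj hpos
  rcases c with w | l
  · exact ⟨w, hc⟩
  · exfalso
    have h1 : l ≠ j := fun h => hc.2.1.ne (by rw [h])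
    have h2 : l ≠ i := fun h => hc.2.2.1.ne (by rw [h])
    have h3 : l = k := by omega
    subst h3
    obtain ⟨v⟩ := (inferInstance : Nonempty V)
    exact hc.2.2.2.2 (Sum.inl v) (by simp) (by simp) (by simp) (hin v)

theorem inTri_out (L : ℝ) (p : Pt) (h1 : |p.1| < L) (h2 : |p.2| < L) :
    InTri (outPt L 0) (outPt L 1) (outPt L 2) p :=
  ⟨(out_pos01 L p h1 h2).le, (out_pos12 L p h1 h2).le, (out_pos20 L p h1 h2).le⟩

theorem inTri_cyc (a b c p : Pt) (h : InTri a b c p) : InTri b c a p := ⟨h.2.1, h.2.2, h.1⟩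

theorem star_25 (hN : StN) (hS : StS) : StStar := by
  intro V _ P H hP hH hn
  have : Nonempty V := Fintype.card_pos_iff.mp hn
  obtain ⟨L, hL, hb⟩ := exists_bound P
  have hinj := extP_inj P hP L hL hb
  obtain ⟨M, hle, hM⟩ := exists_max (extP P L) (extG H) (extG_plane P H hH L hL hb)
  set Q := extP P L with hQ
  -- inner darts are covered
  have hcov : ∀ u v : V, H.Adj u v → Cov Q M (Sum.inl u) (Sum.inl v) := by
    intro u v huv
    obtain ⟨i, hi⟩ := out_left L hL (P u) (P v) (hb u).1 (hb u).2 (fun h => huv.ne (hP h))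
    have hadj : M.Adj (Sum.inl u) (Sum.inl v) := hle huv
    exact hN _ Q M hinj hM (Sum.inl u) (Sum.inl v) (Sum.inr i) hadj hi
  -- outer darts
  have hin : ∀ v, InTri (outPt L 0) (outPt L 1) (outPt L 2) (P v) :=
    fun v => inTri_out L (P v) (hb v).1 (hb v).2
  have hp012 : 0 < cr (outPt L 0) (outPt L 1) (outPt L 2) := by
    simp [outPt, cr]; nlinarith [mul_pos hL hL]
  obtain ⟨w0, hw0⟩ := outer_cov hN P hP H L hL hb M hle hM 0 1 2 (by decide) (by decide)
    (by decide) hp012 hin
  obtain ⟨w1, hw1⟩ := outer_cov hN P hP H L hL hb M hle hM 1 2 0 (by decide) (by decide)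
    (by decide) (by rw [cr_cyc]; exact hp012) (fun v => inTri_cyc _ _ _ _ (hin v))
  obtain ⟨w2, hw2⟩ := outer_cov hN P hP H L hL hb M hle hM 2 0 1 (by decide) (by decide)
    (by decide) (by rw [cr_cyc']; exact hp012)
    (fun v => inTri_cyc _ _ _ _ (inTri_cyc _ _ _ _ (hin v)))
  -- no triangle has three outer vertices
  have hno : ∀ T ∈ triS Q M, ¬ ∃ i j k : Fin 3, T = (Sum.inr i, Sum.inr j, Sum.inr k) := by
    rintro T hT ⟨i, j, k, rfl⟩
    rw [mem_triS] at hT
    obtain ⟨h1, h2, h3, h4, h5⟩ := hT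
    have n1 : i ≠ j := fun h => h1.ne (by rw [h])
    have n2 : j ≠ k := fun h => h2.ne (by rw [h])
    have n3 : k ≠ i := fun h => h3.ne (by rw [h])
    obtain ⟨v⟩ := (inferInstance : Nonempty V)
    refine h5 (Sum.inl v) (by simp) (by simp) (by simp) ?_
    have hv := hin v
    have hneg : ∀ a b c : Fin 3, a ≠ b → b ≠ c → c ≠ a →
        0 < cr (outPt L a) (outPt L b) (outPt L c) →
        InTri (outPt L a) (outPt L b) (outPt L c) (P v) := by
      intro a b c
      fin_cases a <;> fin_cases b <;> fin_cases c <;> intro g1 g2 g3 g4 <;> first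
        | exact absurd rfl g1
        | exact absurd rfl g2
        | exact absurd rfl g3
        | exact hv
        | exact inTri_cyc _ _ _ _ hv
        | exact inTri_cyc _ _ _ _ (inTri_cyc _ _ _ _ hv)
        | (exfalso; simp [outPt, cr] at g4; nlinarith [mul_pos hL hL])
    exact hneg i j k n1 n2 n3 h4
  -- the counting
  set τ := (triS Q M).card with hτ
  set A := ∑ T ∈ triS Q M, alf H T with hA
  set B := ∑ T ∈ triS Q M, bet T with hB
  set K := ((triS Q M).filter (fun T => allI H T)).card with hK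
  set D := Nat.card {d : V × V // H.Adj d.1 d.2} with hD
  set C := Nat.card {d : V × V // Cov P H d.1 d.2} with hC
  have f1 : (τ - K) + 6 * B ≤ 3 * A := by
    have h1 : ∑ T ∈ triS Q M, ((if allI H T then 0 else 1) +
        2 * (bet T + bet (rotE _ T) + bet (rotE _ (rotE _ T)))) ≤
        ∑ T ∈ triS Q M, (alf H T + alf H (rotE _ T) + alf H (rotE _ (rotE _ T))) :=
      Finset.sum_le_sum (fun T hT => pointwise H T (hno T hT))
    rw [Finset.sum_add_distrib, ← Finset.mul_sum, sum_rot3 Q M bet, sum_rot3 Q M (alf H)] at h1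
    have h2 : ∑ T ∈ triS Q M, (if allI H T then 0 else 1) = τ - K := by
      have h3 : ∑ T ∈ triS Q M, ((if allI H T then 0 else 1) + (if allI H T then 1 else 0)) = τ := by
        rw [Finset.sum_congr rfl (g := fun _ => 1), Finset.sum_const, smul_eq_mul, mul_one]
        intro T _
        split_ifs <;> rfl
      rw [Finset.sum_add_distrib, ← Finset.card_filter] at h3
      omega
    rw [h2] at h1
    omega
  have f2 : 3 ≤ B := by
    have hsub : ({(Sum.inr 0, Sum.inr 1, Sum.inl w0), (Sum.inr 1, Sum.inr 2, Sum.inl w1),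
        (Sum.inr 2, Sum.inr 0, Sum.inl w2)} : Finset ((V ⊕ Fin 3) × (V ⊕ Fin 3) × (V ⊕ Fin 3)))
        ⊆ triS Q M := by
      intro T hT
      simp only [Finset.mem_insert, Finset.mem_singleton] at hT
      rcases hT with rfl | rfl | rfl
      · rw [mem_triS]; exact hw0
      · rw [mem_triS]; exact hw1
      · rw [mem_triS]; exact hw2
    have h3 : ∑ T ∈ ({(Sum.inr 0, Sum.inr 1, Sum.inl w0), (Sum.inr 1, Sum.inr 2, Sum.inl w1),
        (Sum.inr 2, Sum.inr 0, Sum.inl w2)} : Finset ((V ⊕ Fin 3) × (V ⊕ Fin 3) × (V ⊕ Fin 3))),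
        bet T = 3 := by
      rw [Finset.sum_insert (by simp), Finset.sum_insert (by simp), Finset.sum_singleton]
      rfl
    exact h3.symm.le.trans (Finset.sum_le_sum_of_subset hsub)
  have f3 : A + D ≤ τ := by
    have h1 : A + ((triS Q M).filter (fun T => (innG H).Adj T.1 T.2.1)).card = τ := by
      rw [hA, Finset.card_filter, ← Finset.sum_add_distrib,
        Finset.sum_congr rfl (g := fun _ => 1), Finset.sum_const, smul_eq_mul, mul_one]
      intro T _
      unfold alf
      split_ifs <;> rfl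
    have h2 : D ≤ ((triS Q M).filter (fun T => (innG H).Adj T.1 T.2.1)).card := by
      rw [hD, Nat.card_eq_fintype_card, Fintype.card_subtype]
      refine Finset.card_le_card_of_injOn (fun d : V × V => ((Sum.inl d.1, Sum.inl d.2,
        if h : ∃ c, Tri Q M (Sum.inl d.1) (Sum.inl d.2) c then h.choose else Sum.inl d.1) :
          (V ⊕ Fin 3) × (V ⊕ Fin 3) × (V ⊕ Fin 3))) ?_ ?_
      · intro d hd
        simp only [Finset.coe_filter, Finset.mem_univ, true_and, Set.mem_ofPred_eq] at hd
        have hc := hcov d.1 d.2 hd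
        have hc' : ∃ c, Tri Q M (Sum.inl d.1) (Sum.inl d.2) c := hc
        simp only [Finset.coe_filter, Set.mem_ofPred_eq]
        refine ⟨?_, hd⟩
        rw [mem_triS]
        simp only [dif_pos hc']
        exact hc'.choose_spec
      · intro d _ d' _ h
        simp only [Prod.mk.injEq, Sum.inl.injEq] at h
        exact Prod.ext h.1 h.2.1
    omega
  have f4 : K ≤ C := by
    obtain ⟨v0⟩ := (inferInstance : Nonempty V)
    rw [hC, Nat.card_eq_fintype_card, Fintype.card_subtype]
    have hmain : ∀ T ∈ (triS Q M).filter (fun T => allI H T), ∃ a b c : V,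
        T = (Sum.inl a, Sum.inl b, Sum.inl c) ∧ Tri P H a b c := by
      intro T hT
      rw [Finset.mem_filter, mem_triS] at hT
      obtain ⟨⟨t1, t2, t3, t4, t5⟩, i1, i2, i3⟩ := hT
      obtain ⟨x, y, z⟩ := T
      rcases x with a | i
      · rcases y with b | j
        · rcases z with c | k
          · refine ⟨a, b, c, rfl, i1, i2, i3, t4, ?_⟩
            intro w h1 h2 h3 h4
            exact t5 (Sum.inl w) (fun h => h1 (Sum.inl.inj h)) (fun h => h2 (Sum.inl.inj h))
              (fun h => h3 (Sum.inl.inj h)) h4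
          · exact absurd i2 (by simp [innG])
        · exact absurd i1 (by simp [innG])
      · exact absurd i1 (by simp [innG])
    refine Finset.card_le_card_of_injOn (fun T => (Sum.elim id (fun _ => v0) T.1,
      Sum.elim id (fun _ => v0) T.2.1)) ?_ ?_
    · intro T hT
      obtain ⟨a, b, c, rfl, h⟩ := hmain T hT
      simp only [Finset.coe_filter, Finset.mem_univ, true_and, Set.mem_ofPred_eq, Sum.elim_inl, id]
      exact ⟨c, h⟩
    · intro T hT T' hT' h
      obtain ⟨a, b, c, rfl, h1⟩ := hmain T hT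
      obtain ⟨a', b', c', rfl, h2⟩ := hmain T' hT'
      simp only [Sum.elim_inl, id, Prod.mk.injEq] at h
      obtain ⟨rfl, rfl⟩ := h
      rw [tri_unique hH h1 h2]
  have f5 : τ + 12 ≤ 6 * (Fintype.card V + 3) := by
    have h1 := hS (V ⊕ Fin 3) Q M hinj hM.1 (by simp)
    rw [Fintype.card_sum, Fintype.card_fin, Nat.card_eq_fintype_card, Fintype.card_subtype] at h1
    rw [hτ]
    unfold triS
    convert h1 using 3
  have f6 : K ≤ τ := Finset.card_filter_le _ _
  omega

end Pool.Agent.IP25
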