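import Mathlib
import Pool.Agent.Lib.MP_234ff2_co.IP.Star25
import Pool.Agent.Lib.MP_234ff2_co.IP.Fin25
import Pool.Agent.Lib.MP_234ff2_co.IP.N25
import Pool.Agent.Lib.MP_234ff2_co.IP.C_44
import Pool.Agent.Lib.MP_234ff2_co.IP.H_32
import Pool.Agent.Lib.MP_234ff2_co.IP.S_32
import Pool.Agent.Lib.MP_234ff2_co.IP.I_42
import Pool.Agent.Lib.MP_234ff2_co.IP.II_22

set_option autoImplicit false

/-! Assembly. -/

namespace Pool.Agent.IP25

theorem stStar : StStar :=
  star_25 (stN_25 C_44.stC_44 stH_32) S_32.stS_32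

theorem stFin : StFin := fin_25 stStar I_42.stI_42 II_22.stII_22

end Pool.Agent.IP25
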